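import Mathlib

/-! Determinant identities. -/

namespace Pool.Agent.Lib.MP_6f5d92_co

open Matrix

/-- the triple product -/
def tr (a b c : Fin 3 → ℝ) : ℝ :=
  a 0 * (b 1 * c 2 - b 2 * c 1) - a 1 * (b 0 * c 2 - b 2 * c 0) + a 2 * (b 0 * c 1 - b 1 * c 0)

/-- the determinant of four affine functions -/
def dt (a b c d : Fin 3 → ℝ) (p q r s : ℝ) : ℝ :=
  p * tr b c d - q * tr a c d + r * tr a b d - s * tr a b c

theorem dot3 (a b : Fin 3 → ℝ) : a ⬝ᵥ b = a 0 * b 0 + a 1 * b 1 + a 2 * b 2 := by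
  simp [dotProduct, Fin.sum_univ_three]

theorem cross_dot (a b c : Fin 3 → ℝ) : (a ⨯₃ b) ⬝ᵥ c = tr a b c := by
  rw [dot3]
  simp [cross_apply, tr]
  ring

theorem dt_eval (a b c d x : Fin 3 → ℝ) (p q r s : ℝ) :
    dt a b c d p q r s = (p - a ⬝ᵥ x) * tr b c d - (q - b ⬝ᵥ x) * tr a c d +
      (r - c ⬝ᵥ x) * tr a b d - (s - d ⬝ᵥ x) * tr a b c := by
  simp only [dt, tr, dot3]
  ring

theorem cramer5 (u v a b c x : Fin 3 → ℝ) (p q r s t : ℝ) :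
    dt v a b c q r s t * (p - u ⬝ᵥ x) - dt u a b c p r s t * (q - v ⬝ᵥ x) +
      dt u v b c p q s t * (r - a ⬝ᵥ x) - dt u v a c p q r t * (s - b ⬝ᵥ x) +
      dt u v a b p q r s * (t - c ⬝ᵥ x) = 0 := by
  rw [dt_eval v a b c x, dt_eval u a b c x, dt_eval u v b c x, dt_eval u v a c x,
    dt_eval u v a b x]
  ring

theorem key_id (u w z g : Fin 3 → ℝ) :
    tr u w g * tr u z (u ⨯₃ g) - tr u w (u ⨯₃ g) * tr u z g =
      tr u w z * ((u ⨯₃ g) ⬝ᵥ (u ⨯₃ g)) := by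
  simp [cross_apply, tr]
  ring

theorem four_id (u w z g d : Fin 3 → ℝ) :
    tr w z g * (u ⬝ᵥ d) - tr u z g * (w ⬝ᵥ d) + tr u w g * (z ⬝ᵥ d) - tr u w z * (g ⬝ᵥ d) = 0 := by
  simp only [dot3, tr]
  ring

theorem sq_cross_pos {u w g : Fin 3 → ℝ} (h : tr u w g ≠ 0) : 0 < (u ⨯₃ g) ⬝ᵥ (u ⨯₃ g) := by
  have h1 : tr u w g = -((u ⨯₃ g) ⬝ᵥ w) := by
    rw [cross_dot]
    simp only [tr]
    ring
  have h2 : u ⨯₃ g ≠ 0 := fun h0 => h (by rw [h1, h0, zero_dotProduct, neg_zero])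
  refine lt_of_le_of_ne ?_ fun h0 => h2 (dotProduct_self_eq_zero.1 h0.symm)
  rw [dot3]
  nlinarith [mul_self_nonneg ((u ⨯₃ g) 0), mul_self_nonneg ((u ⨯₃ g) 1),
    mul_self_nonneg ((u ⨯₃ g) 2)]

/-- increasing keys give a positive triple product -/
theorem tr_pos {u w z g : Fin 3 → ℝ} (h : 0 < tr u w g * tr u z g)
    (hk : tr u w (u ⨯₃ g) / tr u w g < tr u z (u ⨯₃ g) / tr u z g) : 0 < tr u w z := by
  have h1 : tr u w g ≠ 0 := fun h0 => by simp [h0] at h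
  have h2 : tr u z g ≠ 0 := fun h0 => by simp [h0] at h
  have h3 := mul_pos h (sub_pos.2 hk)
  have h4 : tr u w g * tr u z g * (tr u z (u ⨯₃ g) / tr u z g - tr u w (u ⨯₃ g) / tr u w g) =
      tr u w g * tr u z (u ⨯₃ g) - tr u w (u ⨯₃ g) * tr u z g := by
    field_simp
  rw [h4, key_id] at h3
  exact (mul_pos_iff_of_pos_right (sq_cross_pos h1)).1 h3

theorem tr_zero {u w z g : Fin 3 → ℝ} (h : 0 < tr u w g * tr u z g)
    (hk : tr u w (u ⨯₃ g) / tr u w g = tr u z (u ⨯₃ g) / tr u z g) : tr u w z = 0 := by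
  have h1 : tr u w g ≠ 0 := fun h0 => by simp [h0] at h
  have h2 : tr u z g ≠ 0 := fun h0 => by simp [h0] at h
  rw [div_eq_div_iff h1 h2] at hk
  have h3 := key_id u w z g
  have h4 : tr u w z * ((u ⨯₃ g) ⬝ᵥ (u ⨯₃ g)) = 0 := by rw [← h3]; linarith
  exact (mul_eq_zero.1 h4).resolve_right (sq_cross_pos h1).ne'

/-- two of three numbers cannot be positive while two are negative -/
theorem three_signs {a b c : ℝ} (p1 : 0 < b ∨ 0 < c) (p2 : 0 < a ∨ 0 < c) (p3 : 0 < a ∨ 0 < b)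
    (q1 : b < 0 ∨ c < 0) (q2 : a < 0 ∨ c < 0) (q3 : a < 0 ∨ b < 0) : False := by
  rcases p1 with p1 | p1 <;> rcases p2 with p2 | p2 <;> rcases p3 with p3 | p3 <;>
    rcases q1 with q1 | q1 <;> rcases q2 with q2 | q2 <;> rcases q3 with q3 | q3 <;> linarith

theorem pos_or {a b p q : ℝ} (hp : 0 < p) (hq : 0 < q) (h : 0 < a * p + b * q) :
    0 < a ∨ 0 < b := by
  by_contra h0
  rw [not_or, not_lt, not_lt] at h0
  nlinarith [mul_nonneg (neg_nonneg.2 h0.1) hp.le, mul_nonneg (neg_nonneg.2 h0.2) hq.le]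

theorem neg_or {a b p q : ℝ} (hp : 0 < p) (hq : 0 < q) (h : a * p + b * q < 0) :
    a < 0 ∨ b < 0 := by
  by_contra h0
  rw [not_or, not_lt, not_lt] at h0
  nlinarith [mul_nonneg h0.1 hp.le, mul_nonneg h0.2 hq.le]

end Pool.Agent.Lib.MP_6f5d92_co
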