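import Mathlib

/-! A clique search on sign patterns. -/

namespace Pool.Agent.Lib.MP_6f5d92_co.Bip

/-- evaluate a number before passing it on -/
def force {α : Type} (n : ℕ) (k : ℕ → α) : α := Nat.rec (k 0) (fun m _ => k (m + 1)) n

theorem force_eq {α : Type} (n : ℕ) (k : ℕ → α) : force n k = k n := by cases n <;> rfl

/-- evaluate a list of pairs of numbers before passing it on -/
def forceP {α : Type} (L : List (ℕ × ℕ)) : (List (ℕ × ℕ) → α) → α :=
  List.rec (fun k => k [])
    (fun x _ ih k => force x.1 fun y => force x.2 fun z => ih fun r => k ((y, z) :: r)) L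

theorem forceP_eq {α : Type} (L : List (ℕ × ℕ)) (k : List (ℕ × ℕ) → α) : forceP L k = k L := by
  induction L generalizing k with
  | nil => rfl
  | cons x r ih =>
    have h : forceP (x :: r) k =
      force x.1 fun y => force x.2 fun z => forceP r fun q => k ((y, z) :: q) := rfl
    rw [h, force_eq, force_eq, ih]

/-- filter a list and pass it on -/
def filt {β : Type} (p : β → Bool) (k : List β → Bool) (L : List β) : List β → Bool :=
  List.rec k (fun x _ ih acc => Bool.rec (ih acc) (ih (x :: acc)) (p x)) L

theorem filt_spec {β : Type} (p : β → Bool) (k : List β → Bool) (L acc : List β)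
    (h : filt p k L acc = true) : ∃ M, k M = true ∧ ∀ x, (x ∈ acc ∨ x ∈ L ∧ p x = true) → x ∈ M := by
  induction L generalizing acc with
  | nil => exact ⟨acc, h, fun x hx => hx.resolve_right (by simp)⟩
  | cons y r ih =>
    have h' : (Bool.rec (filt p k r acc) (filt p k r (y :: acc)) (p y) : Bool) = true := h
    cases e : p y
    · rw [e] at h'
      obtain ⟨M, h1, h2⟩ := ih acc h'
      refine ⟨M, h1, fun x hx => h2 x (hx.imp_right fun q => ⟨?_, q.2⟩)⟩
      exact (List.mem_cons.1 q.1).resolve_left fun e' => by simp [e', e] at q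
    · rw [e] at h'
      obtain ⟨M, h1, h2⟩ := ih _ h'
      refine ⟨M, h1, fun x hx => h2 x ?_⟩
      rcases hx with q | q
      · exact Or.inl (List.mem_cons_of_mem _ q)
      · rcases List.mem_cons.1 q.1 with e' | e'
        · exact Or.inl (e' ▸ List.mem_cons_self)
        · exact Or.inr ⟨e', q.2⟩

/-- no clique with `k + 1` elements -/
def nc {β : Type} (adj : β → β → Bool) (k : ℕ) : List β → Bool :=
  Nat.rec List.isEmpty
    (fun _ f L => List.rec true (fun v r ih => filt (adj v) f (v :: r) [] && ih) L) k

theorem nc_spec {β ι : Type} [DecidableEq ι] (adj : β → β → Bool) (c : ι → β)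
    (hc : ∀ j l, j ≠ l → adj (c j) (c l) = true) (k : ℕ) (L : List β) (h : nc adj k L = true)
    (T : Finset ι) (hT : T.card = k + 1) (hL : ∀ j ∈ T, c j ∈ L) : False := by
  induction k generalizing L T with
  | zero =>
    obtain ⟨j, hj⟩ := Finset.card_pos.1 (show 0 < T.card by omega)
    have := hL j hj
    rw [List.isEmpty_iff.1 h] at this
    simp at this
  | succ k ih =>
    induction L with
    | nil =>
      obtain ⟨j, hj⟩ := Finset.card_pos.1 (show 0 < T.card by omega)
      simpa using hL j hj
    | cons v r ih2 =>
      have h' : (filt (adj v) (nc adj k) (v :: r) [] && nc adj (k + 1) r) = true := h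
      rw [Bool.and_eq_true] at h'
      by_cases e : ∃ j ∈ T, c j = v
      · obtain ⟨j, hj, rfl⟩ := e
        obtain ⟨M, h1, h2⟩ := filt_spec _ _ _ _ h'.1
        exact ih M h1 (T.erase j) (by rw [Finset.card_erase_of_mem hj, hT]; rfl) fun l hl =>
          h2 _ (Or.inr ⟨hL l (Finset.mem_of_mem_erase hl), hc j l (Finset.ne_of_mem_erase hl).symm⟩)
      · exact ih2 h'.2 fun j hj => (List.mem_cons.1 (hL j hj)).resolve_left fun e' => e ⟨j, hj, e'⟩

/-- equality of truth values -/
def xn (a b : Bool) : Bool := Bool.rec (Bool.rec true false b) b a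

theorem xn_eq (a b : Bool) : xn a b = (a == b) := by cases a <;> cases b <;> rfl

/-- a binary digit -/
def tb (h i : ℕ) : Bool := Nat.beq (Nat.land 1 (Nat.shiftRight h i)) 1

theorem tb_eq (h i : ℕ) : tb h i = h.testBit i := by
  have e : Nat.land 1 (Nat.shiftRight h i) = (h >>> i) % 2 := Nat.one_and_eq_mod_two _
  rw [tb, e, Nat.testBit, Nat.one_and_eq_mod_two]
  rcases Nat.mod_two_eq_zero_or_one (h >>> i) with q | q <;> rw [q] <;> rfl

/-- all ones -/
def full : ℕ := Nat.pred (Nat.pow 2 1024)

/-- the truth table of the `e`-th of ten variables having the value `v` -/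
def lm (e : ℕ) (v : Bool) : ℕ := Nat.shiftLeft
  (Nat.div full (Nat.succ (Nat.pow 2 (Nat.pow 2 e)))) (Bool.rec 0 (Nat.pow 2 e) v)

theorem lm_spec : ∀ e < 10, ∀ m < 1024, tb (lm e (tb m e)) m = true := by decide +kernel

theorem full_spec : ∀ m < 1024, tb full m = true := by decide +kernel

/-- description of a clause -/
abbrev Cl : Type := (ℕ × ℕ) × (ℕ × Bool) × (ℕ × Bool) × ℕ × Bool

/-- the truth table of a clause -/
def cl1 (h : ℕ) (dir t : Bool) (q : Cl) : ℕ := Nat.lor
  (lm q.2.2.1.1 (xn (xn (xn (xn (xn (tb h q.2.1.1) q.2.1.2) t) (tb h q.1.1)) dir) q.2.2.1.2))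
  (lm q.2.2.2.1 (xn (!xn (xn (xn (xn (tb h q.2.1.1) q.2.1.2) t) (tb h q.1.2)) dir) q.2.2.2.2))

/-- the clauses at one contact point -/
def cls (h : ℕ) (dir t : Bool) (row : List Cl) : ℕ :=
  List.rec full (fun q _ y => Nat.land (cl1 h dir t q) y) row

theorem cls_spec {h m : ℕ} (hm : m < 1024) {dir t : Bool} {row : List Cl}
    (H : ∀ q ∈ row, (cl1 h dir t q).testBit m = true) : (cls h dir t row).testBit m = true := by
  induction row with
  | nil => exact (tb_eq _ _).symm.trans (full_spec m hm)
  | cons q r ih =>
    have e : cls h dir t (q :: r) = cl1 h dir t q &&& cls h dir t r := rfl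
    rw [e, Nat.testBit_and, H q List.mem_cons_self, ih fun p hp => H p (List.mem_cons_of_mem _ hp)]
    rfl

/-- tables for all side patterns -/
inductive Tr where
  | leaf : ℕ → Tr
  | node : Tr → Tr → Tr

/-- the tree of conjunctions -/
def tree : List (ℕ × ℕ) → ℕ → Tr
  | [], a => .leaf a
  | p :: L, a => .node (tree L (a &&& p.1)) (tree L (a &&& p.2))

/-- the same, evaluated and passed on -/
def mkT (L : List (ℕ × ℕ)) : ℕ → (Tr → Bool) → Bool :=
  List.rec (fun a k => k (.leaf a)) (fun p _ ih a k => force (Nat.land a p.1) fun x =>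
    ih x fun l => force (Nat.land a p.2) fun y => ih y fun r => k (.node l r)) L

theorem mkT_eq (L : List (ℕ × ℕ)) (a : ℕ) (k : Tr → Bool) : mkT L a k = k (tree L a) := by
  induction L generalizing a k with
  | nil => rfl
  | cons p L ih =>
    have e : mkT (p :: L) a k = force (a &&& p.1) fun x => mkT L x fun l =>
      force (a &&& p.2) fun y => mkT L y fun r => k (.node l r) := rfl
    rw [e, force_eq, ih, force_eq, ih, tree]

/-- look up a side pattern -/
noncomputable def look (t : List Bool) : Tr → ℕ :=
  List.rec (fun T => Tr.rec (fun a => a) (fun _ _ _ _ => 0) T)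
    (fun b _ ih T => Tr.rec (fun a => a) (fun l r _ _ => ih (Bool.rec l r b)) T) t

theorem look_spec {m : ℕ} (f : List Cl → Bool → ℕ) (CL : List (List Cl)) (t : List Bool) (a : ℕ)
    (ha : a.testBit m = true)
    (H : List.Forall₂ (fun row b => (f row b).testBit m = true) CL t) :
    (look t (tree (CL.map fun row => (f row false, f row true)) a)).testBit m = true := by
  induction H generalizing a with
  | nil => exact ha
  | @cons row b _ _ h _ ih =>
    cases b
    · exact ih (a &&& f row false) (by rw [Nat.testBit_and, ha, h]; rfl)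
    · exact ih (a &&& f row true) (by rw [Nat.testBit_and, ha, h]; rfl)

/-- a sign pattern with its tables -/
structure Vx where
  o : List Bool
  a : Tr
  b : Tr

/-- compatibility -/
noncomputable def adj (v w : Vx) : Bool :=
  Bool.rec true false (Nat.beq (Nat.land (look w.o v.a) (look v.o w.b)) 0)

theorem adj_of {v w : Vx} {m : ℕ} (h1 : (look w.o v.a).testBit m = true)
    (h2 : (look v.o w.b).testBit m = true) : adj v w = true := by
  have h : (Nat.land (look w.o v.a) (look v.o w.b)).testBit m = true := by
    have := Nat.testBit_and (look w.o v.a) (look v.o w.b) m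
    rw [h1, h2] at this
    exact this
  unfold adj
  cases e : Nat.beq (Nat.land (look w.o v.a) (look v.o w.b)) 0
  · rfl
  · rw [Nat.eq_of_beq_eq_true e] at h
    simp at h

/-- the pairs of tables of a shape -/
def ms (CL : List (List Cl)) (h : ℕ) (dir : Bool) : List (ℕ × ℕ) :=
  CL.map fun row => (cls h dir false row, cls h dir true row)

/-- the pattern with shape `h` and sides `t` -/
def mk (CL : List (List Cl)) (h : ℕ) (t : List Bool) : Vx :=
  ⟨t, tree (ms CL h true) full, tree (ms CL h false) full⟩

/-- build the list of patterns -/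
def build (CL : List (List Cl)) (ts : List (List Bool)) (k : List Vx → Bool) (H : List ℕ) :
    List Vx → Bool :=
  List.rec k (fun h _ ih acc => forceP (ms CL h true) fun L => mkT L full fun a =>
    forceP (ms CL h false) fun L' => mkT L' full fun b =>
      List.rec ih (fun o _ ih2 acc2 => ih2 (⟨o, a, b⟩ :: acc2)) ts acc) H

theorem build_spec (CL : List (List Cl)) (ts : List (List Bool)) (k : List Vx → Bool)
    (H : List ℕ) (acc : List Vx) (h : build CL ts k H acc = true) :
    ∃ M, k M = true ∧ (∀ x ∈ acc, x ∈ M) ∧ ∀ q ∈ H, ∀ t ∈ ts, mk CL q t ∈ M := by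
  induction H generalizing acc with
  | nil => exact ⟨acc, h, fun _ h => h, by simp⟩
  | cons q r ih =>
    have key : ∀ (a b : Tr) (f : List Vx → Bool) (us : List (List Bool)) (acc : List Vx),
        (List.rec f (fun o _ ih2 acc2 => ih2 (⟨o, a, b⟩ :: acc2)) us : List Vx → Bool) acc = true →
        ∃ N, f N = true ∧ (∀ x ∈ acc, x ∈ N) ∧ ∀ o ∈ us, ⟨o, a, b⟩ ∈ N := by
      intro a b f us
      induction us with
      | nil => exact fun acc h => ⟨acc, h, fun _ h => h, by simp⟩
      | cons o us ih3 =>
        intro acc h
        obtain ⟨N, h1, h2, h3⟩ := ih3 _ h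
        refine ⟨N, h1, fun x hx => h2 x (List.mem_cons_of_mem _ hx), fun p hp => ?_⟩
        rcases List.mem_cons.1 hp with rfl | hp
        exacts [h2 _ List.mem_cons_self, h3 p hp]
    have h' : (forceP (ms CL q true) fun L => mkT L full fun a =>
        forceP (ms CL q false) fun L' => mkT L' full fun b => (List.rec (build CL ts k r)
          (fun o _ ih2 acc2 => ih2 (⟨o, a, b⟩ :: acc2)) ts : List Vx → Bool) acc) = true := h
    rw [forceP_eq, mkT_eq, forceP_eq, mkT_eq] at h'
    obtain ⟨N, h1, h2, h3⟩ := key _ _ _ _ _ h'
    obtain ⟨M, g1, g2, g3⟩ := ih N h1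
    refine ⟨M, g1, fun x hx => g2 x (h2 x hx), fun p hp t ht => ?_⟩
    rcases List.mem_cons.1 hp with rfl | hp
    exacts [g2 _ (h3 _ ht), g3 p hp t ht]

/-- the whole search -/
noncomputable def run (CL : List (List Cl)) (ts : List (List Bool)) (k h0 : ℕ) (H : List ℕ) : Bool :=
  build CL ts (fun R => build CL ts
    (fun M => R.all fun v => filt (adj v) (nc adj k) M []) H []) [h0] []

theorem run_spec {CL : List (List Cl)} {ts : List (List Bool)} {k h0 : ℕ} {H : List ℕ}
    (h : run CL ts k h0 H = true) (q : Fin (k + 2) → ℕ) (t : Fin (k + 2) → List Bool)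
    (hq : ∀ j, q j ∈ H) (ht : ∀ j, t j ∈ ts) (h0' : q 0 = h0)
    (hc : ∀ j l, j ≠ l → adj (mk CL (q j) (t j)) (mk CL (q l) (t l)) = true) : False := by
  obtain ⟨R, h1, -, h2⟩ := build_spec _ _ _ _ _ h
  obtain ⟨M, h3, -, h4⟩ := build_spec _ _ _ _ _ h1
  obtain ⟨N, h5, h6⟩ := filt_spec _ _ _ _
    (List.all_eq_true.1 h3 _ (h2 h0 List.mem_cons_self _ (ht 0)))
  exact nc_spec adj (fun j => mk CL (q j) (t j)) hc k N h5 (Finset.univ.erase 0) (by simp)
    fun j hj => h6 _ (Or.inr ⟨h4 _ (hq j) _ (ht j), h0' ▸ hc 0 j (Finset.ne_of_mem_erase hj).symm⟩)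

/-- the clauses for 4 planes -/
def cl4 : List (List Cl) := [
    [((1, 2), (4, true), (1, true), 0, true), ((1, 3), (5, true), (3, true), 0, true),
    ((2, 3), (6, true), (3, true), 1, true)], [((0, 2), (4, false), (2, true), 0, false),
    ((0, 3), (5, false), (4, true), 0, false), ((2, 3), (7, true), (4, true), 2, true)],
    [((0, 1), (4, true), (2, false), 1, false), ((0, 3), (6, false), (5, true), 1, false),
    ((1, 3), (7, false), (5, true), 2, false)], [((0, 1), (5, true), (4, false), 3, false),
    ((0, 2), (6, true), (5, false), 3, false), ((1, 2), (7, true), (5, false), 4, false)]]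

/-- the side patterns for 4 planes -/
def ts4 : List (List Bool) := [
    [true, false, false, false], [true, false, false, true], [true, false, true, false],
    [true, false, true, true], [true, true, false, false], [true, true, false, true],
    [true, true, true, false], [true, true, true, true]]

/-- the shapes for 4 planes -/
def sh4 : List ℕ := [
    0, 3, 6, 9, 12, 15, 17, 20, 23, 24, 27, 30, 34, 36, 39, 40, 43, 45, 48, 51, 53, 58, 60, 63,
    65, 66, 68, 75, 77, 78, 83, 85, 86, 89, 90, 92, 96, 101, 102, 105, 106, 111, 113, 114, 119,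
    120, 125, 126, 129, 130, 135, 136, 141, 142, 144, 149, 150, 153, 154, 159, 163, 165, 166,
    169, 170, 172, 177, 178, 180, 187, 189, 190, 192, 195, 197, 202, 204, 207, 210, 212, 215,
    216, 219, 221, 225, 228, 231, 232, 235, 238, 240, 243, 246, 249, 252, 255]

/-- the clauses for 5 planes -/
def cl5 : List (List Cl) := [
    [((1, 2), (5, true), (1, true), 0, true), ((1, 3), (6, true), (3, true), 0, true),
    ((1, 4), (9, true), (6, true), 0, true), ((2, 3), (7, true), (3, true), 1, true),
    ((2, 4), (10, true), (6, true), 1, true), ((3, 4), (12, true), (6, true), 3, true)],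
    [((0, 2), (5, false), (2, true), 0, false), ((0, 3), (6, false), (4, true), 0, false),
    ((0, 4), (9, false), (7, true), 0, false), ((2, 3), (8, true), (4, true), 2, true),
    ((2, 4), (11, true), (7, true), 2, true), ((3, 4), (13, true), (7, true), 4, true)],
    [((0, 1), (5, true), (2, false), 1, false), ((0, 3), (7, false), (5, true), 1, false),
    ((0, 4), (10, false), (8, true), 1, false), ((1, 3), (8, false), (5, true), 2, false),
    ((1, 4), (11, false), (8, true), 2, false), ((3, 4), (14, true), (8, true), 5, true)],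
    [((0, 1), (6, true), (4, false), 3, false), ((0, 2), (7, true), (5, false), 3, false),
    ((0, 4), (12, false), (9, true), 3, false), ((1, 2), (8, true), (5, false), 4, false),
    ((1, 4), (13, false), (9, true), 4, false), ((2, 4), (14, false), (9, true), 5, false)],
    [((0, 1), (9, true), (7, false), 6, false), ((0, 2), (10, true), (8, false), 6, false),
    ((0, 3), (12, true), (9, false), 6, false), ((1, 2), (11, true), (8, false), 7, false),
    ((1, 3), (13, true), (9, false), 7, false), ((2, 3), (14, true), (9, false), 8, false)]]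

/-- the side patterns for 5 planes -/
def ts5 : List (List Bool) := [
    [false, false, true, false, false], [false, false, true, false, true],
    [false, false, true, true, false], [false, false, true, true, true],
    [false, true, true, false, false], [false, true, true, false, true],
    [false, true, true, true, false], [false, true, true, true, true],
    [true, false, true, false, false], [true, false, true, false, true],
    [true, false, true, true, false], [true, false, true, true, true],
    [true, true, true, false, false], [true, true, true, false, true],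
    [true, true, true, true, false], [true, true, true, true, true]]

/-- the shapes for 5 planes -/
def sh5 : List ℕ := [
    4268, 4275, 4327, 4344, 4419, 4444, 4558, 4561, 4585, 4598, 5286, 5305, 5357, 5362, 5449,
    5462, 5486, 5489, 5603, 5628, 6309, 6330, 6345, 6358, 6382, 6385, 6474, 6485, 6599, 6616,
    6798, 6801, 6825, 6838, 6853, 6874, 6982, 7001, 7115, 7124, 8867, 8892, 8967, 8984, 9036,
    9043, 9098, 9109, 9133, 9138, 9381, 9402, 9510, 9529, 9546, 9557, 9581, 9586, 9643, 9652,
    9897, 9910, 9997, 10002, 10026, 10037, 10054, 10073, 10151, 10168, 10893, 10898, 10922,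
    10933, 11022, 11025, 11077, 11098, 11139, 11164, 12457, 12470, 12614, 12633, 12711, 12728,
    12747, 12756, 12780, 12787, 12965, 12986, 13130, 13141, 13196, 13203, 13227, 13236, 13255,
    13272, 13475, 13500, 13644, 13651, 13675, 13684, 13741, 13746, 13798, 13817, 14987, 14996,
    15020, 15027, 15171, 15196, 15237, 15258, 15310, 15313, 17454, 17457, 17509, 17530, 17571,
    17596, 17740, 17747, 17771, 17780, 18950, 18969, 19021, 19026, 19083, 19092, 19116, 19123,
    19267, 19292, 19495, 19512, 19531, 19540, 19564, 19571, 19626, 19637, 19781, 19802, 19980,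
    19987, 20011, 20020, 20039, 20056, 20134, 20153, 20297, 20310, 21603, 21628, 21669, 21690,
    21742, 21745, 21834, 21845, 21869, 21874, 22599, 22616, 22694, 22713, 22730, 22741, 22765,
    22770, 22857, 22870, 23115, 23124, 23181, 23186, 23210, 23221, 23238, 23257, 23365, 23386,
    23629, 23634, 23658, 23669, 23724, 23731, 23783, 23800, 23875, 23900, 25643, 25652, 25766,
    25785, 25893, 25914, 25929, 25942, 25966, 25969, 26151, 26168, 26282, 26293, 26382, 26385,
    26409, 26422, 26437, 26458, 27139, 27164, 27278, 27281, 27305, 27318, 27405, 27410, 27462,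
    27481, 28169, 28182, 28206, 28209, 28323, 28348, 28423, 28440, 28492, 28499]

end Pool.Agent.Lib.MP_6f5d92_co.Bip
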