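import Pool.Agent.Lib.MP_6f5d92_co.Side

/-! Three planes and further planes touching all three: the sign argument. -/

namespace Pool.Agent.Lib.MP_6f5d92_co.Three

open Matrix

/-- the sign attached to a truth value -/
def sn (b : Bool) : ℝ := if b then 1 else -1

/-- one coordinate of the colour -/
def col (s t t0 t1 t2 : Bool) : Bool := (s == t) == ((t0 == t1) && (t1 == t2))

theorem table_aux : ∀ s0 s1 s2 t0 t1 t2 p0 p1 p2 q0 q1 q2 u0 u1 u2 : Bool,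
    ((col s0 t0 t0 t1 t2 == col p0 q0 q0 q1 q2) && (col s1 t1 t0 t1 t2 == col p1 q1 q0 q1 q2) &&
    (col s2 t2 t0 t1 t2 == col p2 q2 q0 q1 q2) &&
    (u1 == (t0 == p1) || u2 == (t0 == p2)) && (u0 == (t1 == p0) || u2 == (t1 == p2)) &&
    (u0 == (t2 == p0) || u1 == (t2 == p1)) && (u1 == !(q0 == s1) || u2 == !(q0 == s2)) &&
    (u0 == !(q1 == s0) || u2 == !(q1 == s2)) && (u0 == !(q2 == s0) || u1 == !(q2 == s1))) =
      false := by
  decide +kernel

theorem table {s0 s1 s2 t0 t1 t2 p0 p1 p2 q0 q1 q2 u0 u1 u2 : Bool}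
    (c0 : col s0 t0 t0 t1 t2 = col p0 q0 q0 q1 q2) (c1 : col s1 t1 t0 t1 t2 = col p1 q1 q0 q1 q2)
    (c2 : col s2 t2 t0 t1 t2 = col p2 q2 q0 q1 q2) (a0 : u1 = (t0 == p1) ∨ u2 = (t0 == p2))
    (a1 : u0 = (t1 == p0) ∨ u2 = (t1 == p2)) (a2 : u0 = (t2 == p0) ∨ u1 = (t2 == p1))
    (b0 : u1 = !(q0 == s1) ∨ u2 = !(q0 == s2)) (b1 : u0 = !(q1 == s0) ∨ u2 = !(q1 == s2))
    (b2 : u0 = !(q2 == s0) ∨ u1 = !(q2 == s1)) : False := by
  have h := table_aux s0 s1 s2 t0 t1 t2 p0 p1 p2 q0 q1 q2 u0 u1 u2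
  rw [Bool.eq_false_iff] at h
  refine h ?_
  simp only [Bool.and_eq_true, Bool.or_eq_true, beq_iff_eq]
  exact ⟨⟨⟨⟨⟨⟨⟨⟨c0, c1⟩, c2⟩, a0⟩, a1⟩, a2⟩, b0⟩, b1⟩, b2⟩

theorem two_terms {t s p : Bool} {H F G d e : ℝ} (h1 : 0 < sn t * H) (h2 : 0 < sn s * F)
    (h3 : 0 < sn p * G) (h : H = d * F + e * G) :
    0 < sn (t == s) * d ∨ 0 < sn (t == p) * e := by
  by_contra h0
  rw [not_or, not_lt, not_lt] at h0
  obtain ⟨a1, a2⟩ := h0
  subst h
  cases t <;> cases s <;> cases p <;> simp [sn] at h1 h2 h3 a1 a2 <;> nlinarith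

theorem of_pos {b : Bool} {d : ℝ} (h : 0 < sn b * d) : decide (0 < d) = b := by
  cases b <;> simp [sn] at h ⊢ <;> linarith

theorem of_neg {b : Bool} {d : ℝ} (h : 0 < sn b * -d) : decide (0 < d) = !b := by
  cases b <;> simp [sn] at h ⊢ <;> linarith

theorem three_zero {a b c u v w x y z : ℝ} {s p q : Bool} (h1 : 0 < sn p * u) (h2 : 0 < sn q * v)
    (h3 : 0 < sn s * w) (h4 : 0 < sn q * x) (h5 : 0 < sn s * y) (h6 : 0 < sn p * z)
    (e1 : b * u + c * v = 0) (e2 : a * w + c * x = 0) (e3 : a * y + b * z = 0) :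
    a = 0 ∧ b = 0 ∧ c = 0 := by
  have k : ∀ {b c u v : ℝ} {p q : Bool}, 0 < sn p * u → 0 < sn q * v → b * u + c * v = 0 →
      (0 < sn p * b → sn q * c < 0) ∧ (sn p * b < 0 → 0 < sn q * c) ∧ (b = 0 → c = 0) := by
    intro b c u v p q h1 h2 e
    refine ⟨fun h => ?_, fun h => ?_, fun h => ?_⟩
    · cases p <;> cases q <;> simp [sn] at h1 h2 h ⊢ <;> nlinarith
    · cases p <;> cases q <;> simp [sn] at h1 h2 h ⊢ <;> nlinarith
    · rw [h, zero_mul, zero_add] at e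
      exact (mul_eq_zero.1 e).resolve_right fun h0 => by simp [h0] at h2
  have k1 := k h1 h2 e1
  have k2 := k h3 h4 e2
  have k3 := k h5 h6 e3
  have ha : a = 0 := by
    rcases lt_trichotomy (sn s * a) 0 with h | h | h
    · exact absurd (k1.1 (k3.2.1 h)) (not_lt.2 (k2.2.1 h).le)
    · cases s <;> simpa [sn] using h
    · exact absurd (k1.2.1 (k3.1 h)) (not_lt.2 (k2.1 h).le)
  exact ⟨ha, k3.2.2 ha, k2.2.2 ha⟩

/-- an affine function given by a normal and a constant -/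
def ev (w : (Fin 3 → ℝ) × ℝ) (y : Fin 3 → ℝ) : ℝ := w.1 ⬝ᵥ y - w.2

theorem ev_add (v w : (Fin 3 → ℝ) × ℝ) (y : Fin 3 → ℝ) : ev (v + w) y = ev v y + ev w y := by
  simp only [ev, Prod.fst_add, Prod.snd_add, add_dotProduct]
  ring

theorem ev_smul (t : ℝ) (w : (Fin 3 → ℝ) × ℝ) (y : Fin 3 → ℝ) : ev (t • w) y = t * ev w y := by
  simp only [ev, Prod.smul_fst, Prod.smul_snd, smul_dotProduct, smul_eq_mul]
  ring

theorem ev_zero (y : Fin 3 → ℝ) : ev 0 y = 0 := by simp [ev]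

theorem core {ι : Type} (F : Fin 3 → (Fin 3 → ℝ) × ℝ) (G : ι → (Fin 3 → ℝ) × ℝ)
    (x : Fin 3 → ι → Fin 3 → ℝ) (σ τ : Fin 3 → ι → Bool) (hG : ∀ j, G j ≠ 0)
    (z1 : ∀ r j, ev (F r) (x r j) = 0) (z2 : ∀ r j, ev (G j) (x r j) = 0)
    (hs : ∀ r q j, q ≠ r → 0 < sn (σ q j) * ev (F q) (x r j))
    (ht : ∀ r j l, l ≠ j → 0 < sn (τ r l) * ev (G l) (x r j)) :
    ∃ κ : ι → Bool × Bool × Bool, Function.Injective κ := by
  rcases isEmpty_or_nonempty ι with hι | ⟨⟨j0⟩⟩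
  · exact ⟨isEmptyElim, isEmptyElim⟩
  have ind : ∀ j (a b c g : ℝ), a • F 0 + b • F 1 + c • F 2 + g • G j = 0 →
      a = 0 ∧ b = 0 ∧ c = 0 := by
    intro j a b c g e
    have k := fun r => congrArg (fun w => ev w (x r j)) e
    simp only [ev_add, ev_smul, ev_zero, z2, mul_zero, add_zero] at k
    have k0 := k 0
    have k1 := k 1
    have k2 := k 2
    rw [z1, mul_zero] at k0 k1 k2
    exact three_zero (hs 0 1 j (by decide)) (hs 0 2 j (by decide)) (hs 1 0 j (by decide))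
      (hs 1 2 j (by decide)) (hs 2 0 j (by decide)) (hs 2 1 j (by decide)) (by linarith)
      (by linarith) (by linarith)
  have li : LinearIndependent ℝ ![F 0, F 1, F 2, G j0] := by
    rw [Fintype.linearIndependent_iff]
    intro g e
    rw [Fin.sum_univ_four] at e
    obtain ⟨h0, h1, h2⟩ := ind j0 _ _ _ _ e
    have h3 : g 3 = 0 := by
      have e' : g 3 • G j0 = 0 := by simpa [h0, h1, h2] using e
      exact (smul_eq_zero.1 e').resolve_right (hG j0)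
    intro i
    fin_cases i <;> assumption
  have sp := li.span_eq_top_of_card_eq_finrank' (by simp)
  have ex : ∀ j, ∃ g : Fin 4 → ℝ, g 0 • F 0 + g 1 • F 1 + g 2 • F 2 + g 3 • G j0 = G j := by
    intro j
    obtain ⟨g, hg⟩ := (Submodule.mem_span_range_iff_exists_fun ℝ).1
      (sp ▸ Submodule.mem_top : G j ∈ Submodule.span ℝ (Set.range ![F 0, F 1, F 2, G j0]))
    rw [Fin.sum_univ_four] at hg
    exact ⟨g, hg⟩
  choose g hg using ex
  have hD : ∀ j, g j 3 ≠ 0 := fun j h0 => by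
    have e := hg j
    rw [h0, zero_smul, add_zero] at e
    obtain ⟨h0, h1, h2⟩ := ind j (g j 0) (g j 1) (g j 2) (-1) (by rw [e]; simp)
    exact hG j (by rw [← e, h0, h1, h2]; simp)
  let t : Fin 3 → ι → Bool := fun r j => τ r j == decide (0 < g j 3)
  have ht' : ∀ r j l, l ≠ j → 0 < sn (t r l) * (ev (G l) (x r j) / g l 3) := by
    intro r j l h
    have h1 := ht r j l h
    rcases lt_or_gt_of_ne (hD l) with h2 | h2
    · have h3 : decide (0 < g l 3) = false := by simpa using h2.le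
      simp only [t, h3]
      revert h1
      cases τ r l <;> simp [sn] <;> intro h1
      · exact div_pos_of_neg_of_neg h1 h2
      · exact div_neg_of_pos_of_neg h1 h2
    · have h3 : decide (0 < g l 3) = true := by simpa using h2
      simp only [t, h3]
      revert h1
      cases τ r l <;> simp [sn] <;> intro h1
      · exact div_neg_of_neg_of_pos h1 h2
      · exact div_pos h1 h2
  have rel : ∀ j l r, ev (G j) (x r l) / g j 3 =
      (g j 0 / g j 3 - g l 0 / g l 3) * ev (F 0) (x r l) +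
      (g j 1 / g j 3 - g l 1 / g l 3) * ev (F 1) (x r l) +
      (g j 2 / g j 3 - g l 2 / g l 3) * ev (F 2) (x r l) := by
    intro j l r
    have e1 := congrArg (fun w => ev w (x r l)) (hg j)
    have e2 := congrArg (fun w => ev w (x r l)) (hg l)
    simp only [ev_add, ev_smul, z2] at e1 e2
    have e3 : ev (G j0) (x r l) = -(g l 0 * ev (F 0) (x r l) + g l 1 * ev (F 1) (x r l) +
        g l 2 * ev (F 2) (x r l)) / g l 3 := by
      rw [eq_div_iff (hD l)]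
      linarith
    rw [← e1, e3]
    have := hD j
    have := hD l
    field_simp
    ring
  have pr : ∀ j l, j ≠ l →
      (0 < sn (t 0 j == σ 1 l) * (g j 1 / g j 3 - g l 1 / g l 3) ∨
        0 < sn (t 0 j == σ 2 l) * (g j 2 / g j 3 - g l 2 / g l 3)) ∧
      (0 < sn (t 1 j == σ 0 l) * (g j 0 / g j 3 - g l 0 / g l 3) ∨
        0 < sn (t 1 j == σ 2 l) * (g j 2 / g j 3 - g l 2 / g l 3)) ∧
      (0 < sn (t 2 j == σ 0 l) * (g j 0 / g j 3 - g l 0 / g l 3) ∨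
        0 < sn (t 2 j == σ 1 l) * (g j 1 / g j 3 - g l 1 / g l 3)) := fun j l h =>
    ⟨two_terms (ht' 0 l j h) (hs 0 1 l (by decide)) (hs 0 2 l (by decide))
        (by rw [rel, z1]; ring),
      two_terms (ht' 1 l j h) (hs 1 0 l (by decide)) (hs 1 2 l (by decide))
        (by rw [rel, z1]; ring),
      two_terms (ht' 2 l j h) (hs 2 0 l (by decide)) (hs 2 1 l (by decide))
        (by rw [rel, z1]; ring)⟩
  refine ⟨fun j => (col (σ 0 j) (t 0 j) (t 0 j) (t 1 j) (t 2 j),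
    col (σ 1 j) (t 1 j) (t 0 j) (t 1 j) (t 2 j), col (σ 2 j) (t 2 j) (t 0 j) (t 1 j) (t 2 j)),
    fun j l e => ?_⟩
  by_contra h
  obtain ⟨a0, a1, a2⟩ := pr j l h
  obtain ⟨b0, b1, b2⟩ := pr l j (Ne.symm h)
  rw [← neg_sub, ← neg_sub (g j 2 / g j 3)] at b0 b1
  rw [← neg_sub, ← neg_sub (g j 1 / g j 3)] at b2
  simp only [Prod.mk.injEq] at e
  exact table e.1 e.2.1 e.2.2 (a0.imp of_pos of_pos)
    (a1.imp of_pos of_pos) (a2.imp of_pos of_pos) (b0.imp of_neg of_neg) (b1.imp of_neg of_neg)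
    (b2.imp of_neg of_neg)

/-- a plane through another side misses the inner points of a side -/
theorem same_side {Q : Set (Fin 3 → ℝ)} {n m a b u v x : Fin 3 → ℝ} {c d : ℝ} (h : n ⨯₃ m ≠ 0)
    (hQ : ∀ y ∈ Q, n ⬝ᵥ y = c) (ab : a ≠ b) (he : IsExtreme ℝ Q (segment ℝ a b)) (uv : u ≠ v)
    (hf : IsExtreme ℝ Q (segment ℝ u v)) (hm : ∀ y ∈ segment ℝ u v, m ⬝ᵥ y = d)
    (hx : x ∈ openSegment ℝ a b) (h0 : m ⬝ᵥ x = d) : segment ℝ a b = segment ℝ u v := by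
  have ha := he.subset (left_mem_segment ℝ a b)
  have hb := he.subset (right_mem_segment ℝ a b)
  have x1 := mem_side h hQ uv hf (hm u (left_mem_segment ℝ u v)) (hm v (right_mem_segment ℝ u v))
    (he.subset (openSegment_subset_segment ℝ a b hx)) h0
  have a1 := hf.left_mem_of_mem_openSegment ha hb x1 hx
  have b1 := hf.right_mem_of_mem_openSegment ha hb x1 hx
  exact Set.Subset.antisymm ((convex_segment u v).segment_subset a1 b1) fun y hy =>
    mem_side h hQ ab he (hm a a1) (hm b b1) (hf.subset hy) (hm y hy)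

theorem exists_sn {Q : Set (Fin 3 → ℝ)} (hc : Convex ℝ Q) {n m u v : Fin 3 → ℝ} {c d : ℝ}
    (h : n ⨯₃ m ≠ 0) (hQ : ∀ y ∈ Q, n ⬝ᵥ y = c) (uv : u ≠ v)
    (hf : IsExtreme ℝ Q (segment ℝ u v)) (hm : ∀ y ∈ segment ℝ u v, m ⬝ᵥ y = d) :
    ∃ s : Bool, ∀ a b, a ≠ b → IsExtreme ℝ Q (segment ℝ a b) → segment ℝ a b ≠ segment ℝ u v →
      0 < sn s * ev (m, d) (midpoint ℝ a b) := by
  have k : ∀ a b, a ≠ b → IsExtreme ℝ Q (segment ℝ a b) → segment ℝ a b ≠ segment ℝ u v →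
      midpoint ℝ a b ∈ Q ∧ m ⬝ᵥ midpoint ℝ a b ≠ d := fun a b ab he ne =>
    ⟨he.subset (midpoint_mem_segment a b), fun h0 =>
      ne (same_side h hQ ab he uv hf hm (midpoint_mem_openSegment a b) h0)⟩
  rcases one_side hc h hQ uv hf (hm u (left_mem_segment ℝ u v))
    (hm v (right_mem_segment ℝ u v)) with q | q
  · refine ⟨false, fun a b ab he ne => ?_⟩
    have := lt_of_le_of_ne (q _ (k a b ab he ne).1) (k a b ab he ne).2
    simpa [sn, ev] using this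
  · refine ⟨true, fun a b ab he ne => ?_⟩
    have := lt_of_le_of_ne (q _ (k a b ab he ne).1) (k a b ab he ne).2.symm
    simpa [sn, ev] using this

theorem cross_of_not_coplanar {P Q : Set (Fin 3 → ℝ)} {n m a : Fin 3 → ℝ} {c d : ℝ} (hn : n ≠ 0)
    (hm : m ≠ 0) (hP : ∀ y ∈ P, n ⬝ᵥ y = c) (hQ : ∀ y ∈ Q, m ⬝ᵥ y = d) (aP : a ∈ P) (aQ : a ∈ Q)
    (h : ¬ Coplanar ℝ (P ∪ Q)) : n ⨯₃ m ≠ 0 ∧ m ⨯₃ n ≠ 0 := by
  have key : ∀ {P Q : Set (Fin 3 → ℝ)} {n m : Fin 3 → ℝ} {c d : ℝ}, n ≠ 0 → m ≠ 0 →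
      (∀ y ∈ P, n ⬝ᵥ y = c) → (∀ y ∈ Q, m ⬝ᵥ y = d) → a ∈ P → a ∈ Q → ¬ Coplanar ℝ (P ∪ Q) →
      n ⨯₃ m ≠ 0 := by
    intro P Q n m c d hn hm hP hQ aP aQ h
    obtain ⟨y, hy, h0⟩ : ∃ y ∈ P, m ⬝ᵥ y ≠ d := by
      by_contra h0
      refine h (coplanar_of_plane (c := d) hm fun x hx => ?_)
      rcases hx with hx | hx
      · by_contra h1
        exact h0 ⟨x, hx, h1⟩
      · exact hQ x hx
    exact cross_ne_zero (a := a) (y := y) hn hm ((hP y hy).trans (hP a aP).symm)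
      (by rwa [hQ a aQ])
  exact ⟨key hn hm hP hQ aP aQ h, key hm hn hQ hP aQ aP (by rwa [Set.union_comm])⟩

theorem three {ι : Type} (A : Fin 3 → Set (Fin 3 → ℝ)) (X : ι → Set (Fin 3 → ℝ))
    (a b : Fin 3 → ι → Fin 3 → ℝ) (cA : ∀ r, Convex ℝ (A r)) (pA : ∀ r, Coplanar ℝ (A r))
    (cX : ∀ j, Convex ℝ (X j)) (pX : ∀ j, Coplanar ℝ (X j)) (ab : ∀ r j, a r j ≠ b r j)
    (eA : ∀ r j, IsExtreme ℝ (A r) (segment ℝ (a r j) (b r j)))
    (eX : ∀ r j, IsExtreme ℝ (X j) (segment ℝ (a r j) (b r j)))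
    (d1 : ∀ r q j, q ≠ r → segment ℝ (a r j) (b r j) ≠ segment ℝ (a q j) (b q j))
    (d2 : ∀ r j l, l ≠ j → segment ℝ (a r j) (b r j) ≠ segment ℝ (a r l) (b r l))
    (nc : ∀ r j, ¬ Coplanar ℝ (A r ∪ X j)) :
    ∃ κ : ι → Bool × Bool × Bool, Function.Injective κ := by
  choose n c hn hc using fun r => exists_plane (pA r)
  choose m d hm hd using fun j => exists_plane (pX j)
  have cr := fun r j => cross_of_not_coplanar (hn r) (hm j) (hc r) (hd j)
    ((eA r j).subset (left_mem_segment ℝ _ _)) ((eX r j).subset (left_mem_segment ℝ _ _)) (nc r j)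
  choose σ hσ using fun r j => exists_sn (cX j) (cr r j).2 (hd j) (ab r j) (eX r j)
    fun y hy => hc r y ((eA r j).subset hy)
  choose τ hτ using fun r j => exists_sn (cA r) (cr r j).1 (hc r) (ab r j) (eA r j)
    fun y hy => hd j y ((eX r j).subset hy)
  exact core (fun r => (n r, c r)) (fun j => (m j, d j)) (fun r j => midpoint ℝ (a r j) (b r j))
    σ τ (fun j h => hm j (congrArg Prod.fst h))
    (fun r j => sub_eq_zero.2 (hc r _ ((eA r j).subset (midpoint_mem_segment _ _))))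
    (fun r j => sub_eq_zero.2 (hd j _ ((eX r j).subset (midpoint_mem_segment _ _))))
    (fun r q j h => hσ q j _ _ (ab r j) (eX r j) (d1 r q j h))
    fun r j l h => hτ r l _ _ (ab r j) (eA r j) (d2 r j l h)

end Pool.Agent.Lib.MP_6f5d92_co.Three
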