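import Pool.Agent.Lib.MP_6f5d92_co.BipC
import Pool.Agent.Lib.MP_6f5d92_co.Three

/-! Planes touching a family of planes: determinants and their signs. -/

namespace Pool.Agent.Lib.MP_6f5d92_co.Bip

open Matrix Three

/-- homogeneous coordinates -/
abbrev V : Type := Fin 4 → ℝ

/-- the determinant of four vectors -/
def d4 (u v w z : V) : ℝ := Matrix.det (Matrix.of ![u, v, w, z])

theorem d4_eq (u v w z : V) : d4 u v w z =
    u 0 * (v 1 * (w 2 * z 3 - w 3 * z 2) - v 2 * (w 1 * z 3 - w 3 * z 1) +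
      v 3 * (w 1 * z 2 - w 2 * z 1)) -
    u 1 * (v 0 * (w 2 * z 3 - w 3 * z 2) - v 2 * (w 0 * z 3 - w 3 * z 0) +
      v 3 * (w 0 * z 2 - w 2 * z 0)) +
    u 2 * (v 0 * (w 1 * z 3 - w 3 * z 1) - v 1 * (w 0 * z 3 - w 3 * z 0) +
      v 3 * (w 0 * z 1 - w 1 * z 0)) -
    u 3 * (v 0 * (w 1 * z 2 - w 2 * z 1) - v 1 * (w 0 * z 2 - w 2 * z 0) +
      v 2 * (w 0 * z 1 - w 1 * z 0)) := by
  simp [d4, Matrix.det_succ_row_zero, Fin.sum_univ_succ, Fin.succAbove]
  ring

theorem cramer (a b c g l y : V) : d4 a b c g * (l ⬝ᵥ y) = d4 a c g l * (b ⬝ᵥ y) -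
    d4 a b g l * (c ⬝ᵥ y) - d4 b c g l * (a ⬝ᵥ y) + d4 a b c l * (g ⬝ᵥ y) := by
  simp only [d4_eq, dotProduct, Fin.sum_univ_four]
  ring

theorem cramer' (a b c d g y : V) : d4 a c d g * (b ⬝ᵥ y) - d4 a b d g * (c ⬝ᵥ y) +
    d4 a b c g * (d ⬝ᵥ y) = d4 b c d g * (a ⬝ᵥ y) + d4 a b c d * (g ⬝ᵥ y) := by
  simp only [d4_eq, dotProduct, Fin.sum_univ_four]
  ring

theorem d4_12 (a b c d : V) : d4 a b c d = -d4 b a c d := by simp only [d4_eq]; ring
theorem d4_23 (a b c d : V) : d4 a b c d = -d4 a c b d := by simp only [d4_eq]; ring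
theorem d4_34 (a b c d : V) : d4 a b c d = -d4 a b d c := by simp only [d4_eq]; ring

theorem d4_smul (p q r t : ℝ) (a b c d : V) :
    d4 (p • a) (q • b) (r • c) (t • d) = p * q * r * t * d4 a b c d := by
  simp only [d4_eq, Pi.smul_apply, smul_eq_mul]; ring

theorem sn_mul (a b : Bool) : sn (a == b) = sn a * sn b := by cases a <;> cases b <;> simp [sn]
theorem sn_not (a : Bool) : sn (!a) = -sn a := by cases a <;> simp [sn]
theorem sn_sq (a : Bool) : sn a * sn a = 1 := by cases a <;> simp [sn]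

theorem sn_dec {x : ℝ} (h : x ≠ 0) : 0 < sn (decide (0 < x)) * x := by
  rcases lt_or_gt_of_ne h with q | q
  · simp [sn, q.not_gt, q]
  · simp [sn, q]

variable {s : ℕ} {ι : Type}

/-- planes `F r`, `G j` with contact points and sides -/
structure Cf (F : Fin s → V) (G : ι → V) (x : Fin s → ι → V) (σ τ : Fin s → ι → Bool) : Prop where
  z1 : ∀ r j, F r ⬝ᵥ x r j = 0
  z2 : ∀ r j, G j ⬝ᵥ x r j = 0
  hs : ∀ r q j, q ≠ r → 0 < sn (σ q j) * (F q ⬝ᵥ x r j)
  ht : ∀ r j l, l ≠ j → 0 < sn (τ r l) * (G l ⬝ᵥ x r j)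
  hG : ∀ j, G j ≠ 0

variable {F : Fin s → V} {G : ι → V} {x : Fin s → ι → V} {σ τ : Fin s → ι → Bool}

theorem Cf.re (h : Cf F G x σ τ) {π : Fin s → Fin s} (hπ : Function.Injective π)
    (e : Fin s → Bool) (g : ι → Bool) : Cf (fun r => sn (e r) • F (π r)) (fun j => sn (g j) • G j)
      (fun r => x (π r)) (fun r j => σ (π r) j == e r) fun r j => τ (π r) j == g j where
  z1 r j := by rw [smul_dotProduct, h.z1, smul_zero]
  z2 r j := by rw [smul_dotProduct, h.z2, smul_zero]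
  hs r q j hq := by
    rw [smul_dotProduct, smul_eq_mul, sn_mul, mul_assoc, ← mul_assoc (sn (e q)), sn_sq, one_mul]
    exact h.hs _ _ j (hπ.ne hq)
  ht r j l hq := by
    rw [smul_dotProduct, smul_eq_mul, sn_mul, mul_assoc, ← mul_assoc (sn (g l)), sn_sq, one_mul]
    exact h.ht _ j l hq
  hG j := smul_ne_zero (fun e => by simpa [e] using sn_sq (g j)) (h.hG j)

theorem Cf.ind (h : Cf F G x σ τ) {a b c : Fin s} (ab : a ≠ b) (ac : a ≠ c) (bc : b ≠ c) (j : ι)
    {p q r g : ℝ} (e : p • F a + q • F b + r • F c + g • G j = 0) : p = 0 ∧ q = 0 ∧ r = 0 := by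
  have k := fun i => congrArg (fun w => w ⬝ᵥ x i j) e
  simp only [add_dotProduct, smul_dotProduct, zero_dotProduct, h.z2, smul_eq_mul, mul_zero,
    add_zero] at k
  have k0 := k a
  have k1 := k b
  have k2 := k c
  rw [h.z1, mul_zero] at k0 k1 k2
  exact three_zero (h.hs a b j ab.symm) (h.hs a c j ac.symm) (h.hs b a j ab) (h.hs b c j bc.symm)
    (h.hs c a j ac) (h.hs c b j bc) (by linarith) (by linarith) (by linarith)

theorem Cf.ne (h : Cf F G x σ τ) {a b c : Fin s} (ab : a ≠ b) (ac : a ≠ c) (bc : b ≠ c) (j : ι) :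
    d4 (F a) (F b) (F c) (G j) ≠ 0 := fun h0 => by
  obtain ⟨v, hv, e⟩ := Matrix.exists_vecMul_eq_zero_iff.2 h0
  have e' : v 0 • F a + v 1 • F b + v 2 • F c + v 3 • G j = 0 := by
    funext i
    simpa [Matrix.vecMul, dotProduct, Fin.sum_univ_four] using congrFun e i
  obtain ⟨h0, h1, h2⟩ := h.ind ab ac bc j e'
  have h3 : v 3 = 0 := by
    have e2 : v 3 • G j = 0 := by simpa [h0, h1, h2] using e'
    exact (smul_eq_zero.1 e2).resolve_right (h.hG j)
  exact hv (funext fun i => by fin_cases i <;> assumption)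

/-- position of a pair -/
def i2 (a b : Fin s) : ℕ := a + (b : ℕ).choose 2

/-- position of an increasing triple -/
def i3 (a b c : Fin s) : ℕ := s + (a + (b : ℕ).choose 2 + (c : ℕ).choose 3)

/-- position and parity of a pair -/
def ie (a b : Fin s) : ℕ × Bool := if a < b then (i2 a b, true) else (i2 b a, false)

/-- position and parity of a triple -/
def ix (a b c : Fin s) : ℕ × Bool :=
  if a < b then (if b < c then (i3 a b c, true) else if a < c then (i3 a c b, false)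
    else (i3 c a b, true))
  else if a < c then (i3 b a c, false) else if b < c then (i3 b c a, true) else (i3 c b a, false)

/-- the triple signs of a shape -/
def dg (h : ℕ) (a b c : Fin s) : Bool := xn (tb h (ix a b c).1) (ix a b c).2

/-- `q` records the signs of one plane -/
structure Cd (F : Fin s → V) (g : V) (σ : Fin s → Bool) (q : ℕ) : Prop where
  sg : ∀ r : Fin s, tb q r = σ r
  dt : ∀ a b c, a < b → b < c → 0 < sn (tb q (i3 a b c)) * d4 (F a) (F b) (F c) g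

theorem Cd.dg {g : V} {σ : Fin s → Bool} {q : ℕ} (h : Cd F g σ q) {a b c : Fin s} (ab : a ≠ b)
    (ac : a ≠ c) (bc : b ≠ c) : 0 < sn (dg q a b c) * d4 (F a) (F b) (F c) g := by
  have t : sn true = 1 := rfl
  have f : sn false = -1 := rfl
  unfold Bip.dg ix
  split_ifs with h1 h2 h3 h4 h5 <;> rw [xn_eq, sn_mul] <;> simp only [t, f]
  · linarith [h.dt a b c h1 h2]
  · rw [d4_23]; linarith [h.dt a c b h3 (by omega)]
  · rw [d4_23, d4_12]; linarith [h.dt c a b (by omega) h1]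
  · rw [d4_12]; linarith [h.dt b a c (by omega) h4]
  · rw [d4_12, d4_23]; linarith [h.dt b c a h5 (by omega)]
  · rw [d4_12, d4_23, d4_12]; linarith [h.dt c b a (by omega) (by omega)]

theorem exists_bits (n : ℕ) (f : ℕ → Bool) : ∃ q < 2 ^ n, ∀ i < n, tb q i = f i :=
  ⟨Nat.ofBits fun i : Fin n => f i, Nat.ofBits_lt_two_pow _, fun i hi => by
    rw [tb_eq, Nat.testBit_ofBits_lt _ _ hi]⟩

/-- the description of the clauses -/
def cl (s : ℕ) : List (List Cl) := (List.finRange s).map fun r =>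
  ((List.finRange s ×ˢ List.finRange s).filter fun p => p.1 < p.2 ∧ p.1 ≠ r ∧ p.2 ≠ r).map
    fun p => ((p.1, p.2), ix r p.1 p.2, ie r p.2, ie r p.1)

theorem lit_spec {μ : Fin s → Fin s → ℝ} (an : ∀ a b, μ a b = -μ b a) {m : ℕ} (hm : m < 1024)
    (hb : ∀ a b, a < b → i2 a b < 10 ∧ tb m (i2 a b) = decide (0 < μ a b)) {a b : Fin s}
    (ab : a ≠ b) {v : Bool} (h : 0 < sn v * μ a b) :
    (lm (ie a b).1 (xn v (ie a b).2)).testBit m = true := by
  rw [← tb_eq]
  unfold ie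
  split_ifs with q
  · have e : xn v true = tb m (i2 a b) := by rw [(hb a b q).2, of_pos h]; cases v <;> rfl
    simp only [e]
    exact lm_spec _ (hb a b q).1 m hm
  · have q' : b < a := by omega
    have e : xn v false = tb m (i2 b a) := by
      rw [(hb b a q').2, of_neg (an a b ▸ h)]; cases v <;> rfl
    simp only [e]
    exact lm_spec _ (hb b a q').1 m hm

theorem Cf.look (h : Cf F G x σ τ) {j l : ι} (jl : l ≠ j) {q : ℕ}
    (hq : Cd F (G j) (fun r => σ r j) q) (dir : Bool) {m : ℕ} (hm : m < 1024)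
    (hb : ∀ a b, a < b → i2 a b < 10 ∧
      tb m (i2 a b) = decide (0 < sn dir * d4 (F a) (F b) (G j) (G l))) :
    (Bip.look (List.ofFn fun r => τ r l) (tree (ms (cl s) q dir) full)).testBit m = true := by
  refine look_spec (fun row b => cls q dir b row) _ _ _ ((tb_eq _ _).symm.trans (full_spec m hm)) ?_
  rw [cl, List.ofFn_eq_map, List.forall₂_map_left_iff, List.forall₂_map_right_iff,
    List.forall₂_same]
  refine fun r _ => cls_spec hm fun p hp => ?_
  obtain ⟨⟨c, d⟩, hp2, rfl⟩ := List.mem_map.1 hp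
  obtain ⟨cd, cr, dr⟩ : c < d ∧ c ≠ r ∧ d ≠ r := by simpa using (List.mem_filter.1 hp2).2
  have an : ∀ a b, sn dir * d4 (F a) (F b) (G j) (G l) =
      -(sn dir * d4 (F b) (F a) (G j) (G l)) := fun a b => by rw [d4_12]; ring
  have e := cramer (F r) (F c) (F d) (G j) (G l) (x r j)
  rw [h.z1, h.z2] at e
  have h1 : 0 < sn (dg q r c d == τ r l) * (d4 (F r) (F c) (F d) (G j) * (G l ⬝ᵥ x r j)) := by
    have := mul_pos (hq.dg cr.symm dr.symm cd.ne) (h.ht r j l jl)
    rw [sn_mul]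
    linarith
  have e1 : cl1 q dir (τ r l) ((c, d), ix r c d, ie r d, ie r c) =
      lm (ie r d).1 (xn (xn (xn (xn (dg q r c d) (τ r l)) (tb q c)) dir) (ie r d).2) |||
      lm (ie r c).1 (xn (!xn (xn (xn (dg q r c d) (τ r l)) (tb q d)) dir) (ie r c).2) := rfl
  rw [e1, Nat.testBit_or, Bool.or_eq_true, hq.sg, hq.sg]
  refine (two_terms (d := d4 (F r) (F d) (G j) (G l)) (e := -d4 (F r) (F c) (G j) (G l)) h1
    (h.hs r c j cr) (h.hs r d j dr) (by linarith)).imp
    (fun k => lit_spec an hm hb dr.symm ?_) fun k => lit_spec an hm hb cr.symm ?_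
  · rw [xn_eq, xn_eq, xn_eq, sn_mul _ dir, mul_assoc, ← mul_assoc (sn dir), sn_sq, one_mul]
    exact k
  · rw [sn_not, xn_eq, xn_eq, xn_eq, sn_mul _ dir, neg_mul, mul_assoc, ← mul_assoc (sn dir), sn_sq,
      one_mul]
    linarith

theorem Cf.adj (h : Cf F G x σ τ) (un : ℕ → Fin s × Fin s)
    (hu : ∀ a b : Fin s, a < b → i2 a b < 10 ∧ un (i2 a b) = (a, b)) {j l : ι} (jl : j ≠ l)
    {q p : ℕ} (hq : Cd F (G j) (fun r => σ r j) q) (hp : Cd F (G l) (fun r => σ r l) p) :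
    Bip.adj (Bip.mk (cl s) q (List.ofFn fun r => τ r j))
      (Bip.mk (cl s) p (List.ofFn fun r => τ r l)) = true := by
  obtain ⟨m, hm, hb⟩ := exists_bits 10
    fun i => decide (0 < d4 (F (un i).1) (F (un i).2) (G j) (G l))
  refine adj_of (m := m) (h.look jl.symm hq true hm fun a b ab => ⟨(hu a b ab).1, ?_⟩)
    (h.look jl hp false hm fun a b ab => ⟨(hu a b ab).1, ?_⟩)
  · rw [hb _ (hu a b ab).1, (hu a b ab).2]
    simp [sn]
  · rw [hb _ (hu a b ab).1, (hu a b ab).2, d4_34]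
    simp [sn]

/-- not all equal -/
def nae (a b c : Bool) : Bool := !(xn a b && xn a c)

/-- description of a constraint at a contact point -/
def vd (p : Fin s × Fin s × Fin s × Fin s) : (ℕ × ℕ × Bool) × (ℕ × ℕ × Bool) × ℕ × ℕ × Bool :=
  ((p.2.1, ix p.1 p.2.2.1 p.2.2.2), (p.2.2.1, ix p.1 p.2.1 p.2.2.2), p.2.2.2, ix p.1 p.2.1 p.2.2.1)

/-- the constraints at the contact points of one plane -/
def val (L : List ((ℕ × ℕ × Bool) × (ℕ × ℕ × Bool) × ℕ × ℕ × Bool)) (q : ℕ) : Bool := L.all fun p =>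
  nae (xn (xn (tb q p.1.2.1) p.1.2.2) (tb q p.1.1))
    (!xn (xn (tb q p.2.1.2.1) p.2.1.2.2) (tb q p.2.1.1))
    (xn (xn (tb q p.2.2.2.1) p.2.2.2.2) (tb q p.2.2.1))

/-- description of a constraint from a dependency -/
def vd' (p : Fin s × Fin s × Fin s × Fin s × Fin s) : (ℕ × Bool) × (ℕ × Bool) × ℕ × Bool :=
  (ix p.1 p.2.1 p.2.2.1, ix p.1 p.2.1 p.2.2.2.1, ix p.1 p.2.1 p.2.2.2.2)

/-- the constraints from a non-negative dependency -/
def val' (L : List ((ℕ × Bool) × (ℕ × Bool) × ℕ × Bool)) (q : ℕ) : Bool := L.all fun p =>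
  nae (xn (tb q p.1.1) p.1.2) (xn (tb q p.2.1.1) p.2.1.2) (xn (tb q p.2.2.1) p.2.2.2)

end Pool.Agent.Lib.MP_6f5d92_co.Bip
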