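import Pool.Agent.Lib.MP_6f5d92_co.BipD

/-! Finite checks on shapes. -/

namespace Pool.Agent.Lib.MP_6f5d92_co.Bip

/-- a plane and three others -/
def q4 : List (Fin 4 × Fin 4 × Fin 4 × Fin 4) := [
    (0, 1, 2, 3), (1, 0, 2, 3), (2, 0, 1, 3), (3, 0, 1, 2)]

/-- relabellings -/
def p4 : List (Fin 4 → Fin 4) := [
    ![0, 1, 2, 3], ![0, 1, 3, 2], ![0, 2, 1, 3], ![0, 2, 3, 1], ![0, 3, 1, 2], ![0, 3, 2, 1]]

/-- pairs by position -/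
def u4 (i : ℕ) : Fin 4 × Fin 4 := [
    (0, 1), (0, 2), (1, 2), (0, 3), (1, 3), (2, 3)].getD i (0, 0)

/-- triples by position -/
def w4 (i : ℕ) : Fin 4 × Fin 4 × Fin 4 := [
    (0, 1, 2), (0, 1, 3), (0, 2, 3), (1, 2, 3)].getD (i - 4) (0, 0, 0)

theorem cl4_eq : cl 4 = cl4 := by decide +kernel

theorem u4_spec : ∀ a b : Fin 4, a < b → i2 a b < 10 ∧ u4 (i2 a b) = (a, b) := by decide +kernel

theorem w4_spec : ∀ a b c : Fin 4, a < b → b < c →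
    i3 a b c < 8 ∧ w4 (i3 a b c) = (a, b, c) := by decide +kernel

theorem q4_spec : ∀ p ∈ q4, [p.1, p.2.1, p.2.2.1, p.2.2.2].Nodup := by decide +kernel

theorem p4_spec : ∀ p ∈ p4, Function.Injective p := by decide +kernel

theorem ts4_spec : ∀ t : Fin 4 → Bool, t 0 = true → List.ofFn t ∈ ts4 := by decide +kernel

/-- a plane and three others -/
def q5 : List (Fin 5 × Fin 5 × Fin 5 × Fin 5) := [
    (0, 1, 2, 3), (0, 1, 2, 4), (0, 1, 3, 4), (0, 2, 3, 4), (1, 0, 2, 3), (1, 0, 2, 4),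
    (1, 0, 3, 4), (1, 2, 3, 4), (2, 0, 1, 3), (2, 0, 1, 4), (2, 0, 3, 4), (2, 1, 3, 4),
    (3, 0, 1, 2), (3, 0, 1, 4), (3, 0, 2, 4), (3, 1, 2, 4), (4, 0, 1, 2), (4, 0, 1, 3),
    (4, 0, 2, 3), (4, 1, 2, 3)]

/-- pairs by position -/
def u5 (i : ℕ) : Fin 5 × Fin 5 := [
    (0, 1), (0, 2), (1, 2), (0, 3), (1, 3), (2, 3), (0, 4), (1, 4), (2, 4), (3, 4)].getD i (0, 0)

/-- triples by position -/
def w5 (i : ℕ) : Fin 5 × Fin 5 × Fin 5 := [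
    (0, 1, 2), (0, 1, 3), (0, 2, 3), (1, 2, 3), (0, 1, 4), (0, 2, 4), (1, 2, 4), (0, 3, 4),
    (1, 3, 4), (2, 3, 4)].getD (i - 5) (0, 0, 0)

theorem cl5_eq : cl 5 = cl5 := by decide +kernel

theorem u5_spec : ∀ a b : Fin 5, a < b → i2 a b < 10 ∧ u5 (i2 a b) = (a, b) := by decide +kernel

theorem w5_spec : ∀ a b c : Fin 5, a < b → b < c →
    i3 a b c < 15 ∧ w5 (i3 a b c) = (a, b, c) := by decide +kernel

theorem q5_spec : ∀ p ∈ q5, [p.1, p.2.1, p.2.2.1, p.2.2.2].Nodup := by decide +kernel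

theorem ts5_spec : ∀ t : Fin 5 → Bool, t 2 = true → List.ofFn t ∈ ts5 := by decide +kernel

/-- a pair and the three others -/
def r5 : List (Fin 5 × Fin 5 × Fin 5 × Fin 5 × Fin 5) := [
    (0, 1, 2, 3, 4), (0, 2, 1, 3, 4), (0, 3, 1, 2, 4), (0, 4, 1, 2, 3), (1, 2, 0, 3, 4),
    (1, 3, 0, 2, 4), (1, 4, 0, 2, 3), (2, 3, 0, 1, 4), (2, 4, 0, 1, 3), (3, 4, 0, 1, 2)]

theorem r5_spec : ∀ p ∈ r5, [p.1, p.2.1, p.2.2.1, p.2.2.2.1, p.2.2.2.2].Nodup ∧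
    ∀ c, c = p.1 ∨ c = p.2.1 ∨ c = p.2.2.1 ∨ c = p.2.2.2.1 ∨ c = p.2.2.2.2 := by decide +kernel

/-- descriptions -/
def v5 : List ((ℕ × ℕ × Bool) × (ℕ × ℕ × Bool) × ℕ × ℕ × Bool) := [
    ((1, 7, true), (2, 6, true), 3, 5, true), ((1, 10, true), (2, 9, true), 4, 5, true),
    ((1, 12, true), (3, 9, true), 4, 6, true), ((2, 12, true), (3, 10, true), 4, 7, true),
    ((0, 8, true), (2, 6, false), 3, 5, false), ((0, 11, true), (2, 9, false), 4, 5, false),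
    ((0, 13, true), (3, 9, false), 4, 6, false), ((2, 13, true), (3, 11, true), 4, 8, true),
    ((0, 8, false), (1, 7, false), 3, 5, true), ((0, 11, false), (1, 10, false), 4, 5, true),
    ((0, 14, true), (3, 10, false), 4, 7, false), ((1, 14, true), (3, 11, false), 4, 8, false),
    ((0, 8, true), (1, 7, true), 2, 6, true), ((0, 13, false), (1, 12, false), 4, 6, true),
    ((0, 14, false), (2, 12, false), 4, 7, true), ((1, 14, false), (2, 13, false), 4, 8, true),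
    ((0, 11, true), (1, 10, true), 2, 9, true), ((0, 13, true), (1, 12, true), 3, 9, true),
    ((0, 14, true), (2, 12, true), 3, 10, true), ((1, 14, true), (2, 13, true), 3, 11, true)]

/-- descriptions -/
def z5 : List ((ℕ × Bool) × (ℕ × Bool) × ℕ × Bool) := [
    ((5, true), (6, true), 9, true), ((5, false), (7, true), 10, true),
    ((6, false), (7, false), 12, true), ((9, false), (10, false), 12, false),
    ((5, true), (8, true), 11, true), ((6, true), (8, false), 13, true),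
    ((9, true), (11, false), 13, false), ((7, true), (8, true), 14, true),
    ((10, true), (11, true), 14, false), ((12, true), (13, true), 14, true)]

/-- increasing triples -/
def t5 : List (Fin 5 × Fin 5 × Fin 5) := [
    (0, 1, 2), (0, 1, 3), (0, 1, 4), (0, 2, 3), (0, 2, 4), (0, 3, 4), (1, 2, 3), (1, 2, 4),
    (1, 3, 4), (2, 3, 4)]

/-- shapes with a relabelling -/
def n5 : List (ℕ × (Fin 5 → Fin 5)) := [
    (4268, ![4, 2, 0, 3, 1]), (4275, ![4, 2, 0, 3, 1]), (4327, ![1, 3, 0, 4, 2]),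
    (4344, ![1, 3, 0, 4, 2]), (4419, ![2, 0, 3, 1, 4]), (4444, ![2, 0, 3, 1, 4]),
    (4558, ![1, 4, 3, 0, 2]), (4561, ![1, 4, 3, 0, 2]), (4585, ![2, 0, 4, 3, 1]),
    (4598, ![2, 0, 4, 3, 1]), (5286, ![3, 1, 0, 2, 4]), (5305, ![3, 1, 0, 2, 4]),
    (5357, ![2, 4, 0, 1, 3]), (5362, ![2, 4, 0, 1, 3]), (5449, ![4, 3, 1, 0, 2]),
    (5462, ![4, 3, 1, 0, 2]), (5486, ![2, 0, 1, 4, 3]), (5489, ![2, 0, 1, 4, 3]),
    (5603, ![3, 1, 4, 0, 2]), (5628, ![3, 1, 4, 0, 2]), (6309, ![1, 0, 3, 2, 4]),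
    (6330, ![1, 0, 3, 2, 4]), (6345, ![1, 0, 4, 3, 2]), (6358, ![1, 0, 4, 3, 2]),
    (6382, ![2, 4, 3, 0, 1]), (6385, ![2, 4, 3, 0, 1]), (6474, ![4, 1, 0, 3, 2]),
    (6485, ![4, 1, 0, 3, 2]), (6599, ![2, 3, 0, 4, 1]), (6616, ![2, 3, 0, 4, 1]),
    (6798, ![1, 0, 2, 4, 3]), (6801, ![1, 0, 2, 4, 3]), (6825, ![4, 3, 2, 0, 1]),
    (6838, ![4, 3, 2, 0, 1]), (6853, ![3, 2, 4, 0, 1]), (6874, ![3, 2, 4, 0, 1]),
    (6982, ![3, 2, 0, 1, 4]), (7001, ![3, 2, 0, 1, 4]), (7115, ![1, 4, 0, 2, 3]),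
    (7124, ![1, 4, 0, 2, 3]), (8867, ![2, 1, 3, 0, 4]), (8892, ![2, 1, 3, 0, 4]),
    (8967, ![0, 3, 1, 4, 2]), (8984, ![0, 3, 1, 4, 2]), (9036, ![4, 2, 1, 3, 0]),
    (9043, ![4, 2, 1, 3, 0]), (9098, ![2, 1, 4, 3, 0]), (9109, ![2, 1, 4, 3, 0]),
    (9133, ![0, 4, 3, 1, 2]), (9138, ![0, 4, 3, 1, 2]), (9381, ![3, 2, 1, 0, 4]),
    (9402, ![3, 2, 1, 0, 4]), (9510, ![3, 2, 4, 1, 0]), (9529, ![3, 2, 4, 1, 0]),
    (9546, ![4, 3, 2, 1, 0]), (9557, ![4, 3, 2, 1, 0]), (9581, ![0, 1, 2, 4, 3]),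
    (9586, ![0, 1, 2, 4, 3]), (9643, ![0, 4, 1, 2, 3]), (9652, ![0, 4, 1, 2, 3]),
    (9897, ![4, 0, 1, 3, 2]), (9910, ![4, 0, 1, 3, 2]), (9997, ![2, 4, 3, 1, 0]),
    (10002, ![2, 4, 3, 1, 0]), (10026, ![0, 1, 4, 3, 2]), (10037, ![0, 1, 4, 3, 2]),
    (10054, ![0, 1, 3, 2, 4]), (10073, ![0, 1, 3, 2, 4]), (10151, ![2, 3, 1, 4, 0]),
    (10168, ![2, 3, 1, 4, 0]), (10893, ![2, 1, 0, 4, 3]), (10898, ![2, 1, 0, 4, 3]),
    (10922, ![4, 3, 0, 1, 2]), (10933, ![4, 3, 0, 1, 2]), (11022, ![2, 4, 1, 0, 3]),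
    (11025, ![2, 4, 1, 0, 3]), (11077, ![3, 0, 1, 2, 4]), (11098, ![3, 0, 1, 2, 4]),
    (11139, ![3, 0, 4, 1, 2]), (11164, ![3, 0, 4, 1, 2]), (12457, ![1, 3, 2, 0, 4]),
    (12470, ![1, 3, 2, 0, 4]), (12614, ![4, 1, 3, 2, 0]), (12633, ![4, 1, 3, 2, 0]),
    (12711, ![0, 4, 2, 3, 1]), (12728, ![0, 4, 2, 3, 1]), (12747, ![0, 2, 3, 4, 1]),
    (12756, ![0, 2, 3, 4, 1]), (12780, ![1, 3, 4, 2, 0]), (12787, ![1, 3, 4, 2, 0]),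
    (12965, ![4, 0, 3, 2, 1]), (12986, ![4, 0, 3, 2, 1]), (13130, ![0, 3, 2, 1, 4]),
    (13141, ![0, 3, 2, 1, 4]), (13196, ![0, 3, 4, 2, 1]), (13203, ![0, 3, 4, 2, 1]),
    (13227, ![1, 2, 3, 4, 0]), (13236, ![1, 2, 3, 4, 0]), (13255, ![1, 4, 2, 3, 0]),
    (13272, ![1, 4, 2, 3, 0]), (13475, ![4, 0, 2, 1, 3]), (13500, ![4, 0, 2, 1, 3]),
    (13644, ![0, 2, 1, 3, 4]), (13651, ![0, 2, 1, 3, 4]), (13675, ![3, 4, 1, 2, 0]),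
    (13684, ![3, 4, 1, 2, 0]), (13741, ![3, 1, 2, 4, 0]), (13746, ![3, 1, 2, 4, 0]),
    (13798, ![0, 2, 4, 1, 3]), (13817, ![0, 2, 4, 1, 3]), (14987, ![3, 4, 0, 2, 1]),
    (14996, ![3, 4, 0, 2, 1]), (15020, ![1, 2, 0, 3, 4]), (15027, ![1, 2, 0, 3, 4]),
    (15171, ![4, 1, 2, 0, 3]), (15196, ![4, 1, 2, 0, 3]), (15237, ![1, 2, 4, 0, 3]),
    (15258, ![1, 2, 4, 0, 3]), (15310, ![3, 0, 2, 4, 1]), (15313, ![3, 0, 2, 4, 1]),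
    (17454, ![1, 4, 2, 0, 3]), (17457, ![1, 4, 2, 0, 3]), (17509, ![3, 0, 4, 2, 1]),
    (17530, ![3, 0, 4, 2, 1]), (17571, ![3, 0, 2, 1, 4]), (17596, ![3, 0, 2, 1, 4]),
    (17740, ![4, 3, 0, 2, 1]), (17747, ![4, 3, 0, 2, 1]), (17771, ![1, 2, 0, 4, 3]),
    (17780, ![1, 2, 0, 4, 3]), (18950, ![3, 1, 4, 2, 0]), (18969, ![3, 1, 4, 2, 0]),
    (19021, ![0, 4, 2, 1, 3]), (19026, ![0, 4, 2, 1, 3]), (19083, ![0, 2, 1, 4, 3]),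
    (19092, ![0, 2, 1, 4, 3]), (19116, ![4, 3, 1, 2, 0]), (19123, ![4, 3, 1, 2, 0]),
    (19267, ![3, 1, 2, 0, 4]), (19292, ![3, 1, 2, 0, 4]), (19495, ![0, 3, 2, 4, 1]),
    (19512, ![0, 3, 2, 4, 1]), (19531, ![0, 4, 3, 2, 1]), (19540, ![0, 4, 3, 2, 1]),
    (19564, ![1, 2, 4, 3, 0]), (19571, ![1, 2, 4, 3, 0]), (19626, ![4, 1, 2, 3, 0]),
    (19637, ![4, 1, 2, 3, 0]), (19781, ![1, 2, 3, 0, 4]), (19802, ![1, 2, 3, 0, 4]),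
    (19980, ![0, 2, 4, 3, 1]), (19987, ![0, 2, 4, 3, 1]), (20011, ![1, 4, 3, 2, 0]),
    (20020, ![1, 4, 3, 2, 0]), (20039, ![1, 3, 2, 4, 0]), (20056, ![1, 3, 2, 4, 0]),
    (20134, ![0, 2, 3, 1, 4]), (20153, ![0, 2, 3, 1, 4]), (20297, ![4, 0, 2, 3, 1]),
    (20310, ![4, 0, 2, 3, 1]), (21603, ![2, 1, 4, 0, 3]), (21628, ![2, 1, 4, 0, 3]),
    (21669, ![4, 2, 1, 0, 3]), (21690, ![4, 2, 1, 0, 3]), (21742, ![3, 0, 1, 4, 2]),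
    (21745, ![3, 0, 1, 4, 2]), (21834, ![2, 1, 0, 3, 4]), (21845, ![2, 1, 0, 3, 4]),
    (21869, ![3, 4, 0, 1, 2]), (21874, ![3, 4, 0, 1, 2]), (22599, ![0, 4, 1, 3, 2]),
    (22616, ![0, 4, 1, 3, 2]), (22694, ![4, 2, 3, 1, 0]), (22713, ![4, 2, 3, 1, 0]),
    (22730, ![2, 3, 4, 1, 0]), (22741, ![2, 3, 4, 1, 0]), (22765, ![0, 1, 3, 4, 2]),
    (22770, ![0, 1, 3, 4, 2]), (22857, ![2, 3, 1, 0, 4]), (22870, ![2, 3, 1, 0, 4]),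
    (23115, ![3, 2, 1, 4, 0]), (23124, ![3, 2, 1, 4, 0]), (23181, ![3, 4, 2, 1, 0]),
    (23186, ![3, 4, 2, 1, 0]), (23210, ![0, 1, 2, 3, 4]), (23221, ![0, 1, 2, 3, 4]),
    (23238, ![0, 1, 4, 2, 3]), (23257, ![0, 1, 4, 2, 3]), (23365, ![4, 0, 1, 2, 3]),
    (23386, ![4, 0, 1, 2, 3]), (23629, ![2, 1, 3, 4, 0]), (23634, ![2, 1, 3, 4, 0]),
    (23658, ![0, 3, 4, 1, 2]), (23669, ![0, 3, 4, 1, 2]), (23724, ![0, 3, 1, 2, 4]),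
    (23731, ![0, 3, 1, 2, 4]), (23783, ![2, 4, 1, 3, 0]), (23800, ![2, 4, 1, 3, 0]),
    (23875, ![4, 0, 3, 1, 2]), (23900, ![4, 0, 3, 1, 2]), (25643, ![3, 2, 0, 4, 1]),
    (25652, ![3, 2, 0, 4, 1]), (25766, ![4, 1, 0, 2, 3]), (25785, ![4, 1, 0, 2, 3]),
    (25893, ![1, 0, 4, 2, 3]), (25914, ![1, 0, 4, 2, 3]), (25929, ![1, 0, 2, 3, 4]),
    (25942, ![1, 0, 2, 3, 4]), (25966, ![3, 4, 2, 0, 1]), (25969, ![3, 4, 2, 0, 1]),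
    (26151, ![1, 4, 0, 3, 2]), (26168, ![1, 4, 0, 3, 2]), (26282, ![2, 3, 0, 1, 4]),
    (26293, ![2, 3, 0, 1, 4]), (26382, ![1, 0, 3, 4, 2]), (26385, ![1, 0, 3, 4, 2]),
    (26409, ![2, 3, 4, 0, 1]), (26422, ![2, 3, 4, 0, 1]), (26437, ![4, 2, 3, 0, 1]),
    (26458, ![4, 2, 3, 0, 1]), (27139, ![2, 0, 4, 1, 3]), (27164, ![2, 0, 4, 1, 3]),
    (27278, ![3, 4, 1, 0, 2]), (27281, ![3, 4, 1, 0, 2]), (27305, ![2, 0, 1, 3, 4]),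
    (27318, ![2, 0, 1, 3, 4]), (27405, ![3, 1, 0, 4, 2]), (27410, ![3, 1, 0, 4, 2]),
    (27462, ![4, 2, 0, 1, 3]), (27481, ![4, 2, 0, 1, 3]), (28169, ![1, 3, 4, 0, 2]),
    (28182, ![1, 3, 4, 0, 2]), (28206, ![2, 0, 3, 4, 1]), (28209, ![2, 0, 3, 4, 1]),
    (28323, ![4, 1, 3, 0, 2]), (28348, ![4, 1, 3, 0, 2]), (28423, ![2, 4, 0, 3, 1]),
    (28440, ![2, 4, 0, 3, 1]), (28492, ![1, 3, 0, 2, 4]), (28499, ![1, 3, 0, 2, 4])]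

theorem v5_eq : q5.map vd = v5 := by decide +kernel

theorem z5_eq : r5.map vd' = z5 := by decide +kernel

theorem t5_spec : ∀ a b c : Fin 5, a < b → b < c → (a, b, c) ∈ t5 := by decide +kernel

theorem n5_eq : n5.map Prod.fst = sh5 := by decide +kernel

theorem sh4_spec : ∀ q < 256, val (q4.map vd) q = true → q ∈ sh4 := by decide +kernel

theorem sh5_aux : ((List.range 1024).all fun d => force (32 * d) fun h => !val' z5 h ||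
    (List.range 32).all fun q => force (h + q) fun k => !val v5 k || sh5.contains k) = true := by
  decide +kernel

theorem sh5_spec {d q : ℕ} (hd : d < 1024) (h1 : val' z5 (32 * d) = true) (hq : q < 32)
    (h2 : val v5 (32 * d + q) = true) : 32 * d + q ∈ sh5 := by
  have h := List.all_eq_true.1 sh5_aux d (List.mem_range.2 hd)
  rw [force_eq, h1, Bool.not_true, Bool.false_or] at h
  have h' := List.all_eq_true.1 h q (List.mem_range.2 hq)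
  rw [force_eq, h2, Bool.not_true, Bool.false_or] at h'
  exact List.contains_iff_mem.1 h'

theorem nf4 : ∀ q ∈ sh4, (∀ r : Fin 4, tb q r = true) → ∀ g, ∃ π ∈ p4, π 0 = 0 ∧
    ∀ a b c, a < b → b < c → dg q (π a) (π b) (π c) = g := by decide +kernel

theorem nf5 : ∀ p ∈ n5, Function.Injective p.2 ∧
    (∀ r, xn (tb p.1 (p.2 r)) (tb p.1 (p.2 2)) = tb 23221 r) ∧ ∀ u ∈ t5,
      dg p.1 (p.2 u.1) (p.2 u.2.1) (p.2 u.2.2) = tb 23221 (i3 u.1 u.2.1 u.2.2) ∧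
      dg p.1 (p.2 u.1.rev) (p.2 u.2.1.rev) (p.2 u.2.2.rev) = !tb 23221 (i3 u.1 u.2.1 u.2.2) := by
  decide +kernel

theorem eq4 : ∀ q ∈ sh4, (∀ r : Fin 4, tb q r = true) →
    (∀ a b c : Fin 4, a < b → b < c → tb q (i3 a b c) = true) → q = 255 := by decide +kernel

theorem eq5 : ∀ q ∈ sh5, (∀ r : Fin 5, tb q r = tb 23221 r) →
    (∀ u ∈ t5, tb q (i3 u.1 u.2.1 u.2.2) = tb 23221 (i3 u.1 u.2.1 u.2.2)) → q = 23221 := by
  decide +kernel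

end Pool.Agent.Lib.MP_6f5d92_co.Bip
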