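import Pool.Agent.Lib.MP_6f5d92_co.BipC

/-! The search for five planes. -/

namespace Pool.Agent.Lib.MP_6f5d92_co.Bip

set_option maxRecDepth 1000000 in
theorem run5 : run cl5 ts5 3 23221 sh5 = true := by decide +kernel

end Pool.Agent.Lib.MP_6f5d92_co.Bip
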