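import Pool.Agent.Lib.MP_6f5d92_co.BipF
import Pool.Agent.Lib.MP_6f5d92_co.BipR4
import Pool.Agent.Lib.MP_6f5d92_co.BipR5

/-! Four planes have at most six common neighbours, five planes at most four. -/

namespace Pool.Agent.Lib.MP_6f5d92_co.Bip

open Matrix Three

variable {s : ℕ} {ι : Type}
variable {F : Fin s → V} {G : ι → V} {x : Fin s → ι → V} {σ τ : Fin s → ι → Bool}

theorem sn_uniq {a b : Bool} {y : ℝ} (h1 : 0 < sn a * y) (h2 : 0 < sn b * y) : a = b :=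
  (of_pos h1).symm.trans (of_pos h2)

theorem Cf.code (h : Cf F G x σ τ) (n : ℕ) (hn : s ≤ n) (w : ℕ → Fin s × Fin s × Fin s)
    (hw : ∀ a b c : Fin s, a < b → b < c → i3 a b c < n ∧ w (i3 a b c) = (a, b, c)) (j : ι) :
    ∃ q < 2 ^ n, Cd F (G j) (fun r => σ r j) q := by
  obtain ⟨q, hq, hb⟩ := exists_bits n fun i => if hi : i < s then σ ⟨i, hi⟩ j else
    decide (0 < d4 (F (w i).1) (F (w i).2.1) (F (w i).2.2) (G j))
  refine ⟨q, hq, fun r => by rw [hb r (r.2.trans_le hn), dif_pos r.2], fun a b c ab bc => ?_⟩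
  rw [hb _ (hw a b c ab bc).1, dif_neg (by unfold i3; omega), (hw a b c ab bc).2]
  exact sn_dec (h.ne ab.ne (ab.trans bc).ne bc.ne j)

theorem nae_of {a b c : Bool} {u v w : ℝ} (h1 : 0 < sn a * u) (h2 : 0 < sn b * v)
    (h3 : 0 < sn c * w) (e : u + v + w = 0) : nae a b c = true := by
  cases a <;> cases b <;> cases c <;> simp [sn] at h1 h2 h3 <;> first | rfl | linarith

theorem sn_xn {a b : Bool} {u v : ℝ} (h1 : 0 < sn a * u) (h2 : 0 < sn b * v) :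
    0 < sn (xn a b) * (u * v) := by
  have := mul_pos h1 h2
  rw [xn_eq, sn_mul]
  linarith

theorem Cf.val (h : Cf F G x σ τ) {j : ι} {q : ℕ} (hq : Cd F (G j) (fun r => σ r j) q)
    {Q : List (Fin s × Fin s × Fin s × Fin s)}
    (hQ : ∀ p ∈ Q, [p.1, p.2.1, p.2.2.1, p.2.2.2].Nodup) : Bip.val (Q.map vd) q = true := by
  refine List.all_eq_true.2 fun _ hp => ?_
  obtain ⟨⟨a, b, c, d⟩, hp2, rfl⟩ := List.mem_map.1 hp
  obtain ⟨⟨ab, ac, ad⟩, ⟨bc, bd⟩, cd⟩ : (a ≠ b ∧ a ≠ c ∧ a ≠ d) ∧ (b ≠ c ∧ b ≠ d) ∧ c ≠ d := by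
    simpa using hQ _ hp2
  have e := cramer' (F a) (F b) (F c) (F d) (G j) (x a j)
  rw [h.z1, h.z2] at e
  have k := fun r (hr : r ≠ a) => (hq.sg r).symm ▸ h.hs a r j hr
  have k2 := sn_xn (hq.dg ab ad bd) (k c ac.symm)
  exact nae_of (sn_xn (hq.dg ac ad cd) (k b ab.symm))
    (v := -(d4 (F a) (F b) (F d) (G j) * (F c ⬝ᵥ x a j))) (by rw [sn_not, neg_mul_neg]; exact k2)
    (sn_xn (hq.dg ab ac bc) (k d ad.symm)) (by linarith)

theorem no47 {F : Fin 4 → V} {G : Fin 7 → V} {x : Fin 4 → Fin 7 → V}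
    {σ τ : Fin 4 → Fin 7 → Bool} (h : Cf F G x σ τ) : False := by
  have mem : ∀ {F : Fin 4 → V} {G : Fin 7 → V} {x : Fin 4 → Fin 7 → V}
      {σ τ : Fin 4 → Fin 7 → Bool}, Cf F G x σ τ →
      ∀ j, ∃ q ∈ sh4, Cd F (G j) (fun r => σ r j) q := fun h j => by
    obtain ⟨q, h1, h2⟩ := h.code 8 (by norm_num) w4 w4_spec j
    exact ⟨q, sh4_spec q h1 (h.val h2 q4_spec), h2⟩
  have h1 := h.re Function.injective_id (fun r => σ r 0) fun _ => true
  obtain ⟨q0, m0, c0⟩ := mem h1 0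
  obtain ⟨π, hπ, π0, hd⟩ := nf4 q0 m0 (fun r => by rw [c0.sg]; simp) (τ 0 0)
  have ip := p4_spec π hπ
  have h2 := h1.re ip (fun _ => true) fun j => τ 0 j
  choose q m c using mem h2
  refine run_spec run4 q _ m (fun j => ts4_spec _ ?_) (eq4 _ (m 0) (fun r => ?_) fun a b d ab bd =>
    sn_uniq ((c 0).dt a b d ab bd) ?_) fun j l jl => cl4_eq ▸ h2.adj u4 u4_spec jl (c j) (c l)
  · simp [π0]
  · rw [(c 0).sg]
    simp
  · have := c0.dg (ip.ne ab.ne) (ip.ne (ab.trans bd).ne) (ip.ne bd.ne)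
    rw [hd a b d ab bd] at this
    rw [d4_smul]
    simpa [sn] using this

/-- the triple signs at a pair of planes are not all equal -/
def Al (F : Fin s → V) (G : ι → V) : Prop := ∀ a b, a ≠ b → ∀ j v, ∃ c, c ≠ a ∧ c ≠ b ∧
  0 < sn v * d4 (F a) (F b) (F c) (G j)

theorem Al.re (h : Al F G) {π : Fin s → Fin s} (hπ : Function.Injective π) (e : Bool)
    (g : ι → Bool) : Al (fun r => sn e • F (π r)) fun j => sn (g j) • G j := by
  intro a b ab j v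
  obtain ⟨c, ca, cb, k⟩ := h _ _ (hπ.ne ab) j ((v == e) == g j)
  obtain ⟨c, rfl⟩ := Finite.surjective_of_injective hπ c
  refine ⟨c, fun e => ca (e ▸ rfl), fun e => cb (e ▸ rfl), ?_⟩
  rw [d4_smul, sn_sq, one_mul]
  rw [sn_mul, sn_mul] at k
  linarith

theorem d4_sum (a b g : V) (α : Fin 5 → ℝ) (F : Fin 5 → V) :
    d4 a b (∑ i, α i • F i) g = ∑ i, α i * d4 a b (F i) g := by
  simp only [Fin.sum_univ_five, d4_eq, Pi.add_apply, Pi.smul_apply, smul_eq_mul]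
  ring

theorem Cf.al {F : Fin 5 → V} {x : Fin 5 → ι → V} {σ τ : Fin 5 → ι → Bool} (h : Cf F G x σ τ)
    {α : Fin 5 → ℝ} (h0 : ∀ i, 0 ≤ α i) (e : ∑ i, α i • F i = 0) (hα : ∃ i, α i ≠ 0) :
    Al F G := by
  intro a b ab j v
  by_contra hn
  push Not at hn
  have e1 := d4_sum (F a) (F b) (G j) α F
  have z : d4 (F a) (F b) 0 (G j) = 0 := by simp [d4_eq]
  have za : d4 (F a) (F b) (F a) (G j) = 0 := by rw [d4_eq]; ring
  have zb : d4 (F a) (F b) (F b) (G j) = 0 := by rw [d4_eq]; ring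
  have e2 : ∑ i, α i * (sn v * d4 (F a) (F b) (F i) (G j)) = 0 := by
    rw [e, z] at e1
    simp only [mul_left_comm _ (sn v), ← Finset.mul_sum, ← e1, mul_zero]
  have e3 := (Finset.sum_eq_zero_iff_of_nonpos fun i _ => mul_nonpos_of_nonneg_of_nonpos (h0 i) (by
    by_cases ia : i = a
    · rw [ia, za, mul_zero]
    by_cases ib : i = b
    · rw [ib, zb, mul_zero]
    exact hn i ia ib)).1 e2
  have e4 : ∀ i, i ≠ a → i ≠ b → α i = 0 := fun i ia ib =>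
    (mul_eq_zero.1 (e3 i (Finset.mem_univ i))).resolve_right (mul_ne_zero
      (fun e => by simpa [e] using sn_sq v) (h.ne ab ia.symm ib.symm j))
  rw [Fintype.sum_eq_add a b ab fun i hi => by rw [e4 i hi.1 hi.2, zero_smul]] at e
  obtain ⟨c, ca, cb⟩ := (by decide : ∀ a b : Fin 5, ∃ c, c ≠ a ∧ c ≠ b) a b
  obtain ⟨ha, hb, -⟩ := h.ind ab ca.symm cb.symm j (p := α a) (q := α b) (r := 0) (g := 0)
    (by simpa using e)
  obtain ⟨i, hi⟩ := hα
  by_cases ia : i = a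
  · exact hi (ia ▸ ha)
  by_cases ib : i = b
  · exact hi (ib ▸ hb)
  exact hi (e4 i ia ib)

theorem dg_div (q : ℕ) (a b c : Fin 5) : dg (32 * (q / 32)) a b c = dg q a b c := by
  have k : ∀ i, 5 ≤ i → tb (32 * (q / 32)) i = tb q i := fun i hi => by
    rw [tb_eq, tb_eq, show 32 = 2 ^ 5 from rfl, Nat.testBit_two_pow_mul, Nat.testBit_div_two_pow,
      decide_eq_true hi, Bool.true_and, Nat.sub_add_cancel hi]
  have : 5 ≤ (ix a b c).1 := by unfold ix i3; split_ifs <;> exact Nat.le_add_right _ _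
  rw [dg, dg, k _ this]

theorem mem5 {F : Fin 5 → V} {x : Fin 5 → ι → V} {σ τ : Fin 5 → ι → Bool} (h : Cf F G x σ τ)
    (ha : Al F G) (j : ι) : ∃ q ∈ sh5, Cd F (G j) (fun r => σ r j) q := by
  obtain ⟨q, h1, h2⟩ := h.code 15 (by norm_num) w5 w5_spec j
  refine ⟨q, Nat.div_add_mod q 32 ▸ sh5_spec (by omega) ?_ (Nat.mod_lt _ (by norm_num)) ?_, h2⟩
  · rw [← z5_eq]
    refine List.all_eq_true.2 fun _ hp => ?_
    obtain ⟨⟨a, b, c, d, e⟩, hp2, rfl⟩ := List.mem_map.1 hp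
    obtain ⟨n1, n2⟩ := r5_spec _ hp2
    have n3 : a ≠ b := by simp at n1; tauto
    change nae (dg _ a b c) (dg _ a b d) (dg _ a b e) = true
    rw [dg_div, dg_div, dg_div]
    obtain ⟨u, ua, ub, k⟩ := ha a b n3 j (!dg q a b c)
    have k2 := sn_uniq k (h2.dg n3 ua.symm ub.symm)
    rcases n2 u with r | r | r | r | r
    · exact (ua r).elim
    · exact (ub r).elim
    all_goals
      simp only at r
      rw [r] at k2
      revert k2
      cases dg q a b c <;> cases dg q a b d <;> cases dg q a b e <;> decide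
  · rw [Nat.div_add_mod, ← v5_eq]
    exact h.val h2 q5_spec

theorem rev5 : ∀ r : Fin 5, tb 23221 r.rev = tb 23221 r := by decide +kernel

theorem lt5 : ∀ u ∈ t5, u.1 < u.2.1 ∧ u.2.1 < u.2.2 := by decide +kernel

theorem no55 {F : Fin 5 → V} {G : Fin 5 → V} {x : Fin 5 → Fin 5 → V}
    {σ τ : Fin 5 → Fin 5 → Bool} (h : Cf F G x σ τ) : False := by
  obtain ⟨α, e, hα⟩ : ∃ α : Fin 5 → ℝ, ∑ i, α i • F i = 0 ∧ ∃ i, α i ≠ 0 :=
    Fintype.not_linearIndependent_iff.1 fun li => by simpa using li.fintype_card_le_finrank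
  have h1 := h.re Function.injective_id (fun r => decide (0 ≤ α r)) fun _ => true
  have a1 := h1.al (α := fun r => |α r|) (fun _ => abs_nonneg _) (by
    rw [← e]
    refine Finset.sum_congr rfl fun r _ => ?_
    rw [smul_smul]
    by_cases q : 0 ≤ α r
    · simp [sn, q, abs_of_nonneg q]
    · simp [sn, q, abs_of_neg (not_le.1 q)]) (hα.imp fun i hi => abs_ne_zero.2 hi)
  clear e hα
  generalize (fun r => sn (decide (0 ≤ α r)) • F (id r)) = F1 at h1 a1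
  generalize (fun j => sn true • G j) = G1 at h1 a1
  generalize (fun r => x (id r)) = x1 at h1
  generalize (fun r j => σ (id r) j == decide (0 ≤ α r)) = σ1 at h1
  generalize (fun r j => τ (id r) j == true) = τ1 at h1
  obtain ⟨q0, m0, c0⟩ := mem5 h1 a1 0
  obtain ⟨⟨_, π⟩, hp, rfl⟩ := List.mem_map.1 (n5_eq ▸ m0)
  obtain ⟨ip, hs, hd⟩ := nf5 _ hp
  obtain ⟨ρ, ir, r2, rs, rd⟩ : ∃ ρ : Fin 5 → Fin 5, Function.Injective ρ ∧ ρ 2 = π 2 ∧
      (∀ r, (σ1 (ρ r) 0 == σ1 (π 2) 0) = tb 23221 r) ∧ ∀ u ∈ t5,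
        0 < sn ((tb 23221 (i3 u.1 u.2.1 u.2.2) == σ1 (π 2) 0) == τ1 (π 2) 0) *
          d4 (F1 (ρ u.1)) (F1 (ρ u.2.1)) (F1 (ρ u.2.2)) (G1 0) := by
    have hs' : ∀ r, (σ1 (π r) 0 == σ1 (π 2) 0) = tb 23221 r := fun r => by
      rw [← hs r, xn_eq, c0.sg, c0.sg]
    have nt : ∀ u ∈ t5, u.1 ≠ u.2.1 ∧ u.1 ≠ u.2.2 ∧ u.2.1 ≠ u.2.2 := fun u hu =>
      ⟨(lt5 u hu).1.ne, ((lt5 u hu).1.trans (lt5 u hu).2).ne, (lt5 u hu).2.ne⟩
    by_cases q : σ1 (π 2) 0 = τ1 (π 2) 0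
    · refine ⟨π, ip, rfl, hs', fun u hu => ?_⟩
      have := c0.dg (ip.ne (nt u hu).1) (ip.ne (nt u hu).2.1) (ip.ne (nt u hu).2.2)
      rw [(hd u hu).1] at this
      rwa [sn_mul, sn_mul, q, mul_assoc (sn _), sn_sq, mul_one]
    · have iq := ip.comp Fin.rev_injective
      refine ⟨π ∘ Fin.rev, iq, rfl, fun r => (hs' r.rev).trans (rev5 r),
        fun u hu => ?_⟩
      have := c0.dg (iq.ne (nt u hu).1) (iq.ne (nt u hu).2.1) (iq.ne (nt u hu).2.2)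
      rw [show dg _ ((π ∘ Fin.rev) u.1) ((π ∘ Fin.rev) u.2.1) ((π ∘ Fin.rev) u.2.2) = _ from
        (hd u hu).2, sn_not] at this
      rw [sn_mul, sn_mul, Bool.eq_not.2 q, sn_not, mul_neg, neg_mul, mul_assoc (sn _), sn_sq,
        mul_one]
      exact this
  have h2 := h1.re ir (fun _ => σ1 (π 2) 0) fun j => τ1 (π 2) j
  choose q m c using mem5 h2 (a1.re ir _ _)
  refine run_spec run5 q _ m (fun j => ts5_spec _ ?_) (eq5 _ (m 0) (fun r => ?_) fun u hu =>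
    sn_uniq ((c 0).dt _ _ _ ?_ ?_) ?_) fun j l jl => cl5_eq ▸ h2.adj u5 u5_spec jl (c j) (c l)
  · simp [r2]
  · rw [(c 0).sg, rs]
  · exact (lt5 u hu).1
  · exact (lt5 u hu).2
  · have := rd u hu
    rw [d4_smul, sn_sq, one_mul]
    rw [sn_mul, sn_mul] at this
    linarith

theorem hom_dot (n y : Fin 3 → ℝ) (c : ℝ) :
    ![n 0, n 1, n 2, -c] ⬝ᵥ ![y 0, y 1, y 2, 1] = ev (n, c) y := by
  simp only [ev, dotProduct, Fin.sum_univ_four, Fin.sum_univ_three, cons_val_zero, cons_val_one,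
    cons_val]
  ring

theorem exists_cf (A : Fin s → Set (Fin 3 → ℝ)) (X : ι → Set (Fin 3 → ℝ))
    (a b : Fin s → ι → Fin 3 → ℝ) (cA : ∀ r, Convex ℝ (A r)) (pA : ∀ r, Coplanar ℝ (A r))
    (cX : ∀ j, Convex ℝ (X j)) (pX : ∀ j, Coplanar ℝ (X j)) (ab : ∀ r j, a r j ≠ b r j)
    (eA : ∀ r j, IsExtreme ℝ (A r) (segment ℝ (a r j) (b r j)))
    (eX : ∀ r j, IsExtreme ℝ (X j) (segment ℝ (a r j) (b r j)))
    (d1 : ∀ r q j, q ≠ r → segment ℝ (a r j) (b r j) ≠ segment ℝ (a q j) (b q j))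
    (d2 : ∀ r j l, l ≠ j → segment ℝ (a r j) (b r j) ≠ segment ℝ (a r l) (b r l))
    (nc : ∀ r j, ¬ Coplanar ℝ (A r ∪ X j)) :
    ∃ (F : Fin s → V) (G : ι → V) (x : Fin s → ι → V) (σ τ : Fin s → ι → Bool),
      Cf F G x σ τ := by
  choose n c hn hc using fun r => exists_plane (pA r)
  choose m d hm hd using fun j => exists_plane (pX j)
  have cr := fun r j => cross_of_not_coplanar (hn r) (hm j) (hc r) (hd j)
    ((eA r j).subset (left_mem_segment ℝ _ _)) ((eX r j).subset (left_mem_segment ℝ _ _)) (nc r j)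
  choose σ hσ using fun r j => exists_sn (cX j) (cr r j).2 (hd j) (ab r j) (eX r j)
    fun y hy => hc r y ((eA r j).subset hy)
  choose τ hτ using fun r j => exists_sn (cA r) (cr r j).1 (hc r) (ab r j) (eA r j)
    fun y hy => hd j y ((eX r j).subset hy)
  refine ⟨fun r => ![n r 0, n r 1, n r 2, -c r], fun j => ![m j 0, m j 1, m j 2, -d j],
    fun r j => ![midpoint ℝ (a r j) (b r j) 0, midpoint ℝ (a r j) (b r j) 1,
      midpoint ℝ (a r j) (b r j) 2, 1], σ, τ,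
    fun r j => (hom_dot _ _ _).trans
      (sub_eq_zero.2 (hc r _ ((eA r j).subset (midpoint_mem_segment _ _)))),
    fun r j => (hom_dot _ _ _).trans
      (sub_eq_zero.2 (hd j _ ((eX r j).subset (midpoint_mem_segment _ _)))),
    fun r q j h => ?_, fun r j l h => ?_, fun j h => hm j (funext fun i => ?_)⟩
  · rw [hom_dot]
    exact hσ q j _ _ (ab r j) (eX r j) (d1 r q j h)
  · rw [hom_dot]
    exact hτ r l _ _ (ab r j) (eA r j) (d2 r j l h)
  · fin_cases i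
    exacts [congrFun h 0, congrFun h 1, congrFun h 2]

theorem small {s t : ℕ} (hst : s = 3 ∧ t = 9 ∨ s = 4 ∧ t = 7 ∨ s = 5 ∧ t = 5)
    (A : Fin s → Set (Fin 3 → ℝ)) (X : Fin t → Set (Fin 3 → ℝ))
    (a b : Fin s → Fin t → Fin 3 → ℝ) (cA : ∀ r, Convex ℝ (A r)) (pA : ∀ r, Coplanar ℝ (A r))
    (cX : ∀ j, Convex ℝ (X j)) (pX : ∀ j, Coplanar ℝ (X j)) (ab : ∀ r j, a r j ≠ b r j)
    (eA : ∀ r j, IsExtreme ℝ (A r) (segment ℝ (a r j) (b r j)))
    (eX : ∀ r j, IsExtreme ℝ (X j) (segment ℝ (a r j) (b r j)))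
    (d1 : ∀ r q j, q ≠ r → segment ℝ (a r j) (b r j) ≠ segment ℝ (a q j) (b q j))
    (d2 : ∀ r j l, l ≠ j → segment ℝ (a r j) (b r j) ≠ segment ℝ (a r l) (b r l))
    (nc : ∀ r j, ¬ Coplanar ℝ (A r ∪ X j)) : False := by
  obtain ⟨F, G, x, σ, τ, h⟩ := exists_cf A X a b cA pA cX pX ab eA eX d1 d2 nc
  rcases hst with ⟨rfl, rfl⟩ | ⟨rfl, rfl⟩ | ⟨rfl, rfl⟩
  · obtain ⟨κ, hκ⟩ := three A X a b cA pA cX pX ab eA eX d1 d2 nc
    simpa using Fintype.card_le_of_injective κ hκ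
  · exact no47 h
  · exact no55 h

end Pool.Agent.Lib.MP_6f5d92_co.Bip
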