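import Pool.Agent.Lib.MP_6f5d92_co.BipM

/-! Coplanar neighbours: tilting a plane about the common side. -/

namespace Pool.Agent.Lib.MP_6f5d92_co.Bip

open Matrix Three Filter Topology

variable {s : ℕ} {ι : Type}

theorem ev_pos {a b c : ℝ} (h : 0 < a) : ∀ᶠ ε in 𝓝[>] (0 : ℝ), 0 < a + ε * b + ε * ε * c := by
  have : ContinuousAt (fun ε : ℝ => a + ε * b + ε * ε * c) 0 := by fun_prop
  exact (this.eventually (lt_mem_nhds (by simpa using h))).filter_mono nhdsWithin_le_nhds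

theorem tilt [Finite ι] {F : Fin s → V} {G L : ι → V} {x u : Fin s → ι → V}
    {σ τ : Fin s → ι → Bool} (z1 : ∀ r j, F r ⬝ᵥ x r j = 0) (z2 : ∀ r j, G j ⬝ᵥ x r j = 0)
    (u1 : ∀ r j, F r ⬝ᵥ u r j = 0) (u2 : ∀ r j, G j ⬝ᵥ u r j = 1 ∨ L j ⬝ᵥ x r j = 0)
    (hs : ∀ r q j, q ≠ r → 0 < sn (σ q j) * (F q ⬝ᵥ x r j) ∨
      F q ⬝ᵥ x r j = 0 ∧ 0 < sn (σ q j) * -(L j ⬝ᵥ x r j * F q ⬝ᵥ u r j))
    (ht : ∀ r j l, l ≠ j → 0 < sn (τ r l) * (G l ⬝ᵥ x r j) ∨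
      G l ⬝ᵥ x r j = 0 ∧ G l ⬝ᵥ u r j = 0 ∧ 0 < sn (τ r l) * (L l ⬝ᵥ x r j))
    (r0 : Fin s) (h2 : ∀ l : ι, ∃ j, l ≠ j) :
    ∃ (G' : ι → V) (x' : Fin s → ι → V), Cf F G' x' σ τ := by
  let y : ℝ → Fin s → ι → V := fun ε r j =>
    (1 + ε * L j ⬝ᵥ u r j) • x r j - (ε * L j ⬝ᵥ x r j) • u r j
  have k : ∀ ε r j (w : V), w ⬝ᵥ y ε r j =
      (1 + ε * L j ⬝ᵥ u r j) * w ⬝ᵥ x r j - ε * L j ⬝ᵥ x r j * w ⬝ᵥ u r j := fun ε r j w => by
    simp only [y, dotProduct_sub, dotProduct_smul, smul_eq_mul]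
  have e0 : ∀ᶠ ε in 𝓝[>] (0 : ℝ), 0 < ε := self_mem_nhdsWithin
  have e1 : ∀ᶠ ε in 𝓝[>] (0 : ℝ), ∀ r q j, q ≠ r → 0 < sn (σ q j) * (F q ⬝ᵥ y ε r j) := by
    simp only [eventually_all]
    intro r q j h
    rcases hs r q j h with a | ⟨a, b⟩
    · filter_upwards [ev_pos (b := sn (σ q j) * (L j ⬝ᵥ u r j * F q ⬝ᵥ x r j -
        L j ⬝ᵥ x r j * F q ⬝ᵥ u r j)) (c := 0) a] with ε e
      rw [k]
      linarith
    · filter_upwards [e0] with ε e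
      rw [k, a]
      linarith [mul_pos e b]
  have e2 : ∀ᶠ ε in 𝓝[>] (0 : ℝ), ∀ r j l, l ≠ j →
      0 < sn (τ r l) * ((G l + ε • L l) ⬝ᵥ y ε r j) := by
    simp only [eventually_all]
    intro r j l h
    rcases ht r j l h with a | ⟨a, b, c⟩
    · filter_upwards [ev_pos (b := sn (τ r l) * (L j ⬝ᵥ u r j * G l ⬝ᵥ x r j -
        L j ⬝ᵥ x r j * G l ⬝ᵥ u r j + L l ⬝ᵥ x r j)) (c := sn (τ r l) *
        (L j ⬝ᵥ u r j * L l ⬝ᵥ x r j - L j ⬝ᵥ x r j * L l ⬝ᵥ u r j)) a] with ε e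
      rw [add_dotProduct, smul_dotProduct, k, k, smul_eq_mul]
      linarith
    · filter_upwards [e0, ev_pos (b := sn (τ r l) *
        (L j ⬝ᵥ u r j * L l ⬝ᵥ x r j - L j ⬝ᵥ x r j * L l ⬝ᵥ u r j)) (c := 0) c] with ε e e'
      rw [add_dotProduct, smul_dotProduct, k, k, smul_eq_mul, a, b]
      linarith [mul_pos e e']
  obtain ⟨ε, a, b⟩ := (e1.and e2).exists
  refine ⟨fun j => G j + ε • L j, y ε, fun r j => by rw [k, z1, u1]; ring, fun r j => ?_, a, b,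
    fun l h => ?_⟩
  · rw [add_dotProduct, smul_dotProduct, k, k, smul_eq_mul, z2]
    rcases u2 r j with e | e <;> rw [e] <;> ring
  · obtain ⟨j, hj⟩ := h2 l
    have := b r0 j l hj
    rw [show G l + ε • L l = 0 from h] at this
    simp at this

theorem exists_tilt {m a b : Fin 3 → ℝ} (hm : m ≠ 0) (ab : a ≠ b) (h : m ⬝ᵥ a = m ⬝ᵥ b) :
    ∃ (l : Fin 3 → ℝ) (e : ℝ), m ⨯₃ l ≠ 0 ∧ ∀ y ∈ segment ℝ a b, l ⬝ᵥ y = e := by
  refine ⟨m ⨯₃ (b - a), (m ⨯₃ (b - a)) ⬝ᵥ a, fun h0 => ?_, ?_⟩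
  · rw [cross_cross_eq_smul_sub_smul', dotProduct_sub, h, sub_self, zero_smul, zero_sub,
      neg_eq_zero] at h0
    exact (smul_eq_zero.1 h0).elim (fun e => hm (dotProduct_self_eq_zero.1 e))
      (sub_ne_zero.2 ab.symm)
  · rintro _ ⟨p, q, -, -, pq, rfl⟩
    have e : (m ⨯₃ (b - a)) ⬝ᵥ (b - a) = 0 := by rw [dotProduct_comm]; exact dot_cross_self _ _
    rw [dotProduct_sub, sub_eq_zero] at e
    rw [dotProduct_add, dotProduct_smul, dotProduct_smul, e, smul_eq_mul, smul_eq_mul, ← add_mul,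
      pq, one_mul]

theorem cross_of_off {Q : Set (Fin 3 → ℝ)} {n m a : Fin 3 → ℝ} {c d : ℝ} (hn : n ≠ 0) (hm : m ≠ 0)
    (hQ : ∀ y ∈ Q, n ⬝ᵥ y = c) (aQ : a ∈ Q) (ha : m ⬝ᵥ a = d) (h : ¬ ∀ y ∈ Q, m ⬝ᵥ y = d) :
    n ⨯₃ m ≠ 0 ∧ m ⨯₃ n ≠ 0 := by
  push Not at h
  obtain ⟨y, hy, h0⟩ := h
  have := cross_ne_zero (a := a) (y := y) hn hm ((hQ y hy).trans (hQ a aQ).symm) (by rwa [ha])
  exact ⟨this, fun e => this (by rw [← cross_anticomm, e, neg_zero])⟩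

/-- a plane through two different sides contains the set -/
theorem two_sides {Q : Set (Fin 3 → ℝ)} (pQ : Coplanar ℝ Q) {m a b u v : Fin 3 → ℝ} {d : ℝ}
    (hm : m ≠ 0) (ab : a ≠ b) (he : IsExtreme ℝ Q (segment ℝ a b)) (uv : u ≠ v)
    (hf : IsExtreme ℝ Q (segment ℝ u v)) (ne : segment ℝ a b ≠ segment ℝ u v)
    (h1 : ∀ y ∈ segment ℝ a b, m ⬝ᵥ y = d) (h2 : ∀ y ∈ segment ℝ u v, m ⬝ᵥ y = d) :
    ∀ y ∈ Q, m ⬝ᵥ y = d := by
  obtain ⟨n, c, hn, hc⟩ := exists_plane pQ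
  by_contra h
  exact ne (same_side (cross_of_off hn hm hc (he.subset (left_mem_segment ℝ a b))
    (h1 a (left_mem_segment ℝ a b)) h).1 hc ab he uv hf h2 (midpoint_mem_openSegment a b)
    (h1 _ (midpoint_mem_segment a b)))

theorem exists_cf' [Finite ι] (A : Fin s → Set (Fin 3 → ℝ)) (X : ι → Set (Fin 3 → ℝ))
    (a b : Fin s → ι → Fin 3 → ℝ) (cA : ∀ r, Convex ℝ (A r)) (pA : ∀ r, Coplanar ℝ (A r))
    (cX : ∀ j, Convex ℝ (X j)) (pX : ∀ j, Coplanar ℝ (X j)) (ab : ∀ r j, a r j ≠ b r j)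
    (eA : ∀ r j, IsExtreme ℝ (A r) (segment ℝ (a r j) (b r j)))
    (eX : ∀ r j, IsExtreme ℝ (X j) (segment ℝ (a r j) (b r j)))
    (d1 : ∀ r q j, q ≠ r → segment ℝ (a r j) (b r j) ≠ segment ℝ (a q j) (b q j))
    (d2 : ∀ r j l, l ≠ j → segment ℝ (a r j) (b r j) ≠ segment ℝ (a r l) (b r l))
    (nc : ∀ r q, r ≠ q → ¬ Coplanar ℝ (A r ∪ A q)) (r0 : Fin s) (h2 : ∀ l : ι, ∃ j, l ≠ j) :
    ∃ (F : Fin s → V) (G : ι → V) (x : Fin s → ι → V) (σ τ : Fin s → ι → Bool),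
      Cf F G x σ τ := by
  classical
  choose n c hn hc using fun r => exists_plane (pA r)
  have lA := fun r j => (eA r j).subset (left_mem_segment ℝ _ _)
  have lX := fun r j => (eX r j).subset (left_mem_segment ℝ _ _)
  have mA := fun r j => (eA r j).subset (midpoint_mem_segment (𝕜 := ℝ) _ _)
  have mX := fun r j => (eX r j).subset (midpoint_mem_segment (𝕜 := ℝ) _ _)
  let M : Fin s → ι → Prop := fun r j => ∀ y ∈ X j, n r ⬝ᵥ y = c r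
  have uq : ∀ r q j, M r j → M q j → r = q := fun r q j h1 h3 => by
    by_contra rq
    have k : ¬ ∀ y ∈ A q, n r ⬝ᵥ y = c r := fun h => nc r q rq
      (coplanar_of_plane (hn r) fun y hy => hy.elim (hc r y) (h y))
    exact d1 q r j rq (same_side (cross_of_off (hn q) (hn r) (hc q) (lA q j) (h1 _ (lX q j)) k).1
      h3 (ab q j) (eX q j) (ab r j) (eX r j) (fun y hy => h1 y ((eX r j).subset hy))
      (midpoint_mem_openSegment _ _) (h1 _ (mX q j)))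
  have pl : ∀ j, ∃ (m : Fin 3 → ℝ) (d : ℝ) (l : Fin 3 → ℝ) (e : ℝ), m ≠ 0 ∧
      (∀ y ∈ X j, m ⬝ᵥ y = d) ∧ ∀ r, M r j → m = n r ∧ d = c r ∧ m ⨯₃ l ≠ 0 ∧
        ∀ y ∈ segment ℝ (a r j) (b r j), l ⬝ᵥ y = e := fun j => by
    by_cases h : ∃ r, M r j
    · obtain ⟨r, hr⟩ := h
      obtain ⟨l, e, h1, h3⟩ := exists_tilt (hn r) (ab r j)
        ((hc r _ (lA r j)).trans (hc r _ ((eA r j).subset (right_mem_segment ℝ _ _))).symm)
      exact ⟨n r, c r, l, e, hn r, hr, fun q hq => uq r q j hr hq ▸ ⟨rfl, rfl, h1, h3⟩⟩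
    · obtain ⟨m, d, h1, h3⟩ := exists_plane (pX j)
      exact ⟨m, d, 0, 0, h1, h3, fun r hr => (h ⟨r, hr⟩).elim⟩
  choose m d l e hm hd hM using pl
  have cr := fun r j (h : ¬ M r j) => cross_of_off (hm j) (hn r) (hd j) (lX r j) (hc r _ (lA r j)) h
  let x : Fin s → ι → V := fun r j => ![midpoint ℝ (a r j) (b r j) 0,
    midpoint ℝ (a r j) (b r j) 1, midpoint ℝ (a r j) (b r j) 2, 1]
  let F : Fin s → V := fun r => ![n r 0, n r 1, n r 2, -c r]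
  let G : ι → V := fun j => ![m j 0, m j 1, m j 2, -d j]
  let L : ι → V := fun j => ![l j 0, l j 1, l j 2, -e j]
  have FG : ∀ r j, M r j → G j = F r := fun r j h => by
    simp only [F, G, (hM j r h).1, (hM j r h).2.1]
  have z1 : ∀ r j, F r ⬝ᵥ x r j = 0 := fun r j =>
    (hom_dot _ _ _).trans (sub_eq_zero.2 (hc r _ (mA r j)))
  have z2 : ∀ r j, G j ⬝ᵥ x r j = 0 := fun r j =>
    (hom_dot _ _ _).trans (sub_eq_zero.2 (hd j _ (mX r j)))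
  have sσ : ∀ q j, ∃ v : Bool, ∀ r, q ≠ r → (¬ M q j → 0 < sn v * (F q ⬝ᵥ x r j)) ∧
      (M q j → 0 < sn v * -(L j ⬝ᵥ x r j)) := fun q j => by
    by_cases h : M q j
    · obtain ⟨v, hv⟩ := exists_sn (cX j) (hM j q h).2.2.1 (hd j) (ab q j) (eX q j) (hM j q h).2.2.2
      refine ⟨!v, fun r qr => ⟨fun h' => (h' h).elim, fun _ => ?_⟩⟩
      rw [sn_not, neg_mul_neg, hom_dot]
      exact hv _ _ (ab r j) (eX r j) (d1 r q j qr)
    · obtain ⟨v, hv⟩ := exists_sn (cX j) (cr q j h).1 (hd j) (ab q j) (eX q j)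
        fun y hy => hc q y ((eA q j).subset hy)
      refine ⟨v, fun r qr => ⟨fun _ => ?_, fun h' => (h h').elim⟩⟩
      rw [hom_dot]
      exact hv _ _ (ab r j) (eX r j) (d1 r q j qr)
  have sτ : ∀ r k, ∃ v : Bool, ∀ j, k ≠ j → (¬ M r k → 0 < sn v * (G k ⬝ᵥ x r j)) ∧
      (M r k → 0 < sn v * (L k ⬝ᵥ x r j)) := fun r k => by
    by_cases h : M r k
    · obtain ⟨v, hv⟩ := exists_sn (cA r) ((hM k r h).1 ▸ (hM k r h).2.2.1) (hc r) (ab r k)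
        (eA r k) (hM k r h).2.2.2
      refine ⟨v, fun j kj => ⟨fun h' => (h' h).elim, fun _ => ?_⟩⟩
      rw [hom_dot]
      exact hv _ _ (ab r j) (eA r j) (d2 r j k kj)
    · obtain ⟨v, hv⟩ := exists_sn (cA r) (cr r k h).2 (hc r) (ab r k) (eA r k)
        fun y hy => hd k y ((eX r k).subset hy)
      refine ⟨v, fun j kj => ⟨fun _ => ?_, fun h' => (h h').elim⟩⟩
      rw [hom_dot]
      exact hv _ _ (ab r j) (eA r j) (d2 r j k kj)
  choose σ hσ using sσ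
  choose τ hτ using sτ
  have su : ∀ r j, ∃ u : V, F r ⬝ᵥ u = 0 ∧ (¬ M r j → G j ⬝ᵥ u = 1) := fun r j => by
    obtain ⟨k, hk⟩ := h2 j
    refine ⟨(G j ⬝ᵥ x r k)⁻¹ • x r k, by rw [dotProduct_smul, z1, smul_zero], fun h => ?_⟩
    rw [dotProduct_smul, smul_eq_mul]
    exact inv_mul_cancel₀ fun h0 => by simpa [h0] using (hτ r j k hk).1 h
  choose u u1 u2 using su
  obtain ⟨G', x', h⟩ := tilt (L := L) (σ := σ) (τ := τ) z1 z2 u1 (fun r j => by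
      by_cases h : M r j
      · exact Or.inr ((hom_dot _ _ _).trans
          (sub_eq_zero.2 ((hM j r h).2.2.2 _ (midpoint_mem_segment _ _))))
      · exact Or.inl (u2 r j h)) (fun r q j qr => by
      by_cases h : M q j
      · refine Or.inr ⟨FG q j h ▸ z2 r j, ?_⟩
        rw [← FG q j h, u2 r j fun h' => qr (uq q r j h h'), mul_one]
        exact (hσ q j r qr).2 h
      · exact Or.inl ((hσ q j r qr).1 h)) (fun r j k kj => by
      by_cases h : M r k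
      · exact Or.inr ⟨FG r k h ▸ z1 r j, FG r k h ▸ u1 r j, (hτ r k j kj).2 h⟩
      · exact Or.inl ((hτ r k j kj).1 h)) r0 h2
  exact ⟨F, G', x', σ, τ, h⟩

theorem no39 {F : Fin 3 → V} {G : Fin 9 → V} {x : Fin 3 → Fin 9 → V}
    {σ τ : Fin 3 → Fin 9 → Bool} (h : Cf F G x σ τ) : False := by
  let D : Fin 9 → ℝ := fun j => d4 (F 0) (F 1) (F 2) (G j)
  have hD : ∀ j, D j ≠ 0 := fun j => h.ne (by decide) (by decide) (by decide) j
  let t : Fin 3 → Fin 9 → Bool := fun r j => xn (decide (0 < D j)) (τ r j)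
  let δ : Fin 9 → Fin 9 → Fin 3 → ℝ := fun j l => ![D j * D l * d4 (F 1) (F 2) (G j) (G l),
    -(D j * D l * d4 (F 0) (F 2) (G j) (G l)), D j * D l * d4 (F 0) (F 1) (G j) (G l)]
  have an : ∀ j l r, δ l j r = -δ j l r := fun j l r => by
    fin_cases r <;> simp only [δ, Fin.zero_eta, Fin.mk_one, Fin.reduceFinMk, cons_val_zero,
      cons_val_one, cons_val] <;> rw [d4_34] <;> ring
  have ps : ∀ r j l, j ≠ l → 0 < sn (t r j) * (D l * D l * (D j * (G j ⬝ᵥ x r l))) :=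
    fun r j l jl => by
      have := mul_pos (mul_self_pos.2 (hD l)) (sn_xn (sn_dec (hD j)) (h.ht r l j jl))
      simp only [t]
      linarith
  have rel : ∀ r j l, D l * D l * (D j * (G j ⬝ᵥ x r l)) = δ j l 0 * (F 0 ⬝ᵥ x r l) +
      δ j l 1 * (F 1 ⬝ᵥ x r l) + δ j l 2 * (F 2 ⬝ᵥ x r l) := fun r j l => by
    have e := cramer (F 0) (F 1) (F 2) (G j) (G l) (x r l)
    rw [h.z2] at e
    simp only [δ, cons_val_zero, cons_val_one, cons_val]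
    linear_combination -(D j * D l) * e
  have pr : ∀ j l, j ≠ l →
      (0 < sn (t 0 j == σ 1 l) * δ j l 1 ∨ 0 < sn (t 0 j == σ 2 l) * δ j l 2) ∧
      (0 < sn (t 1 j == σ 0 l) * δ j l 0 ∨ 0 < sn (t 1 j == σ 2 l) * δ j l 2) ∧
      (0 < sn (t 2 j == σ 0 l) * δ j l 0 ∨ 0 < sn (t 2 j == σ 1 l) * δ j l 1) := fun j l jl =>
    ⟨two_terms (ps 0 j l jl) (h.hs 0 1 l (by decide)) (h.hs 0 2 l (by decide))
        (by rw [rel, h.z1]; ring),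
      two_terms (ps 1 j l jl) (h.hs 1 0 l (by decide)) (h.hs 1 2 l (by decide))
        (by rw [rel, h.z1]; ring),
      two_terms (ps 2 j l jl) (h.hs 2 0 l (by decide)) (h.hs 2 1 l (by decide))
        (by rw [rel, h.z1]; ring)⟩
  have inj : Function.Injective fun j => (col (σ 0 j) (t 0 j) (t 0 j) (t 1 j) (t 2 j),
      col (σ 1 j) (t 1 j) (t 0 j) (t 1 j) (t 2 j),
      col (σ 2 j) (t 2 j) (t 0 j) (t 1 j) (t 2 j)) := fun j l e => by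
    by_contra jl
    obtain ⟨a0, a1, a2⟩ := pr j l jl
    obtain ⟨b0, b1, b2⟩ := pr l j (Ne.symm jl)
    simp only [an j l] at b0 b1 b2
    simp only [Prod.mk.injEq] at e
    exact table e.1 e.2.1 e.2.2 (a0.imp of_pos of_pos) (a1.imp of_pos of_pos)
      (a2.imp of_pos of_pos) (b0.imp of_neg of_neg) (b1.imp of_neg of_neg) (b2.imp of_neg of_neg)
  simpa using Fintype.card_le_of_injective _ inj

theorem small' {s t : ℕ} (hst : s = 3 ∧ t = 9 ∨ s = 4 ∧ t = 7 ∨ s = 5 ∧ t = 5)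
    (A : Fin s → Set (Fin 3 → ℝ)) (X : Fin t → Set (Fin 3 → ℝ))
    (a b : Fin s → Fin t → Fin 3 → ℝ) (cA : ∀ r, Convex ℝ (A r)) (pA : ∀ r, Coplanar ℝ (A r))
    (cX : ∀ j, Convex ℝ (X j)) (pX : ∀ j, Coplanar ℝ (X j)) (ab : ∀ r j, a r j ≠ b r j)
    (eA : ∀ r j, IsExtreme ℝ (A r) (segment ℝ (a r j) (b r j)))
    (eX : ∀ r j, IsExtreme ℝ (X j) (segment ℝ (a r j) (b r j)))
    (d1 : ∀ r q j, q ≠ r → segment ℝ (a r j) (b r j) ≠ segment ℝ (a q j) (b q j))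
    (d2 : ∀ r j l, l ≠ j → segment ℝ (a r j) (b r j) ≠ segment ℝ (a r l) (b r l))
    (nc : ∀ r q, r ≠ q → ¬ Coplanar ℝ (A r ∪ A q)) : False := by
  rcases hst with ⟨rfl, rfl⟩ | ⟨rfl, rfl⟩ | ⟨rfl, rfl⟩ <;>
    obtain ⟨F, G, x, σ, τ, h⟩ := exists_cf' A X a b cA pA cX pX ab eA eX d1 d2 nc 0
      fun l => (exists_ne l).imp fun _ => Ne.symm
  exacts [no39 h, no47 h, no55 h]

end Pool.Agent.Lib.MP_6f5d92_co.Bip
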