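import Pool.Agent.Lib.MP_6f5d92_co.Next

/-! The two double counts. -/

namespace Pool.Agent.Lib.MP_6f5d92_co

open Matrix

/-- every edge lies in two faces -/
theorem sum_sides {ι α : Type} [Fintype ι] (S : ι → Set α) (hf : ∀ i, (S i).Finite)
    (h2 : ∀ i, ∀ e ∈ S i, ∃! j, j ≠ i ∧ e ∈ S j) :
    ∑ i, (S i).ncard = 2 * (⋃ i, S i).ncard := by
  classical
  have hU : (⋃ i, S i).Finite := Set.finite_iUnion hf
  have h1 : ∀ i, (S i).ncard = ∑ e ∈ hU.toFinset, if e ∈ S i then 1 else 0 := by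
    intro i
    rw [← Finset.card_filter, ← Set.ncard_coe_finset]
    congr 1
    ext e
    simp only [Finset.coe_filter, Set.Finite.mem_toFinset, Set.mem_iUnion, Set.mem_ofPred_eq]
    exact ⟨fun h => ⟨⟨i, h⟩, h⟩, fun h => h.2⟩
  rw [Finset.sum_congr rfl fun i _ => h1 i, Finset.sum_comm, Set.ncard_eq_toFinset_card _ hU,
    mul_comm, ← smul_eq_mul, ← Finset.sum_const]
  refine Finset.sum_congr rfl fun e he => ?_
  obtain ⟨i, hi⟩ := Set.mem_iUnion.1 (hU.mem_toFinset.1 he)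
  obtain ⟨j, ⟨hji, hj⟩, hu⟩ := h2 i e hi
  rw [← Finset.card_filter, Finset.card_eq_two]
  refine ⟨i, j, hji.symm, ?_⟩
  ext k
  simp only [Finset.mem_filter, Finset.mem_univ, true_and, Finset.mem_insert,
    Finset.mem_singleton]
  constructor
  · intro hk
    by_cases hki : k = i
    · exact Or.inl hki
    · exact Or.inr (hu k ⟨hki, hk⟩)
  · rintro (rfl | rfl)
    · exact hi
    · exact hj

/-- at an end point of a common side of two polygons each of them has a second side -/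
theorem euler_second (V : Finset (Fin 3 → ℝ)) {Q : Set (Fin 3 → ℝ)} {v b : Fin 3 → ℝ}
    (hp : Coplanar ℝ (convexHull ℝ (V : Set (Fin 3 → ℝ)))) (hq : Coplanar ℝ Q)
    (hn : ¬ Coplanar ℝ (convexHull ℝ (V : Set (Fin 3 → ℝ)) ∪ Q)) (hvb : v ≠ b)
    (he : IsExtreme ℝ (convexHull ℝ (V : Set (Fin 3 → ℝ))) (segment ℝ v b))
    (hQ : segment ℝ v b ⊆ Q) :
    ∃ w, w ∉ Q ∧ IsExtreme ℝ (convexHull ℝ (V : Set (Fin 3 → ℝ))) (segment ℝ v w) := by
  obtain ⟨n, c, hn0, hc⟩ := exists_plane hp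
  obtain ⟨m, d, hm0, hd⟩ := exists_plane hq
  have hv : m ⬝ᵥ v = d := hd v (hQ (left_mem_segment ℝ v b))
  have hb : m ⬝ᵥ b = d := hd b (hQ (right_mem_segment ℝ v b))
  have hy : ∃ y ∈ convexHull ℝ (V : Set (Fin 3 → ℝ)), m ⬝ᵥ y ≠ d := by
    by_contra h
    push Not at h
    exact hn (coplanar_of_plane hm0 fun x hx => hx.elim (h x) (hd x))
  obtain ⟨y, hyV, hyd⟩ := hy
  have hx : n ⨯₃ m ≠ 0 := cross_ne_zero (a := v) (y := y) hn0 hm0
    (by rw [hc y hyV, hc v (he.subset (left_mem_segment ℝ v b))]) (by rw [hv]; exact hyd)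
  rcases one_side (convex_convexHull ℝ _) hx hc hvb he hv hb with hs | hs
  · have hx' : n ⨯₃ (-m) ≠ 0 := by
      rw [map_neg]
      exact neg_ne_zero.2 hx
    obtain ⟨w, hw, hw'⟩ := next_side V (d := -d) hx' hc hvb he (by rw [neg_dotProduct, hv])
      (by rw [neg_dotProduct, hb])
      (fun x hx => by rw [neg_dotProduct]; exact neg_le_neg (hs x hx))
      ⟨y, hyV, by rw [neg_dotProduct]; exact fun h => hyd (neg_inj.1 h)⟩
    exact ⟨w, fun h => hw (by rw [neg_dotProduct, hd w h]), hw'⟩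
  · obtain ⟨w, hw, hw'⟩ := next_side V hx hc hvb he hv hb hs ⟨y, hyV, hyd⟩
    exact ⟨w, fun h => hw (hd w h), hw'⟩

/-- every vertex lies on three edges -/
theorem three_vertices {ι : Type} [Fintype ι] (V : ι → Finset (Fin 3 → ℝ))
    (P : ι → Set (Fin 3 → ℝ)) (S : ι → Set (Set (Fin 3 → ℝ)))
    (hP : ∀ i, P i = convexHull ℝ (V i : Set (Fin 3 → ℝ))) (hpl : ∀ i, Coplanar ℝ (P i))
    (hS : ∀ i e, e ∈ S i ↔ IsExtreme ℝ (P i) e ∧ ∃ a b, a ≠ b ∧ e = segment ℝ a b)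
    (h2 : ∀ i, ∀ e ∈ S i, ∃ j, j ≠ i ∧ e ∈ S j)
    (hnc : ∀ i j, i ≠ j → ∀ e ∈ S i, e ∈ S j → ¬ Coplanar ℝ (P i ∪ P j))
    (hf : ∀ i, (S i).Finite) :
    3 * {v | ∃ i w, v ≠ w ∧ segment ℝ v w ∈ S i}.ncard ≤ 2 * (⋃ i, S i).ncard := by
  classical
  by_cases hW : {v | ∃ i w, v ≠ w ∧ segment ℝ v w ∈ S i}.Finite
  swap
  · rw [Set.Infinite.ncard hW]
    exact Nat.zero_le _
  have hU : (⋃ i, S i).Finite := Set.finite_iUnion hf
  have key : ∀ i j v b, i ≠ j → v ≠ b → segment ℝ v b ∈ S i → segment ℝ v b ∈ S j →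
      ∃ w, w ∉ P j ∧ v ≠ w ∧ segment ℝ v w ∈ S i := by
    intro i j v b hij hvb hi hj
    have hs := ((hS j _).1 hj).1.subset
    obtain ⟨w, hw, hw'⟩ := euler_second (V i) (hP i ▸ hpl i) (hpl j)
      (hP i ▸ hnc i j hij _ hi hj) hvb (hP i ▸ ((hS i _).1 hi).1) hs
    have hvw : v ≠ w := fun h => hw (h ▸ hs (left_mem_segment ℝ v b))
    exact ⟨w, hw, hvw, (hS i _).2 ⟨hP i ▸ hw', v, w, hvw, rfl⟩⟩
  rw [Set.ncard_eq_toFinset_card _ hW, Set.ncard_eq_toFinset_card _ hU, mul_comm 3, mul_comm 2]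
  refine Finset.card_mul_le_card_mul (fun v e => ∃ w, v ≠ w ∧ e = segment ℝ v w)
    (fun v hv => ?_) fun e he => ?_
  · obtain ⟨i, b, hvb, hi⟩ := hW.mem_toFinset.1 hv
    obtain ⟨j, hji, hj⟩ := h2 i _ hi
    obtain ⟨w, hw, hvw, hw'⟩ := key i j v b hji.symm hvb hi hj
    obtain ⟨u, hu, hvu, hu'⟩ := key j i v b hji hvb hj hi
    have si := ((hS i _).1 hi).1.subset
    have sj := ((hS j _).1 hj).1.subset
    have su := ((hS j _).1 hu').1.subset
    refine Finset.two_lt_card_iff.2 ⟨segment ℝ v b, segment ℝ v w, segment ℝ v u, ?_, ?_, ?_,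
      fun h => hw (sj (by rw [h]; exact right_mem_segment ℝ v w)),
      fun h => hu (si (by rw [h]; exact right_mem_segment ℝ v u)),
      fun h => hw (su (by rw [← h]; exact right_mem_segment ℝ v w))⟩
    · exact (Finset.mem_bipartiteAbove _).2
        ⟨hU.mem_toFinset.2 (Set.mem_iUnion.2 ⟨i, hi⟩), b, hvb, rfl⟩
    · exact (Finset.mem_bipartiteAbove _).2
        ⟨hU.mem_toFinset.2 (Set.mem_iUnion.2 ⟨i, hw'⟩), w, hvw, rfl⟩
    · exact (Finset.mem_bipartiteAbove _).2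
        ⟨hU.mem_toFinset.2 (Set.mem_iUnion.2 ⟨j, hu'⟩), u, hvu, rfl⟩
  · obtain ⟨i, hi⟩ := Set.mem_iUnion.1 (hU.mem_toFinset.1 he)
    obtain ⟨-, a, b, -, rfl⟩ := (hS i e).1 hi
    refine (Finset.card_le_card (t := {a, b}) fun v hv => ?_).trans Finset.card_le_two
    obtain ⟨-, w, hvw, h⟩ := (Finset.mem_bipartiteBelow _).1 hv
    rcases end_eq hvw h with rfl | rfl
    · exact Finset.mem_insert_self _ _
    · exact Finset.mem_insert_of_mem (Finset.mem_singleton_self _)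

end Pool.Agent.Lib.MP_6f5d92_co
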