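import Pool.Agent.Lib.MP_6f5d92_co.Main

/-! The smallest face. -/

namespace Pool.Agent.Lib.MP_6f5d92_co

open Finset

theorem exists_small {ι : Type} [Fintype ι] [Nonempty ι] (p : ι → ℕ) {C : ℕ}
    (h : ∑ i, p i ^ 2 ≤ C * Fintype.card ι ^ 2) :
    ∃ i, p i ^ 2 ≤ C * Fintype.card ι ∧ Fintype.card ι * p i ≤ ∑ j, p j := by
  obtain ⟨i, -, hi⟩ := exists_min_image univ p univ_nonempty
  have h1 : Fintype.card ι * p i ^ 2 ≤ ∑ j, p j ^ 2 := by
    simpa using card_nsmul_le_sum univ (fun j => p j ^ 2) (p i ^ 2)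
      fun j hj => Nat.pow_le_pow_left (hi j hj) 2
  refine ⟨i, Nat.le_of_mul_le_mul_left (h1.trans (h.trans (le_of_eq (by ring))))
    Fintype.card_pos, ?_⟩
  simpa using card_nsmul_le_sum univ p (p i) hi

theorem genus_arith {p F E V g : ℤ} (hg : 0 ≤ g) (h1 : p ^ 2 ≤ 450 * F)
    (h2 : F * p ≤ 2 * E) (h3 : 3 * V ≤ 2 * E) (h4 : V - E + F = 2 - 2 * g) :
    (p - 6) ^ 3 ≤ 5400 * g := by
  rcases le_or_gt p 6 with h | h
  · have : (p - 6) ^ 3 ≤ 0 := Odd.pow_nonpos (by decide) (by linarith)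
    linarith
  · have a1 : (p - 6) * F ≤ 12 * g := by nlinarith
    have a2 : (p - 6) ^ 2 ≤ 450 * F := by nlinarith
    have a3 : (p - 6) * (p - 6) ^ 2 ≤ (p - 6) * (450 * F) :=
      mul_le_mul_of_nonneg_left a2 (by linarith)
    nlinarith

end Pool.Agent.Lib.MP_6f5d92_co
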