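import Pool.Agent.Lib.MP_6f5d92_co.Psd

/-! Lists without three symbols in the same order. -/

namespace Pool.Agent.Lib.MP_6f5d92_co

open Finset

/-- an initial segment of every length -/
theorem halves_seg {S : Type} [DecidableEq S] (A : Finset S) (κ : S → ℝ)
    (hinj : Set.InjOn κ A) (k : ℕ) (hk : k ≤ A.card) :
    ∃ L : Finset S, L ⊆ A ∧ L.card = k ∧ ∀ a ∈ L, ∀ b ∈ A \ L, κ a < κ b := by
  induction k with
  | zero => exact ⟨∅, empty_subset _, rfl, fun a ha => absurd ha (notMem_empty a)⟩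
  | succ k ih =>
    obtain ⟨L, h1, h2, h3⟩ := ih (by omega)
    have h4 : (A \ L).Nonempty := by
      rw [← card_pos, card_sdiff_of_subset h1]
      omega
    obtain ⟨m, hm, hmin⟩ := exists_min_image (A \ L) κ h4
    have hmA := mem_sdiff.1 hm
    refine ⟨insert m L, insert_subset hmA.1 h1, by rw [card_insert_of_notMem hmA.2, h2],
      fun a ha b hb => ?_⟩
    have hb1 := mem_sdiff.1 hb
    have hb2 : b ∈ A \ L := mem_sdiff.2 ⟨hb1.1, fun e => hb1.2 (mem_insert_of_mem e)⟩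
    rcases mem_insert.1 ha with rfl | ha
    · refine lt_of_le_of_ne (hmin b hb2) fun e => hb1.2 ?_
      rw [← hinj hmA.1 hb1.1 e]
      exact mem_insert_self _ _
    · exact h3 a ha b hb2

/-- a list splits into a first and a second half -/
theorem halves {S : Type} [DecidableEq S] (A : Finset S) (κ : S → ℝ) (hinj : Set.InjOn κ A) :
    ∃ L R : Finset S, Disjoint L R ∧ L ∪ R = A ∧ (∀ a ∈ L, ∀ b ∈ R, κ a < κ b) ∧
      (A.card : ℝ) ^ 2 ≤ 4 * (L.card * R.card) + 1 := by
  obtain ⟨L, h1, h2, h3⟩ := halves_seg A κ hinj (A.card / 2) (Nat.div_le_self _ _)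
  refine ⟨L, A \ L, disjoint_sdiff, union_sdiff_of_subset h1, h3, ?_⟩
  have h4 : A.card ^ 2 ≤ 4 * (L.card * (A \ L).card) + 1 := by
    rw [card_sdiff_of_subset h1, h2]
    generalize A.card = m
    obtain ⟨q, rfl | rfl⟩ := Nat.even_or_odd' m
    · rw [show 2 * q / 2 = q by omega, show 2 * q - q = q by omega]
      nlinarith
    · rw [show (2 * q + 1) / 2 = q by omega, show 2 * q + 1 - q = q + 1 by omega]
      nlinarith
  exact_mod_cast h4


theorem lb_ind_inter {S : Type} [Fintype S] [DecidableEq S] (P Q : Finset S) :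
    ∑ s, (if s ∈ P then (1 : ℝ) else 0) * (if s ∈ Q then (1 : ℝ) else 0) = (P ∩ Q).card := by
  have h : ∀ s, (if s ∈ P then (1 : ℝ) else 0) * (if s ∈ Q then (1 : ℝ) else 0) =
      if s ∈ P ∩ Q then (1 : ℝ) else 0 := by
    intro s
    by_cases h1 : s ∈ P <;> by_cases h2 : s ∈ Q <;> simp [h1, h2]
  simp only [h]
  rw [Finset.sum_ite_mem, Finset.univ_inter]
  simp

theorem lb_ind {S : Type} [Fintype S] [DecidableEq S] (P : Finset S) :
    ∑ s, (if s ∈ P then (1 : ℝ) else 0) = P.card := by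
  rw [Finset.sum_ite_mem, Finset.univ_inter]
  simp

theorem lb_cs {I S : Type} [Fintype I] [Fintype S] [DecidableEq S] (L R : I → Finset S) :
    (∑ i, ((L i).card : ℝ) * (R i).card) ^ 2 ≤ (Fintype.card S : ℝ) ^ 2 *
      ∑ p : I × I, ((L p.1 ∩ L p.2).card : ℝ) * (R p.1 ∩ R p.2).card := by
  let u : I → S → ℝ := fun i s => if s ∈ L i then 1 else 0
  let w : I → S → ℝ := fun i s => if s ∈ R i then 1 else 0
  have h1 : ∑ q : S × S, ∑ i, u i q.1 * w i q.2 = ∑ i, ((L i).card : ℝ) * (R i).card := by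
    rw [Finset.sum_comm]
    refine Finset.sum_congr rfl fun i _ => ?_
    rw [Fintype.sum_prod_type, ← Finset.sum_mul_sum]
    simp only [u, w]
    rw [lb_ind, lb_ind]
  have h2 : ∑ q : S × S, (∑ i, u i q.1 * w i q.2) ^ 2 =
      ∑ p : I × I, ((L p.1 ∩ L p.2).card : ℝ) * (R p.1 ∩ R p.2).card := by
    have e : ∀ q : S × S, (∑ i, u i q.1 * w i q.2) ^ 2 =
        ∑ p : I × I, (u p.1 q.1 * u p.2 q.1) * (w p.1 q.2 * w p.2 q.2) := by
      intro q
      rw [sq, Finset.sum_mul_sum, Fintype.sum_prod_type]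
      exact Finset.sum_congr rfl fun i _ => Finset.sum_congr rfl fun j _ => by ring
    simp only [e]
    rw [Finset.sum_comm]
    refine Finset.sum_congr rfl fun p _ => ?_
    rw [Fintype.sum_prod_type, ← lb_ind_inter, ← lb_ind_inter, Finset.sum_mul_sum]
  have h3 := sq_sum_le_card_mul_sum_sq (s := (univ : Finset (S × S)))
    (f := fun q => ∑ i, u i q.1 * w i q.2)
  rw [h1, h2, Finset.card_univ, Fintype.card_prod] at h3
  push_cast at h3
  rw [sq (Fintype.card S : ℝ)]
  exact h3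

theorem lb_split {I S : Type} [Fintype I] [DecidableEq I] [DecidableEq S] (L R : I → Finset S) :
    ∑ p : I × I, ((L p.1 ∩ L p.2).card : ℝ) * (R p.1 ∩ R p.2).card ≤
      ∑ i, ((L i).card : ℝ) * (R i).card +
      ∑ p ∈ univ.filter (fun p : I × I =>
          p.1 ≠ p.2 ∧ (L p.1 ∩ L p.2).Nonempty ∧ (R p.1 ∩ R p.2).Nonempty),
        (((L p.1 ∩ L p.2).card : ℝ) ^ 2 + ((R p.1 ∩ R p.2).card : ℝ) ^ 2) / 2 := by
  have e : ∑ i, ((L i).card : ℝ) * (R i).card =
      ∑ p : I × I, if p.1 = p.2 then ((L p.1).card : ℝ) * (R p.1).card else 0 := by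
    rw [Fintype.sum_prod_type]
    refine Finset.sum_congr rfl fun i _ => ?_
    simp
  rw [e, Finset.sum_filter, ← Finset.sum_add_distrib]
  refine Finset.sum_le_sum fun p _ => ?_
  by_cases h : p.1 = p.2
  · simp [h]
  · by_cases hl : (L p.1 ∩ L p.2).Nonempty
    · by_cases hr : (R p.1 ∩ R p.2).Nonempty
      · rw [if_neg h, if_pos ⟨h, hl, hr⟩]
        nlinarith [sq_nonneg (((L p.1 ∩ L p.2).card : ℝ) - (R p.1 ∩ R p.2).card)]
      · rw [if_neg h, if_neg fun c => hr c.2.2, Finset.not_nonempty_iff_eq_empty.1 hr]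
        simp
    · rw [if_neg h, if_neg fun c => hl c.2.1, Finset.not_nonempty_iff_eq_empty.1 hl]
      simp

theorem lists_bound {I S : Type} [Fintype I] [Fintype S] [DecidableEq I] [DecidableEq S]
    (A : I → Finset S) (κ : I → S → ℝ) (hinj : ∀ i, Set.InjOn (κ i) (A i))
    (h3 : ∀ i j, i ≠ j → ∀ a ∈ A i ∩ A j, ∀ b ∈ A i ∩ A j, ∀ c ∈ A i ∩ A j,
      κ i a < κ i b → κ i b < κ i c → κ j a < κ j b → κ j b < κ j c → False) :
    ∃ X : ℝ, ∑ i, ((A i).card : ℝ) ^ 2 ≤ 4 * X + Fintype.card I ∧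
      2 * X ^ 2 ≤ (Fintype.card S : ℝ) ^ 2 * (∑ i, ((A i).card : ℝ) ^ 2 +
        ∑ s, ((univ.filter fun i => s ∈ A i).card : ℝ) ^ 2) := by
  choose L R hd hu hlt hc using fun i => halves (A i) (κ i) (hinj i)
  have hLA : ∀ i, L i ⊆ A i := fun i => hu i ▸ Finset.subset_union_left
  have hRA : ∀ i, R i ⊆ A i := fun i => hu i ▸ Finset.subset_union_right
  have hLL : ∀ i j, L i ∩ L j ⊆ A i ∩ A j := fun i j => Finset.inter_subset_inter (hLA i) (hLA j)
  have hRR : ∀ i j, R i ∩ R j ⊆ A i ∩ A j := fun i j => Finset.inter_subset_inter (hRA i) (hRA j)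
  refine ⟨∑ i, ((L i).card : ℝ) * (R i).card, ?_, ?_⟩
  · calc ∑ i, ((A i).card : ℝ) ^ 2 ≤ ∑ i, (4 * (((L i).card : ℝ) * (R i).card) + 1) :=
          Finset.sum_le_sum fun i _ => hc i
      _ = _ := by rw [Finset.sum_add_distrib, ← Finset.mul_sum]; simp
  · have c1 := lb_cs L R
    have c2 := lb_split L R
    set G := univ.filter (fun p : I × I =>
      p.1 ≠ p.2 ∧ (L p.1 ∩ L p.2).Nonempty ∧ (R p.1 ∩ R p.2).Nonempty) with hG
    have pL := psd L κ (fun i => (hinj i).mono (Finset.coe_subset.2 (hLA i)))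
      (fun i j hij a ha b hb c hc' => h3 i j hij a (hLL i j ha) b (hLL i j hb) c (hLL i j hc'))
      G (by
        intro p hp
        obtain ⟨hne, -, c, hcR⟩ := (Finset.mem_filter.1 hp).2
        refine ⟨hne, fun a ha b hb h1 h2 => ?_⟩
        exact h3 _ _ hne a (hLL _ _ ha) b (hLL _ _ hb) c (hRR _ _ hcR) h1
          (hlt _ b (Finset.mem_inter.1 hb).1 c (Finset.mem_inter.1 hcR).1) h2
          (hlt _ b (Finset.mem_inter.1 hb).2 c (Finset.mem_inter.1 hcR).2))
    have pR := psd R κ (fun i => (hinj i).mono (Finset.coe_subset.2 (hRA i)))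
      (fun i j hij a ha b hb c hc' => h3 i j hij a (hRR i j ha) b (hRR i j hb) c (hRR i j hc'))
      G (by
        intro p hp
        obtain ⟨hne, ⟨c, hcL⟩, -⟩ := (Finset.mem_filter.1 hp).2
        refine ⟨hne, fun a ha b hb h1 h2 => ?_⟩
        exact h3 _ _ hne c (hLL _ _ hcL) a (hRR _ _ ha) b (hRR _ _ hb)
          (hlt _ c (Finset.mem_inter.1 hcL).1 a (Finset.mem_inter.1 ha).1) h1
          (hlt _ c (Finset.mem_inter.1 hcL).2 a (Finset.mem_inter.1 ha).2) h2)
    have hA : ∑ i, ((A i).card : ℝ) ^ 2 = ∑ i, ((L i).card : ℝ) ^ 2 + ∑ i, ((R i).card : ℝ) ^ 2 +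
        2 * ∑ i, ((L i).card : ℝ) * (R i).card := by
      rw [Finset.mul_sum, ← Finset.sum_add_distrib, ← Finset.sum_add_distrib]
      refine Finset.sum_congr rfl fun i _ => ?_
      rw [← hu i, Finset.card_union_of_disjoint (hd i)]
      push_cast
      ring
    have hS : ∑ s, ((univ.filter fun i => s ∈ L i).card : ℝ) ^ 2 +
        ∑ s, ((univ.filter fun i => s ∈ R i).card : ℝ) ^ 2 ≤
        ∑ s, ((univ.filter fun i => s ∈ A i).card : ℝ) ^ 2 := by
      rw [← Finset.sum_add_distrib]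
      refine Finset.sum_le_sum fun s _ => ?_
      have e : (univ.filter fun i => s ∈ A i) =
          (univ.filter fun i => s ∈ L i) ∪ (univ.filter fun i => s ∈ R i) := by
        ext i
        simp [← hu i]
      have hdj : Disjoint (univ.filter fun i => s ∈ L i) (univ.filter fun i => s ∈ R i) := by
        rw [Finset.disjoint_left]
        intro i h1 h2
        exact Finset.disjoint_left.1 (hd i) (Finset.mem_filter.1 h1).2 (Finset.mem_filter.1 h2).2
      rw [e, Finset.card_union_of_disjoint hdj]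
      push_cast
      have := mul_nonneg (Nat.cast_nonneg (α := ℝ) (univ.filter fun i => s ∈ L i).card)
        (Nat.cast_nonneg (α := ℝ) (univ.filter fun i => s ∈ R i).card)
      nlinarith
    rw [← Finset.sum_div, Finset.sum_add_distrib] at c2
    have hn : (0 : ℝ) ≤ (Fintype.card S : ℝ) ^ 2 := sq_nonneg _
    have key : 2 * ∑ p : I × I, ((L p.1 ∩ L p.2).card : ℝ) * (R p.1 ∩ R p.2).card ≤
        ∑ i, ((A i).card : ℝ) ^ 2 + ∑ s, ((univ.filter fun i => s ∈ A i).card : ℝ) ^ 2 := by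
      linarith
    nlinarith [mul_le_mul_of_nonneg_left key hn]

end Pool.Agent.Lib.MP_6f5d92_co
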