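import Pool.Agent.Lib.MP_6f5d92_co.Alg
import Pool.Agent.Lib.MP_6f5d92_co.Lists

/-! The graph of convex contacts between oriented planes. -/

namespace Pool.Agent.Lib.MP_6f5d92_co

open Matrix Finset

/-- oriented planes, a symmetric relation and a contact point for every related pair -/
structure Contact {W : Type} (adj : W → W → Prop) (n : W → Fin 3 → ℝ) (c : W → ℝ)
    (x : W → W → Fin 3 → ℝ) : Prop where
  symm : ∀ u v, adj u v → adj v u
  cr : ∀ u v, adj u v → n u ⨯₃ n v ≠ 0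
  z1 : ∀ u v, adj u v → n u ⬝ᵥ x u v = c u
  z2 : ∀ u v, adj u v → n v ⬝ᵥ x u v = c v
  l1 : ∀ u v w, adj u v → adj u w → w ≠ v → n w ⬝ᵥ x u v < c w
  l2 : ∀ u v w, adj u v → adj v w → w ≠ u → n w ⬝ᵥ x u v < c w

variable {W : Type} {adj : W → W → Prop} {n : W → Fin 3 → ℝ} {c : W → ℝ} {x : W → W → Fin 3 → ℝ}

theorem Contact.dt_neg (h : Contact adj n c x) {u a b d : W} (ha : adj u a) (hb : adj u b)
    (hd : adj u d) (ab : a ≠ b) (db : d ≠ b) (t1 : 0 < tr (n u) (n a) (n b))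
    (t2 : 0 < tr (n u) (n b) (n d)) : dt (n u) (n a) (n b) (n d) (c u) (c a) (c b) (c d) < 0 := by
  rw [dt_eval _ _ _ _ (x u b), h.z1 u b hb, h.z2 u b hb]
  have h1 := mul_pos (sub_pos.2 (h.l1 u b a hb ha ab)) t2
  have h2 := mul_pos (sub_pos.2 (h.l1 u b d hb hd db)) t1
  linarith

/-- two oriented planes see three common neighbours in opposite orders -/
theorem Contact.rev (h : Contact adj n c x) {u v a b d : W} (uv : u ≠ v) (ua : adj u a)
    (ub : adj u b) (ud : adj u d) (va : adj v a) (vb : adj v b) (vd : adj v d) (ab : a ≠ b)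
    (ad : a ≠ d) (bd : b ≠ d) (du : dt (n u) (n a) (n b) (n d) (c u) (c a) (c b) (c d) < 0)
    (dv : dt (n v) (n a) (n b) (n d) (c v) (c a) (c b) (c d) < 0) : False := by
  have k := fun y => cramer5 (n u) (n v) (n a) (n b) (n d) y (c u) (c v) (c a) (c b) (c d)
  have pu : ∀ w, adj u w → adj v w → 0 < c v - n v ⬝ᵥ x u w := fun w h1 h2 =>
    sub_pos.2 (h.l2 u w v h1 (h.symm v w h2) uv.symm)
  have pv : ∀ w, adj u w → adj v w → 0 < c u - n u ⬝ᵥ x v w := fun w h1 h2 =>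
    sub_pos.2 (h.l2 v w u h2 (h.symm u w h1) uv)
  have p : ∀ {z w y : W}, adj z w → adj z y → y ≠ w → 0 < c y - n y ⬝ᵥ x z w := fun h1 h2 h3 =>
    sub_pos.2 (h.l1 _ _ _ h1 h2 h3)
  refine three_signs (a := dt (n u) (n v) (n b) (n d) (c u) (c v) (c b) (c d))
    (b := -dt (n u) (n v) (n a) (n d) (c u) (c v) (c a) (c d))
    (c := dt (n u) (n v) (n a) (n b) (c u) (c v) (c a) (c b)) ?_ ?_ ?_ ?_ ?_ ?_
  · have k1 := k (x v a)
    rw [h.z1 v a va, h.z2 v a va] at k1
    exact pos_or (p va vb ab.symm) (p va vd ad.symm)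
      (by linarith [mul_pos (neg_pos.2 dv) (pv a ua va)])
  · have k1 := k (x v b)
    rw [h.z1 v b vb, h.z2 v b vb] at k1
    exact pos_or (p vb va ab) (p vb vd bd.symm)
      (by linarith [mul_pos (neg_pos.2 dv) (pv b ub vb)])
  · have k1 := k (x v d)
    rw [h.z1 v d vd, h.z2 v d vd] at k1
    exact pos_or (p vd va ad) (p vd vb bd)
      (by linarith [mul_pos (neg_pos.2 dv) (pv d ud vd)])
  · have k1 := k (x u a)
    rw [h.z1 u a ua, h.z2 u a ua] at k1
    exact neg_or (p ua ub ab.symm) (p ua ud ad.symm)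
      (by linarith [mul_pos (neg_pos.2 du) (pu a ua va)])
  · have k1 := k (x u b)
    rw [h.z1 u b ub, h.z2 u b ub] at k1
    exact neg_or (p ub ua ab) (p ub ud bd.symm)
      (by linarith [mul_pos (neg_pos.2 du) (pu b ub vb)])
  · have k1 := k (x u d)
    rw [h.z1 u d ud, h.z2 u d ud] at k1
    exact neg_or (p ud ua ad) (p ud ub bd)
      (by linarith [mul_pos (neg_pos.2 du) (pu d ud vd)])

theorem Contact.tr_ne (h : Contact adj n c x) {u a b : W} (ua : adj u a) (ub : adj u b)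
    (ab : a ≠ b) {g : Fin 3 → ℝ} (hg : 0 < tr (n u) (n a) g * tr (n u) (n b) g) :
    tr (n u) (n a) (n b) ≠ 0 := fun h0 => by
  have k := four_id (n u) (n a) (n b) g (x u b - x u a)
  simp only [dotProduct_sub] at k
  rw [h0, h.z1 u a ua, h.z1 u b ub, h.z2 u a ua, h.z2 u b ub] at k
  have h1 := sub_pos.2 (h.l1 u b a ub ua ab)
  have h2 := sub_pos.2 (h.l1 u a b ua ub ab.symm)
  have h3 : tr (n u) (n b) g * (c a - n a ⬝ᵥ x u b) +
      tr (n u) (n a) g * (c b - n b ⬝ᵥ x u a) = 0 := by linarith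
  rcases pos_and_pos_or_neg_and_neg_of_mul_pos hg with ⟨q1, q2⟩ | ⟨q1, q2⟩
  · linarith [mul_pos q2 h1, mul_pos q1 h2]
  · linarith [mul_pos (neg_pos.2 q2) h1, mul_pos (neg_pos.2 q1) h2]

theorem Contact.exists_generic [Finite W] (h : Contact adj n c x) :
    ∃ g : Fin 3 → ℝ, ∀ u v, adj u v → tr (n u) (n v) g ≠ 0 := by
  obtain ⟨f, hf⟩ := Module.exists_dual_forall_apply_ne_zero (K := ℝ)
    (fun p : {p : W × W // adj p.1 p.2} => n p.1.1 ⨯₃ n p.1.2) fun p => h.cr _ _ p.2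
  refine ⟨fun k => f (Pi.single k 1), fun u v huv h0 => hf ⟨(u, v), huv⟩ ?_⟩
  rw [← cross_dot] at h0
  rw [← h0, LinearMap.pi_apply_eq_sum_univ f, dotProduct]
  refine Finset.sum_congr rfl fun k _ => ?_
  rw [smul_eq_mul]
  congr 2
  ext j
  simp [Pi.single_apply, eq_comm]

theorem arith_bound {N D X : ℝ} (hN : 0 ≤ N) (h1 : N = 0 ∨ 1 ≤ N)
    (a1 : D ≤ 4 * X + N * 2) (a2 : 2 * X ^ 2 ≤ N ^ 2 * (3 * D)) : D ≤ 28 * N ^ 2 := by
  by_contra h0
  rw [not_le] at h0
  have b1 : N ≤ N ^ 2 := by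
    rcases h1 with h1 | h1
    · rw [h1]; norm_num
    · nlinarith
  have b2 : 0 < D := lt_of_le_of_lt (by positivity) h0
  have b3 : 13 * D ≤ 56 * X := by linarith
  have b4 : (13 * D) ^ 2 ≤ (56 * X) ^ 2 := pow_le_pow_left₀ (by positivity) b3 2
  have b5 : 28 * N ^ 2 * D < D * D := mul_lt_mul_of_pos_right h0 b2
  nlinarith

theorem Contact.bound [Fintype W] [DecidableRel adj] (h : Contact adj n c x) :
    ∑ u, ((univ.filter fun w => adj u w).card : ℝ) ^ 2 ≤ 56 * (Fintype.card W : ℝ) ^ 2 := by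
  classical
  obtain ⟨g, hg⟩ := h.exists_generic
  set A : W × Bool → Finset W := fun p =>
    univ.filter fun w => adj p.1 w ∧ decide (0 < tr (n p.1) (n w) g) = p.2 with hA
  have mem : ∀ p w, w ∈ A p ↔ adj p.1 w ∧ decide (0 < tr (n p.1) (n w) g) = p.2 := fun p w => by
    simp only [hA, mem_filter, mem_univ, true_and]
  have same : ∀ p a b, a ∈ A p → b ∈ A p → 0 < tr (n p.1) (n a) g * tr (n p.1) (n b) g :=
    fun p a b ha hb => by
      rw [mem] at ha hb
      have e1 : (0 < tr (n p.1) (n a) g) ↔ 0 < tr (n p.1) (n b) g :=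
        decide_eq_decide.1 (ha.2.trans hb.2.symm)
      by_cases q : 0 < tr (n p.1) (n a) g
      · exact mul_pos q (e1.1 q)
      · exact mul_pos_of_neg_of_neg (lt_of_le_of_ne (not_lt.1 q) (hg _ _ ha.1))
          (lt_of_le_of_ne (not_lt.1 fun q' => q (e1.2 q')) (hg _ _ hb.1))
  have neg : ∀ p a b d, a ∈ A p → b ∈ A p → d ∈ A p →
      tr (n p.1) (n a) (n p.1 ⨯₃ g) / tr (n p.1) (n a) g <
        tr (n p.1) (n b) (n p.1 ⨯₃ g) / tr (n p.1) (n b) g →
      tr (n p.1) (n b) (n p.1 ⨯₃ g) / tr (n p.1) (n b) g <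
        tr (n p.1) (n d) (n p.1 ⨯₃ g) / tr (n p.1) (n d) g →
      dt (n p.1) (n a) (n b) (n d) (c p.1) (c a) (c b) (c d) < 0 :=
    fun p a b d ha hb hd k1 k2 => h.dt_neg ((mem _ _).1 ha).1 ((mem _ _).1 hb).1 ((mem _ _).1 hd).1
      (fun e => k1.ne (by rw [e])) (fun e => k2.ne (by rw [e])) (tr_pos (same p a b ha hb) k1)
      (tr_pos (same p b d hb hd) k2)
  obtain ⟨X, a1, a2⟩ := lists_bound A
    (fun p w => tr (n p.1) (n w) (n p.1 ⨯₃ g) / tr (n p.1) (n w) g)
    (fun p a ha b hb e => by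
      by_contra ab
      exact h.tr_ne ((mem _ _).1 ha).1 ((mem _ _).1 hb).1 ab (same p a b ha hb)
        (tr_zero (same p a b ha hb) e))
    (fun p q pq a ha b hb d hd k1 k2 k3 k4 => by
      rw [mem_inter] at ha hb hd
      refine h.rev (u := p.1) (v := q.1) (fun e => pq (Prod.ext e ?_)) ((mem _ _).1 ha.1).1
        ((mem _ _).1 hb.1).1 ((mem _ _).1 hd.1).1 ((mem _ _).1 ha.2).1 ((mem _ _).1 hb.2).1
        ((mem _ _).1 hd.2).1 (fun e => k1.ne (by rw [e])) (fun e => (k1.trans k2).ne (by rw [e]))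
        (fun e => k2.ne (by rw [e])) (neg p a b d ha.1 hb.1 hd.1 k1 k2)
        (neg q a b d ha.2 hb.2 hd.2 k3 k4)
      rw [← ((mem _ _).1 ha.1).2, ← ((mem _ _).1 ha.2).2, e])
  have c1 : ∀ u, ((univ.filter fun w => adj u w).card : ℝ) =
      (A (u, true)).card + (A (u, false)).card := fun u => by
    rw [← Nat.cast_add, ← card_union_of_disjoint]
    · congr 2
      ext w
      simp only [mem_union, mem, mem_filter, mem_univ, true_and]
      cases decide (0 < tr (n u) (n w) g) <;> simp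
    · refine disjoint_left.2 fun w h1 h2 => ?_
      have := ((mem _ _).1 h1).2.symm.trans ((mem _ _).1 h2).2
      simp at this
  have c2 : ∀ s, (univ.filter fun p => s ∈ A p).card = (univ.filter fun w => adj s w).card :=
    fun s => by
      refine card_bij (fun p _ => p.1) (fun p hp => ?_) (fun p hp q hq e => ?_) fun w hw => ?_
      · exact mem_filter.2 ⟨mem_univ _, h.symm _ _ ((mem _ _).1 (mem_filter.1 hp).2).1⟩
      · refine Prod.ext e ?_
        rw [← ((mem _ _).1 (mem_filter.1 hp).2).2, ← ((mem _ _).1 (mem_filter.1 hq).2).2, e]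
      · exact ⟨(w, decide (0 < tr (n w) (n s) g)), mem_filter.2 ⟨mem_univ _, (mem _ _).2
          ⟨h.symm _ _ (mem_filter.1 hw).2, rfl⟩⟩, rfl⟩
  have c3 : ∑ u, ((univ.filter fun w => adj u w).card : ℝ) ^ 2 ≤
      2 * ∑ p, ((A p).card : ℝ) ^ 2 := by
    rw [Fintype.sum_prod_type, mul_sum]
    refine sum_le_sum fun u _ => ?_
    rw [c1, Fintype.sum_bool]
    nlinarith [sq_nonneg (((A (u, true)).card : ℝ) - (A (u, false)).card)]
  simp only [c2] at a2
  rw [Fintype.card_prod, Fintype.card_bool, Nat.cast_mul, Nat.cast_ofNat] at a1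
  have c4 := arith_bound (N := Fintype.card W) (Nat.cast_nonneg _)
    (by rcases Nat.eq_zero_or_pos (Fintype.card W) with e | e
        · exact Or.inl (by rw [e, Nat.cast_zero])
        · exact Or.inr (by exact_mod_cast e))
    a1 (a2.trans (mul_le_mul_of_nonneg_left (by linarith) (sq_nonneg _)))
  linarith

end Pool.Agent.Lib.MP_6f5d92_co
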