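import Pool.Agent.Lib.MP_6f5d92_co.Graph
import Pool.Agent.Lib.MP_6f5d92_co.Euler

/-! The sum of the squares of the face sizes. -/

namespace Pool.Agent.Lib.MP_6f5d92_co

open Matrix Finset

/-- convex planar faces with their planes, every side in exactly two faces -/
structure Surf {ι : Type} (P : ι → Set (Fin 3 → ℝ)) (S : ι → Set (Set (Fin 3 → ℝ)))
    (n : ι → Fin 3 → ℝ) (c : ι → ℝ) : Prop where
  conv : ∀ i, Convex ℝ (P i)
  ne : ∀ i, n i ≠ 0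
  pl : ∀ i, ∀ x ∈ P i, n i ⬝ᵥ x = c i
  side : ∀ i e, e ∈ S i ↔ IsExtreme ℝ (P i) e ∧ ∃ a b, a ≠ b ∧ e = segment ℝ a b
  two : ∀ i, ∀ e ∈ S i, ∃! j, j ≠ i ∧ e ∈ S j
  nc : ∀ i j, i ≠ j → ∀ e ∈ S i, e ∈ S j → ¬ Coplanar ℝ (P i ∪ P j)

variable {ι : Type} {P : ι → Set (Fin 3 → ℝ)} {S : ι → Set (Set (Fin 3 → ℝ))}
  {n : ι → Fin 3 → ℝ} {c : ι → ℝ}

theorem Surf.sub (h : Surf P S n c) {i : ι} {e : Set (Fin 3 → ℝ)} (he : e ∈ S i) : e ⊆ P i :=
  ((h.side i e).1 he).1.subset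

theorem Surf.exists_off (h : Surf P S n c) {i j : ι} (ij : i ≠ j) {e : Set (Fin 3 → ℝ)}
    (hi : e ∈ S i) (hj : e ∈ S j) : ∃ y ∈ P i, n j ⬝ᵥ y ≠ c j := by
  by_contra h0
  refine h.nc i j ij e hi hj (coplanar_of_plane (c := c j) (h.ne j) fun x hx => ?_)
  rcases hx with hx | hx
  · by_contra h1
    exact h0 ⟨x, hx, h1⟩
  · exact h.pl j x hx

theorem Surf.cross (h : Surf P S n c) {i j : ι} (ij : i ≠ j) {e : Set (Fin 3 → ℝ)}
    (hi : e ∈ S i) (hj : e ∈ S j) : n i ⨯₃ n j ≠ 0 := by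
  obtain ⟨y, hy, h0⟩ := h.exists_off ij hi hj
  obtain ⟨-, a, b, -, rfl⟩ := (h.side i _).1 hi
  have ha := left_mem_segment ℝ a b
  exact cross_ne_zero (a := a) (y := y) (h.ne i) (h.ne j)
    ((h.pl i y hy).trans (h.pl i a (h.sub hi ha)).symm) (by rwa [h.pl j a (h.sub hj ha)])

theorem Surf.mem (h : Surf P S n c) {i j : ι} (ij : i ≠ j) {e : Set (Fin 3 → ℝ)}
    (hi : e ∈ S i) (hj : e ∈ S j) {x : Fin 3 → ℝ} (hx : x ∈ P i) (h0 : n j ⬝ᵥ x = c j) :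
    x ∈ e := by
  have hc := h.cross ij hi hj
  obtain ⟨he, a, b, ab, rfl⟩ := (h.side i _).1 hi
  exact mem_side hc (h.pl i) ab he (h.pl j a (h.sub hj (left_mem_segment ℝ a b)))
    (h.pl j b (h.sub hj (right_mem_segment ℝ a b))) hx h0

theorem Surf.sided (h : Surf P S n c) {i j : ι} (ij : i ≠ j) {e : Set (Fin 3 → ℝ)}
    (hi : e ∈ S i) (hj : e ∈ S j) :
    (∀ x ∈ P i, n j ⬝ᵥ x ≤ c j) ∨ ∀ x ∈ P i, c j ≤ n j ⬝ᵥ x := by
  have hc := h.cross ij hi hj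
  obtain ⟨he, a, b, ab, rfl⟩ := (h.side i _).1 hi
  exact one_side (h.conv i) hc (h.pl i) ab he (h.pl j a (h.sub hj (left_mem_segment ℝ a b)))
    (h.pl j b (h.sub hj (right_mem_segment ℝ a b)))

/-- two faces share at most one side -/
theorem Surf.uniq (h : Surf P S n c) {i j : ι} (ij : i ≠ j) {e f : Set (Fin 3 → ℝ)}
    (ei : e ∈ S i) (ej : e ∈ S j) (fi : f ∈ S i) (fj : f ∈ S j) : e = f :=
  Set.Subset.antisymm (fun x hx => h.mem ij fi fj (h.sub ei hx) (h.pl j x (h.sub ej hx)))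
    fun x hx => h.mem ij ei ej (h.sub fi hx) (h.pl j x (h.sub fj hx))

/-- an inner point of a side is off the planes of the other neighbours -/
theorem Surf.off (h : Surf P S n c) {i j k : ι} (ij : i ≠ j) (ik : i ≠ k) (jk : k ≠ j)
    {a b x : Fin 3 → ℝ} (ab : a ≠ b) (ei : segment ℝ a b ∈ S i) (ej : segment ℝ a b ∈ S j)
    (hx : x ∈ openSegment ℝ a b) {f : Set (Fin 3 → ℝ)} (fi : f ∈ S i) (fk : f ∈ S k) :
    n k ⬝ᵥ x ≠ c k := fun h0 => by
  have ha := left_mem_segment ℝ a b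
  have hb := right_mem_segment ℝ a b
  have x1 := h.mem ik fi fk (h.sub ei (openSegment_subset_segment ℝ a b hx)) h0
  have hf := ((h.side i f).1 fi).1
  have a1 : a ∈ f := hf.left_mem_of_mem_openSegment (h.sub ei ha) (h.sub ei hb) x1 hx
  have b1 : b ∈ f := hf.right_mem_of_mem_openSegment (h.sub ei ha) (h.sub ei hb) x1 hx
  have s1 : f ⊆ segment ℝ a b := fun y hy => mem_side (h.cross ik fi fk) (h.pl i) ab
    ((h.side i _).1 ei).1 (h.pl k a (h.sub fk a1)) (h.pl k b (h.sub fk b1)) (h.sub fi hy)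
    (h.pl k y (h.sub fk hy))
  have s2 : segment ℝ a b ⊆ f := fun y hy => by
    refine h.mem ik fi fk (h.sub ei hy) ?_
    obtain ⟨s, t, -, -, st, rfl⟩ := hy
    rw [dotProduct_add, dotProduct_smul, dotProduct_smul, h.pl k a (h.sub fk a1),
      h.pl k b (h.sub fk b1), smul_eq_mul, smul_eq_mul, ← add_mul, st, one_mul]
  rw [Set.Subset.antisymm s1 s2] at fk
  exact jk ((h.two i _ ei).unique ⟨ik.symm, fk⟩ ⟨ij.symm, ej⟩)

/-- the sign attached to an orientation -/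
def sg (b : Bool) : ℝ := if b then 1 else -1

theorem sg_ne (b : Bool) : sg b ≠ 0 := by cases b <;> simp [sg]

/-- the oriented faces share a side and each lies behind the plane of the other -/
def Adj (P : ι → Set (Fin 3 → ℝ)) (S : ι → Set (Set (Fin 3 → ℝ))) (n : ι → Fin 3 → ℝ) (c : ι → ℝ)
    (u v : ι × Bool) : Prop :=
  u.1 ≠ v.1 ∧ (∃ e, e ∈ S u.1 ∧ e ∈ S v.1) ∧
    (∀ y ∈ P u.1, sg v.2 * (n v.1 ⬝ᵥ y) ≤ sg v.2 * c v.1) ∧
    ∀ y ∈ P v.1, sg u.2 * (n u.1 ⬝ᵥ y) ≤ sg u.2 * c u.1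

theorem Adj.symm {u v : ι × Bool} (h : Adj P S n c u v) : Adj P S n c v u :=
  ⟨h.1.symm, h.2.1.imp fun _ q => q.symm, h.2.2.2, h.2.2.1⟩

theorem Surf.lt (h : Surf P S n c) {u v w : ι × Bool} (uv : Adj P S n c u v)
    (uw : Adj P S n c u w) (wv : w ≠ v) {a b x : Fin 3 → ℝ} (ab : a ≠ b)
    (ei : segment ℝ a b ∈ S u.1) (ej : segment ℝ a b ∈ S v.1) (hx : x ∈ openSegment ℝ a b) :
    sg w.2 * (n w.1 ⬝ᵥ x) < sg w.2 * c w.1 := by
  obtain ⟨f, fi, fk⟩ := uw.2.1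
  have jk : w.1 ≠ v.1 := fun e => by
    obtain ⟨y, hy, h0⟩ := h.exists_off uv.1 ei ej
    have q1 := uv.2.2.1 y hy
    have q2 := uw.2.2.1 y hy
    have q3 : w.2 ≠ v.2 := fun e' => wv (Prod.ext e e')
    rw [e] at q2
    revert q1 q2 q3
    cases w.2 <;> cases v.2 <;> simp only [sg, ne_eq, not_true_eq_false, if_true, Bool.false_eq_true,
      if_false, IsEmpty.forall_iff, implies_true] <;> intro q1 q2 _ <;> exact h0 (by linarith)
  exact lt_of_le_of_ne (uw.2.2.1 x (h.sub ei (openSegment_subset_segment ℝ a b hx))) fun e =>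
    h.off uv.1 uw.1 jk ab ei ej hx fi fk (mul_left_cancel₀ (sg_ne _) e)

theorem Surf.contact (h : Surf P S n c) : ∃ x, Contact (Adj P S n c)
    (fun u => sg u.2 • n u.1) (fun u => sg u.2 * c u.1) x := by
  have key : ∀ u v : ι × Bool, ∃ x : Fin 3 → ℝ, Adj P S n c u v → ∃ a b, a ≠ b ∧
      segment ℝ a b ∈ S u.1 ∧ segment ℝ a b ∈ S v.1 ∧ x ∈ openSegment ℝ a b := fun u v => by
    by_cases q : Adj P S n c u v
    · obtain ⟨e, e1, e2⟩ := q.2.1
      obtain ⟨-, a, b, ab, rfl⟩ := (h.side _ _).1 e1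
      exact ⟨midpoint ℝ a b, fun _ => ⟨a, b, ab, e1, e2, midpoint_mem_openSegment a b⟩⟩
    · exact ⟨0, fun q' => absurd q' q⟩
  choose x hx using key
  refine ⟨x, fun _ _ q => q.symm, fun u v q => ?_, fun u v q => ?_, fun u v q => ?_,
    fun u v w q q' wv => ?_, fun u v w q q' wv => ?_⟩
  · obtain ⟨e, e1, e2⟩ := q.2.1
    rw [LinearMap.map_smul₂, LinearMap.map_smul]
    exact smul_ne_zero (sg_ne _) (smul_ne_zero (sg_ne _) (h.cross q.1 e1 e2))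
  · obtain ⟨a, b, -, e1, -, m⟩ := hx u v q
    rw [smul_dotProduct, smul_eq_mul, h.pl _ _ (h.sub e1 (openSegment_subset_segment ℝ a b m))]
  · obtain ⟨a, b, -, -, e2, m⟩ := hx u v q
    rw [smul_dotProduct, smul_eq_mul, h.pl _ _ (h.sub e2 (openSegment_subset_segment ℝ a b m))]
  · obtain ⟨a, b, ab, e1, e2, m⟩ := hx u v q
    rw [smul_dotProduct, smul_eq_mul]
    exact h.lt q q' wv ab e1 e2 m
  · obtain ⟨a, b, ab, e1, e2, m⟩ := hx u v q
    rw [smul_dotProduct, smul_eq_mul]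
    exact h.lt q.symm q' wv ab e2 e1 m

theorem Surf.exists_sg (h : Surf P S n c) {i j : ι} (ij : i ≠ j) {e : Set (Fin 3 → ℝ)}
    (hi : e ∈ S i) (hj : e ∈ S j) : ∃ t, ∀ y ∈ P i, sg t * (n j ⬝ᵥ y) ≤ sg t * c j := by
  rcases h.sided ij hi hj with q | q
  · exact ⟨true, fun y hy => by simpa [sg] using q y hy⟩
  · exact ⟨false, fun y hy => by simpa [sg] using q y hy⟩

open Classical in
theorem Surf.card_le [Fintype ι] (h : Surf P S n c) (i : ι) : (S i).Finite ∧ (S i).ncard ≤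
    (univ.filter fun w => Adj P S n c (i, true) w).card +
      (univ.filter fun w => Adj P S n c (i, false) w).card := by
  have key : ∀ e, ∃ w : ι × Bool, e ∈ S i → e ∈ S w.1 ∧ i ≠ w.1 ∧ ∃ s, Adj P S n c (i, s) w :=
    fun e => by
      by_cases he : e ∈ S i
      · obtain ⟨j, ⟨ji, hj⟩, -⟩ := h.two i e he
        obtain ⟨t, ht⟩ := h.exists_sg ji.symm he hj
        obtain ⟨s, hs⟩ := h.exists_sg ji hj he
        exact ⟨(j, t), fun _ => ⟨hj, ji.symm, s, ji.symm, ⟨e, he, hj⟩, ht, hs⟩⟩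
      · exact ⟨(i, true), fun q => absurd q he⟩
  choose w hw using key
  have inj : Set.InjOn w (S i) := fun e he f hf q =>
    h.uniq (hw e he).2.1 he (hw e he).1 hf (q ▸ (hw f hf).1)
  refine ⟨Set.Finite.of_finite_image (Set.toFinite _) inj, le_trans ?_ (card_union_le _ _)⟩
  rw [← Set.ncard_coe_finset]
  refine Set.ncard_le_ncard_of_injOn w (fun e he => ?_) inj (Finset.finite_toSet _)
  obtain ⟨s, hs⟩ := (hw e he).2.2
  cases s
  · exact mem_coe.2 (mem_union_right _ (mem_filter.2 ⟨mem_univ _, hs⟩))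
  · exact mem_coe.2 (mem_union_left _ (mem_filter.2 ⟨mem_univ _, hs⟩))

theorem Surf.bound [Fintype ι] (h : Surf P S n c) :
    ∑ i, (S i).ncard ^ 2 ≤ 448 * Fintype.card ι ^ 2 := by
  classical
  obtain ⟨x, hx⟩ := h.contact
  have b := hx.bound
  rw [Fintype.sum_prod_type, Fintype.card_prod, Fintype.card_bool] at b
  have b1 : ∑ i, ((S i).ncard : ℝ) ^ 2 ≤ 2 * ∑ i, ∑ s : Bool,
      ((univ.filter fun w => Adj P S n c (i, s) w).card : ℝ) ^ 2 := by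
    rw [mul_sum]
    refine sum_le_sum fun i _ => ?_
    have q : ((S i).ncard : ℝ) ≤ (univ.filter fun w => Adj P S n c (i, true) w).card +
        (univ.filter fun w => Adj P S n c (i, false) w).card := by exact_mod_cast (h.card_le i).2
    rw [Fintype.sum_bool]
    refine (pow_le_pow_left₀ (Nat.cast_nonneg _) q 2).trans ?_
    nlinarith [sq_nonneg (((univ.filter fun w => Adj P S n c (i, true) w).card : ℝ) -
      (univ.filter fun w => Adj P S n c (i, false) w).card)]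
  have b2 : ∑ i, ((S i).ncard : ℝ) ^ 2 ≤ 448 * (Fintype.card ι : ℝ) ^ 2 := by
    push_cast at b
    nlinarith
  exact_mod_cast b2

theorem exists_surf (hc : ∀ i, Convex ℝ (P i)) (hpl : ∀ i, Coplanar ℝ (P i))
    (hS : ∀ i e, e ∈ S i ↔ IsExtreme ℝ (P i) e ∧ ∃ a b, a ≠ b ∧ e = segment ℝ a b)
    (h2 : ∀ i, ∀ e ∈ S i, ∃! j, j ≠ i ∧ e ∈ S j)
    (hnc : ∀ i j, i ≠ j → ∀ e ∈ S i, e ∈ S j → ¬ Coplanar ℝ (P i ∪ P j)) :
    ∃ n c, Surf P S n c := by
  choose n c h1 h3 using fun i => exists_plane (hpl i)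
  exact ⟨n, c, hc, h1, h3, hS, h2, hnc⟩

end Pool.Agent.Lib.MP_6f5d92_co
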