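import Pool.Agent.Lib.MP_6f5d92_co.Side

/-! Every end point of a side of a polygon is the end point of a second side. -/

namespace Pool.Agent.Lib.MP_6f5d92_co

open Matrix

theorem nx_hull {V : Set (Fin 3 → ℝ)} {g : Fin 3 → ℝ} {r : ℝ} (h : ∀ x ∈ V, r ≤ g ⬝ᵥ x) :
    ∀ x ∈ convexHull ℝ V, r ≤ g ⬝ᵥ x := by
  refine fun x hx => convexHull_min (t := {x | r ≤ g ⬝ᵥ x}) h ?_ hx
  intro x hx y hy a b ha hb hab
  simp only [Set.mem_ofPred_eq, dotProduct_add, dotProduct_smul, smul_eq_mul] at hx hy ⊢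
  have h1 := mul_le_mul_of_nonneg_left hx ha
  have h2 := mul_le_mul_of_nonneg_left hy hb
  have h3 : a * r + b * r = r := by rw [← add_mul, hab, one_mul]
  linarith

theorem nx_lex {V : Set (Fin 3 → ℝ)} {g m : Fin 3 → ℝ} {r s : ℝ}
    (h : ∀ x ∈ V, r ≤ g ⬝ᵥ x ∧ (g ⬝ᵥ x = r → m ⬝ᵥ x ≤ s)) :
    ∀ x ∈ convexHull ℝ V, r ≤ g ⬝ᵥ x ∧ (g ⬝ᵥ x = r → m ⬝ᵥ x ≤ s) := by
  refine fun x hx =>
    convexHull_min (t := {x | r ≤ g ⬝ᵥ x ∧ (g ⬝ᵥ x = r → m ⬝ᵥ x ≤ s)}) h ?_ hx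
  intro x hx y hy a b ha hb hab
  simp only [Set.mem_ofPred_eq, dotProduct_add, dotProduct_smul, smul_eq_mul] at hx hy ⊢
  have h1 := mul_le_mul_of_nonneg_left hx.1 ha
  have h2 := mul_le_mul_of_nonneg_left hy.1 hb
  have h3 : a * r + b * r = r := by rw [← add_mul, hab, one_mul]
  have h4 : a * s + b * s = s := by rw [← add_mul, hab, one_mul]
  refine ⟨by linarith, fun h5 => ?_⟩
  have h6 : a * (m ⬝ᵥ x) ≤ a * s := by
    rcases ha.eq_or_lt with h0 | h0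
    · simp [← h0]
    · exact mul_le_mul_of_nonneg_left (hx.2 (mul_left_cancel₀ h0.ne' (by linarith))) ha
  have h7 : b * (m ⬝ᵥ y) ≤ b * s := by
    rcases hb.eq_or_lt with h0 | h0
    · simp [← h0]
    · exact mul_le_mul_of_nonneg_left (hy.2 (mul_left_cancel₀ h0.ne' (by linarith))) hb
  linarith

theorem nx_seg {g v w x : Fin 3 → ℝ} (hx : x ∈ segment ℝ v w) :
    ∃ s : ℝ, 0 ≤ s ∧ g ⬝ᵥ x - g ⬝ᵥ v = s * (g ⬝ᵥ w - g ⬝ᵥ v) := by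
  obtain ⟨a, s, -, hs, hab, rfl⟩ := hx
  refine ⟨s, hs, ?_⟩
  rw [dotProduct_add, dotProduct_smul, dotProduct_smul, smul_eq_mul, smul_eq_mul,
    show a = 1 - s by linarith]
  ring

theorem next_side (V : Finset (Fin 3 → ℝ)) {n m v b : Fin 3 → ℝ} {c d : ℝ} (h : n ⨯₃ m ≠ 0)
    (hP : ∀ x ∈ convexHull ℝ (V : Set (Fin 3 → ℝ)), n ⬝ᵥ x = c) (hvb : v ≠ b)
    (he : IsExtreme ℝ (convexHull ℝ (V : Set (Fin 3 → ℝ))) (segment ℝ v b))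
    (hv : m ⬝ᵥ v = d) (hb : m ⬝ᵥ b = d)
    (hs : ∀ x ∈ convexHull ℝ (V : Set (Fin 3 → ℝ)), d ≤ m ⬝ᵥ x)
    (hy : ∃ y ∈ convexHull ℝ (V : Set (Fin 3 → ℝ)), m ⬝ᵥ y ≠ d) :
    ∃ w, m ⬝ᵥ w ≠ d ∧ IsExtreme ℝ (convexHull ℝ (V : Set (Fin 3 → ℝ))) (segment ℝ v w) := by
  classical
  have hV : ∀ x ∈ V, x ∈ convexHull ℝ (V : Set (Fin 3 → ℝ)) := fun x hx =>
    subset_convexHull ℝ _ (Finset.mem_coe.mpr hx)
  have hvP := he.subset (left_mem_segment ℝ v b)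
  have hbP := he.subset (right_mem_segment ℝ v b)
  obtain ⟨e, hee⟩ : ∃ e, e = b - v := ⟨_, rfl⟩
  have he0 : e ≠ 0 := hee ▸ sub_ne_zero.mpr hvb.symm
  have hen : n ⬝ᵥ e = 0 := by rw [hee, dotProduct_sub, hP _ hvP, hP _ hbP, sub_self]
  have hem : m ⬝ᵥ e = 0 := by rw [hee, dotProduct_sub, hv, hb, sub_self]
  have hee0 : 0 ≤ e ⬝ᵥ b - e ⬝ᵥ v := by
    rw [← dotProduct_sub, ← hee]
    exact Finset.sum_nonneg fun i _ => mul_self_nonneg _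
  have hne : (V.filter fun x => m ⬝ᵥ x ≠ d).Nonempty := by
    by_contra h0
    obtain ⟨y, hy1, hy2⟩ := hy
    have h1 := nx_hull (V := (V : Set (Fin 3 → ℝ))) (g := -m) (r := -d) (fun x hx => by
      have h2 : m ⬝ᵥ x = d := by
        by_contra h3
        exact h0 ⟨x, Finset.mem_filter.mpr ⟨Finset.mem_coe.mp hx, h3⟩⟩
      rw [neg_dotProduct, h2]) y hy1
    rw [neg_dotProduct] at h1
    exact hy2 (le_antisymm (by linarith) (hs y hy1))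
  obtain ⟨u, hu, hmin⟩ := Finset.exists_min_image _
    (fun x => (e ⬝ᵥ x - e ⬝ᵥ v) / (m ⬝ᵥ x - d)) hne
  obtain ⟨huV, hud⟩ := Finset.mem_filter.mp hu
  obtain ⟨μ, hμ⟩ : ∃ μ, μ = (e ⬝ᵥ u - e ⬝ᵥ v) / (m ⬝ᵥ u - d) := ⟨_, rfl⟩
  obtain ⟨g, hg⟩ : ∃ g, g = e - μ • m := ⟨_, rfl⟩
  have hgx : ∀ x, g ⬝ᵥ x = e ⬝ᵥ x - μ * (m ⬝ᵥ x) := fun x => by
    rw [hg, sub_dotProduct, smul_dotProduct, smul_eq_mul]
  have hpos : ∀ x ∈ V, g ⬝ᵥ v ≤ g ⬝ᵥ x := fun x hx => by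
    rw [hgx, hgx, hv]
    by_cases h0 : m ⬝ᵥ x = d
    · obtain ⟨s, hs0, hs1⟩ := nx_seg (g := e) (mem_side h hP hvb he hv hb (hV x hx) h0)
      have := mul_nonneg hs0 hee0
      rw [h0]
      linarith
    · have h1 := hmin x (Finset.mem_filter.mpr ⟨hx, h0⟩)
      have h2 : 0 < m ⬝ᵥ x - d := sub_pos.mpr (lt_of_le_of_ne (hs x (hV x hx)) (Ne.symm h0))
      rw [← hμ, le_div_iff₀ h2] at h1
      linarith
  have hu0 : g ⬝ᵥ u = g ⬝ᵥ v := by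
    have h1 := (eq_div_iff (sub_ne_zero.mpr hud)).mp hμ
    rw [hgx, hgx, hv]
    linarith
  obtain ⟨w, hw, hmax⟩ := Finset.exists_max_image (V.filter fun x => g ⬝ᵥ x = g ⬝ᵥ v)
    (fun x => m ⬝ᵥ x) ⟨u, Finset.mem_filter.mpr ⟨huV, hu0⟩⟩
  obtain ⟨hwV, hwg⟩ := Finset.mem_filter.mp hw
  have hwd : 0 < m ⬝ᵥ w - d := by
    have h1 := hmax u (Finset.mem_filter.mpr ⟨huV, hu0⟩)
    have h2 := lt_of_le_of_ne (hs u (hV u huV)) (Ne.symm hud)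
    linarith
  have hlex := nx_lex (V := (V : Set (Fin 3 → ℝ))) (g := g) (m := m) (r := g ⬝ᵥ v)
    (s := m ⬝ᵥ w) fun x hx => ⟨hpos x (Finset.mem_coe.mp hx),
      fun h0 => hmax x (Finset.mem_filter.mpr ⟨Finset.mem_coe.mp hx, h0⟩)⟩
  refine ⟨w, sub_ne_zero.mp hwd.ne', (convex_convexHull ℝ _).segment_subset hvP (hV w hwV), ?_⟩
  rintro x hx y hy z hz ⟨a, a', ha, ha', haa, rfl⟩
  have hx0 : g ⬝ᵥ x = g ⬝ᵥ v := by
    obtain ⟨s, -, h1⟩ := nx_seg (g := g) hz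
    rw [hwg, sub_self, mul_zero, dotProduct_add, dotProduct_smul, dotProduct_smul, smul_eq_mul,
      smul_eq_mul] at h1
    have h2 := mul_le_mul_of_nonneg_left (hlex x hx).1 ha.le
    have h3 := mul_le_mul_of_nonneg_left (hlex y hy).1 ha'.le
    have h4 : a * (g ⬝ᵥ v) + a' * (g ⬝ᵥ v) = g ⬝ᵥ v := by rw [← add_mul, haa, one_mul]
    exact mul_left_cancel₀ ha.ne' (by linarith)
  obtain ⟨s, hs'⟩ : ∃ s, s = (m ⬝ᵥ x - d) / (m ⬝ᵥ w - d) := ⟨_, rfl⟩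
  have hs0 : 0 ≤ s := hs' ▸ div_nonneg (sub_nonneg.mpr (hs x hx)) hwd.le
  have hs1 : s ≤ 1 := hs' ▸ (div_le_one hwd).mpr (by linarith [(hlex x hx).2 hx0])
  have hs2 := (eq_div_iff hwd.ne').mp hs'
  have hz : ∀ k : Fin 3 → ℝ, k ⬝ᵥ (x - v - s • (w - v)) =
      k ⬝ᵥ x - k ⬝ᵥ v - s * (k ⬝ᵥ w - k ⬝ᵥ v) := fun k => by
    rw [dotProduct_sub, dotProduct_sub, dotProduct_smul, dotProduct_sub, smul_eq_mul]
  have hm0 : m ⬝ᵥ (x - v - s • (w - v)) = 0 := by rw [hz, hv]; linarith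
  obtain ⟨t, ht⟩ := exists_smul_of_cross h he0 hen hem
    (by rw [hz, hP _ hx, hP _ hvP, hP _ (hV w hwV)]; ring) hm0
  have hg0 : g ⬝ᵥ (x - v - s • (w - v)) = 0 := by rw [hz, hx0, hwg]; ring
  rw [hgx, hm0, mul_zero, sub_zero, ht, dotProduct_smul, smul_eq_mul, mul_eq_zero,
    dotProduct_self_eq_zero] at hg0
  rw [hg0.resolve_right he0, zero_smul, sub_eq_zero, sub_eq_iff_eq_add] at ht
  refine ⟨1 - s, s, by linarith, hs0, by ring, ?_⟩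
  rw [ht]
  module

/-- a segment has two end points -/
theorem end_eq {a b v w : Fin 3 → ℝ} (hvw : v ≠ w) (h : segment ℝ a b = segment ℝ v w) :
    v = a ∨ v = b := by
  obtain ⟨p, α, -, hα, h1, ha⟩ : a ∈ segment ℝ v w := h ▸ left_mem_segment ℝ a b
  obtain ⟨q, β, -, hβ, h2, hb⟩ : b ∈ segment ℝ v w := h ▸ right_mem_segment ℝ a b
  obtain ⟨r, s, hr, hs, h3, hv⟩ : v ∈ segment ℝ a b := h ▸ left_mem_segment ℝ v w
  obtain rfl : p = 1 - α := by linarith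
  obtain rfl : q = 1 - β := by linarith
  obtain rfl : r = 1 - s := by linarith
  have h4 : ((1 - s) * α + s * β) • (w - v) = 0 := by
    have h5 : ((1 - s) * α + s * β) • (w - v) =
        (1 - s) • ((1 - α) • v + α • w) + s • ((1 - β) • v + β • w) - v := by module
    rw [h5, ha, hb, hv, sub_self]
  have h6 := (smul_eq_zero.mp h4).resolve_right (sub_ne_zero.mpr hvw.symm)
  have h7 : (1 - s) * α = 0 := by linarith [mul_nonneg hr hα, mul_nonneg hs hβ]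
  rcases mul_eq_zero.mp h7 with h8 | h8
  · right
    rw [← hv, h8, show s = 1 by linarith, zero_smul, one_smul, zero_add]
  · left
    rw [← ha, h8, sub_zero, one_smul, zero_smul, add_zero]

end Pool.Agent.Lib.MP_6f5d92_co
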