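import Mathlib

/-! The sum of squares inequality for ordered lists. -/

namespace Pool.Agent.Lib.MP_6f5d92_co

open Finset

/-- The sign of `y - x`. -/
noncomputable def psdSg (x y : ℝ) : ℝ := if x < y then 1 else if y < x then -1 else 0

lemma psd_le_one (x y z w : ℝ) : psdSg x y * psdSg z w ≤ 1 := by
  unfold psdSg
  split_ifs <;> norm_num

lemma psd_pair {S : Type} [DecidableEq S] (T : Finset S) (k l : S → ℝ) (hk : Set.InjOn k T)
    (hl : Set.InjOn l T) :
    ∑ a ∈ T, ∑ b ∈ T, psdSg (k a) (k b) * psdSg (l a) (l b) =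
      4 * (∑ a ∈ T, ∑ b ∈ T, if k a < k b ∧ l a < l b then (1 : ℝ) else 0) -
        (T.card : ℝ) ^ 2 + T.card := by
  have e : ∀ a ∈ T, ∀ b ∈ T, psdSg (k a) (k b) * psdSg (l a) (l b) =
      2 * (if k a < k b ∧ l a < l b then (1 : ℝ) else 0) +
        2 * (if k b < k a ∧ l b < l a then (1 : ℝ) else 0) - 1 + if a = b then 1 else 0 := by
    intro a ha b hb
    by_cases h : a = b
    · subst h
      simp [psdSg]
    have h1 : k a ≠ k b := fun r => h (hk ha hb r)
    have h2 : l a ≠ l b := fun r => h (hl ha hb r)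
    unfold psdSg
    rcases lt_or_gt_of_ne h1 with r | r <;> rcases lt_or_gt_of_ne h2 with s | s <;>
      simp [r, s, r.not_gt, s.not_gt, h] <;> norm_num
  rw [sum_congr rfl fun a ha => sum_congr rfl fun b hb => e a ha b hb]
  simp only [sum_add_distrib, sum_sub_distrib, ← mul_sum]
  rw [sum_comm (f := fun a b => if k b < k a ∧ l b < l a then (1 : ℝ) else 0),
    sum_congr rfl (f := fun a => ∑ b ∈ T, if a = b then (1 : ℝ) else 0) (g := fun _ => 1)
      fun a ha => by rw [sum_ite_eq, if_pos ha]]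
  simp only [sum_const, nsmul_eq_mul, mul_one]
  ring

lemma psd_count {S : Type} [DecidableEq S] (T : Finset S) (P : S → S → Prop) [DecidableRel P]
    (h : ∀ a ∈ T, ∀ b ∈ T, ∀ c ∈ T, P a b → P b c → False) :
    4 * (∑ a ∈ T, ∑ b ∈ T, if P a b then (1 : ℝ) else 0) ≤ (T.card : ℝ) ^ 2 := by
  have e : ∑ a ∈ T, ∑ b ∈ T, (if P a b then (1 : ℝ) else 0) ≤
      ∑ a ∈ T, ∑ b ∈ T, (if ¬ ∃ c ∈ T, P c a then (1 : ℝ) else 0) *
        (if ∃ c ∈ T, P c b then (1 : ℝ) else 0) := by
    refine sum_le_sum fun a ha => sum_le_sum fun b hb => ?_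
    by_cases r : P a b
    · rw [if_pos r, if_pos (fun ⟨c, hc, s⟩ => h c hc a ha b hb s r), if_pos ⟨a, ha, r⟩, mul_one]
    · rw [if_neg r]
      positivity
  rw [← sum_mul_sum, sum_boole, sum_boole] at e
  have c : (((T.filter fun a => ∃ c ∈ T, P c a).card : ℝ)) +
      (T.filter fun a => ¬ ∃ c ∈ T, P c a).card = T.card := by
    exact_mod_cast card_filter_add_card_filter_not _
  rw [← c]
  nlinarith [sq_nonneg (((T.filter fun a => ∃ c ∈ T, P c a).card : ℝ) -
    (T.filter fun a => ¬ ∃ c ∈ T, P c a).card)]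

/-- Lists `B i` ordered by injective keys, no three symbols in the same order in two lists.  Over
any set `G` of pairs of lists whose common symbols are completely reversed, the squares of the
intersection sizes have a small sum. -/
theorem psd {I S : Type} [Fintype I] [Fintype S] [DecidableEq I] [DecidableEq S]
    (B : I → Finset S) (κ : I → S → ℝ) (hinj : ∀ i, Set.InjOn (κ i) (B i))
    (h3 : ∀ i j, i ≠ j → ∀ a ∈ B i ∩ B j, ∀ b ∈ B i ∩ B j, ∀ c ∈ B i ∩ B j,
      κ i a < κ i b → κ i b < κ i c → κ j a < κ j b → κ j b < κ j c → False)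
    (G : Finset (I × I)) (hG : ∀ p ∈ G, p.1 ≠ p.2 ∧ ∀ a ∈ B p.1 ∩ B p.2, ∀ b ∈ B p.1 ∩ B p.2,
      κ p.1 a < κ p.1 b → κ p.2 a < κ p.2 b → False) :
    ∑ p ∈ G, ((B p.1 ∩ B p.2).card : ℝ) ^ 2 ≤
      ∑ i, ((B i).card : ℝ) ^ 2 + ∑ s, ((univ.filter fun i => s ∈ B i).card : ℝ) ^ 2 := by
  set f : I → S → S → ℝ := fun i a b =>
    if a ∈ B i ∧ b ∈ B i then psdSg (κ i a) (κ i b) else 0 with hf
  have e0 : ∀ i j, ∑ a, ∑ b, f i a b * f j a b =
      ∑ a ∈ B i ∩ B j, ∑ b ∈ B i ∩ B j, psdSg (κ i a) (κ i b) * psdSg (κ j a) (κ j b) := by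
    intro i j
    symm
    refine (sum_congr rfl fun a ha => ?_).trans (sum_subset (subset_univ _) fun a _ ha => ?_)
    · refine (sum_congr rfl fun b hb => ?_).trans (sum_subset (subset_univ _) fun b _ hb => ?_)
      · simp only [hf, mem_inter.1 ha, mem_inter.1 hb, and_self, if_true]
      · rcases not_and_or.1 (mt mem_inter.2 hb) with r | r <;> simp [hf, r]
    · rcases not_and_or.1 (mt mem_inter.2 ha) with r | r <;> simp [hf, r]
  have e1 : ∀ p : I × I, ∑ a, ∑ b, f p.1 a b * f p.2 a b ≤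
      (if p.1 = p.2 then ((B p.1).card : ℝ) ^ 2 else 0) + (B p.1 ∩ B p.2).card -
        if p ∈ G then ((B p.1 ∩ B p.2).card : ℝ) ^ 2 else 0 := by
    rintro ⟨i, j⟩
    dsimp only
    rw [e0]
    by_cases h : i = j
    · subst h
      rw [if_pos rfl, if_neg fun r => (hG _ r).1 rfl, inter_self]
      refine (sum_le_sum fun a _ => sum_le_sum fun b _ => psd_le_one _ _ _ _).trans ?_
      simp [sq]
    rw [if_neg h, psd_pair _ _ _ ((hinj i).mono (by simp)) ((hinj j).mono (by simp))]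
    split_ifs with r
    · rw [sum_eq_zero fun a ha => sum_eq_zero fun b hb =>
        if_neg fun s => (hG _ r).2 a ha b hb s.1 s.2]
      linarith
    · have := psd_count (B i ∩ B j) (fun a b => κ i a < κ i b ∧ κ j a < κ j b)
        fun a ha b hb c hc s t => h3 i j h a ha b hb c hc s.1 t.1 s.2 t.2
      linarith
  have e2 : 0 ≤ ∑ p : I × I, ∑ a, ∑ b, f p.1 a b * f p.2 a b := by
    rw [sum_comm]
    refine sum_nonneg fun a _ => ?_
    rw [sum_comm]
    refine sum_nonneg fun b _ => ?_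
    rw [Fintype.sum_prod_type' fun i j => f i a b * f j a b, ← sum_mul_sum]
    exact mul_self_nonneg _
  have e3 : ∑ p : I × I, ((B p.1 ∩ B p.2).card : ℝ) =
      ∑ s, ((univ.filter fun i => s ∈ B i).card : ℝ) ^ 2 := by
    have c : ∀ p : I × I, ((B p.1 ∩ B p.2).card : ℝ) =
        ∑ s, (if s ∈ B p.1 then (1 : ℝ) else 0) * if s ∈ B p.2 then (1 : ℝ) else 0 := by
      intro p
      simp only [ite_zero_mul_ite_zero, mul_one, ← mem_inter]
      rw [sum_boole, filter_mem_eq_inter, univ_inter]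
    rw [sum_congr rfl fun p _ => c p, sum_comm]
    refine sum_congr rfl fun s _ => ?_
    rw [Fintype.sum_prod_type' fun i j =>
      (if s ∈ B i then (1 : ℝ) else 0) * if s ∈ B j then (1 : ℝ) else 0, ← sum_mul_sum,
      sum_boole, sq]
  have e4 := e2.trans (sum_le_sum fun p _ => e1 p)
  rw [sum_sub_distrib, sum_add_distrib, e3, sum_ite_mem, univ_inter,
    Fintype.sum_prod_type' fun i j => if i = j then ((B i).card : ℝ) ^ 2 else 0] at e4
  simp only [sum_ite_eq, mem_univ, if_true] at e4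
  linarith

end Pool.Agent.Lib.MP_6f5d92_co
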