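import Mathlib

/-! Planes and sides of convex planar sets in three-space. -/

namespace Pool.Agent.Lib.MP_6f5d92_co

open Matrix

theorem exists_plane {P : Set (Fin 3 → ℝ)} (h : Coplanar ℝ P) :
    ∃ (n : Fin 3 → ℝ) (c : ℝ), n ≠ 0 ∧ ∀ x ∈ P, n ⬝ᵥ x = c := by
  have h1 : vectorSpan ℝ P < ⊤ := by
    refine lt_top_iff_ne_top.mpr fun ht => ?_
    have h2 := h.finrank_le_two
    rw [ht, finrank_top, Module.finrank_fin_fun] at h2
    omega
  obtain ⟨f, hf0, hf⟩ := Submodule.exists_le_ker_of_lt_top _ h1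
  have hn : ∀ x : Fin 3 → ℝ, (fun k => f (Pi.single k 1)) ⬝ᵥ x = f x := by
    intro x
    conv_rhs => rw [pi_eq_sum_univ' x, map_sum]
    refine Finset.sum_congr rfl fun k _ => ?_
    rw [map_smul, smul_eq_mul, mul_comm]
  have hn0 : (fun k => f (Pi.single k 1)) ≠ 0 := by
    intro h0
    refine hf0 (LinearMap.ext fun x => ?_)
    rw [← hn x, h0, zero_dotProduct, LinearMap.zero_apply]
  rcases P.eq_empty_or_nonempty with rfl | ⟨a, ha⟩
  · exact ⟨_, 0, hn0, fun x hx => hx.elim⟩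
  · refine ⟨_, f a, hn0, fun x hx => ?_⟩
    have h2 : f (x - a) = 0 := hf (vsub_mem_vectorSpan ℝ hx ha)
    rw [map_sub, sub_eq_zero] at h2
    rw [hn x, h2]

theorem coplanar_of_plane {P : Set (Fin 3 → ℝ)} {n : Fin 3 → ℝ} {c : ℝ} (hn : n ≠ 0)
    (h : ∀ x ∈ P, n ⬝ᵥ x = c) : Coplanar ℝ P := by
  let f : (Fin 3 → ℝ) →ₗ[ℝ] ℝ :=
    { toFun := fun x => n ⬝ᵥ x
      map_add' := fun x y => dotProduct_add n x y
      map_smul' := fun t x => dotProduct_smul t n x }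
  have hf0 : f ≠ 0 := by
    intro h0
    have h1 : n ⬝ᵥ n = 0 := LinearMap.congr_fun h0 n
    exact hn (dotProduct_self_eq_zero.mp h1)
  have h1 : vectorSpan ℝ P ≤ LinearMap.ker f := by
    rw [vectorSpan_def, Submodule.span_le]
    rintro v ⟨x, hx, y, hy, rfl⟩
    change n ⬝ᵥ (x - y) = 0
    rw [dotProduct_sub, h x hx, h y hy, sub_self]
  have h2 : Module.finrank ℝ (LinearMap.ker f) < 3 := by
    have h3 := Submodule.finrank_lt (K := ℝ) (s := LinearMap.ker f)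
      (fun ht => hf0 (LinearMap.ker_eq_top.mp ht))
    rwa [Module.finrank_fin_fun] at h3
  have h3 := Submodule.finrank_mono h1
  rw [coplanar_iff_finrank_le_two]
  omega

/-- two different planes through `a` have independent normals -/
theorem cross_ne_zero {n m a y : Fin 3 → ℝ} (hn : n ≠ 0) (hm : m ≠ 0) (h1 : n ⬝ᵥ y = n ⬝ᵥ a)
    (h2 : m ⬝ᵥ y ≠ m ⬝ᵥ a) : n ⨯₃ m ≠ 0 := by
  intro h0
  have _ := hm
  have h3 := cross_cross_eq_smul_sub_smul' (y - a) n m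
  rw [h0, map_zero, dotProduct_comm n, dotProduct_comm _ n, dotProduct_sub n, h1, sub_self,
    zero_smul, sub_zero] at h3
  rcases smul_eq_zero.mp h3.symm with h4 | h4
  · rw [dotProduct_comm, dotProduct_sub, sub_eq_zero] at h4
    exact h2 h4
  · exact hn h4

/-- two planes with independent normals meet in a line -/
theorem exists_smul_of_cross {n m d e : Fin 3 → ℝ} (h : n ⨯₃ m ≠ 0) (he : e ≠ 0)
    (h1 : n ⬝ᵥ e = 0) (h2 : m ⬝ᵥ e = 0) (h3 : n ⬝ᵥ d = 0) (h4 : m ⬝ᵥ d = 0) :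
    ∃ t : ℝ, d = t • e := by
  have k0 : (n ⨯₃ m) ⬝ᵥ (n ⨯₃ m) ≠ 0 := fun e => h (dotProduct_self_eq_zero.1 e)
  have key : ∀ z : Fin 3 → ℝ, n ⬝ᵥ z = 0 → m ⬝ᵥ z = 0 → ∃ s : ℝ, z = s • (n ⨯₃ m) := by
    intro z hn hm
    have e1 : z ⨯₃ (n ⨯₃ m) = 0 := by
      rw [cross_cross_eq_smul_sub_smul', dotProduct_comm z m, hm, hn]
      simp
    have e2 := cross_cross_eq_smul_sub_smul' (n ⨯₃ m) z (n ⨯₃ m)
    rw [e1, map_zero, eq_comm, sub_eq_zero] at e2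
    exact ⟨_, ((inv_smul_smul₀ k0 z).symm.trans (congrArg _ e2)).trans (smul_smul _ _ _)⟩
  obtain ⟨s, rfl⟩ := key e h1 h2
  obtain ⟨r, rfl⟩ := key d h3 h4
  have s0 : s ≠ 0 := fun e => he (by rw [e, zero_smul])
  exact ⟨r / s, by rw [smul_smul, div_mul_cancel₀ _ s0]⟩

/-- a second plane through a side cuts the set exactly in that side -/
theorem mem_side {P : Set (Fin 3 → ℝ)} {n m a b : Fin 3 → ℝ} {c d : ℝ} (h : n ⨯₃ m ≠ 0)
    (hP : ∀ x ∈ P, n ⬝ᵥ x = c) (hab : a ≠ b) (he : IsExtreme ℝ P (segment ℝ a b))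
    (ha : m ⬝ᵥ a = d) (hb : m ⬝ᵥ b = d) {x : Fin 3 → ℝ} (hx : x ∈ P) (h0 : m ⬝ᵥ x = d) :
    x ∈ segment ℝ a b := by
  have pa := he.subset (left_mem_segment ℝ a b)
  have pb := he.subset (right_mem_segment ℝ a b)
  obtain ⟨t, ht⟩ := exists_smul_of_cross (d := x - a) h (sub_ne_zero.2 hab.symm)
    (by rw [dotProduct_sub, hP _ pa, hP _ pb, sub_self]) (by rw [dotProduct_sub, ha, hb, sub_self])
    (by rw [dotProduct_sub, hP _ pa, hP _ hx, sub_self]) (by rw [dotProduct_sub, ha, h0, sub_self])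
  rw [sub_eq_iff_eq_add] at ht
  rcases lt_or_ge t 0 with t0 | t0
  · have t1 : 0 < 1 - t := by linarith
    refine he.left_mem_of_mem_openSegment hx pb (left_mem_segment ℝ a b)
      ⟨1 / (1 - t), -t / (1 - t), by positivity, div_pos (by linarith) t1, by field_simp; ring, ?_⟩
    rw [ht]
    match_scalars <;> field_simp <;> ring
  rcases le_or_gt t 1 with t1 | t1
  · exact ⟨1 - t, t, by linarith, t0, by ring, by rw [ht]; module⟩
  · have t2 : 0 < t := by linarith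
    refine he.left_mem_of_mem_openSegment hx pa (right_mem_segment ℝ a b)
      ⟨1 / t, (t - 1) / t, by positivity, div_pos (by linarith) t2, by field_simp; ring, ?_⟩
    rw [ht]
    match_scalars <;> field_simp <;> ring

/-- the set lies on one side of a second plane through a side -/
theorem one_side {P : Set (Fin 3 → ℝ)} (hc : Convex ℝ P) {n m a b : Fin 3 → ℝ} {c d : ℝ}
    (h : n ⨯₃ m ≠ 0) (hP : ∀ x ∈ P, n ⬝ᵥ x = c) (hab : a ≠ b)
    (he : IsExtreme ℝ P (segment ℝ a b)) (ha : m ⬝ᵥ a = d) (hb : m ⬝ᵥ b = d) :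
    (∀ x ∈ P, m ⬝ᵥ x ≤ d) ∨ ∀ x ∈ P, d ≤ m ⬝ᵥ x := by
  by_contra hn
  push Not at hn
  obtain ⟨⟨y, hy, y0⟩, z, hz, z0⟩ := hn
  have p0 : 0 < m ⬝ᵥ y - m ⬝ᵥ z := by linarith
  have p1 : 0 < (d - m ⬝ᵥ z) / (m ⬝ᵥ y - m ⬝ᵥ z) := div_pos (by linarith) p0
  have p2 : 0 < (m ⬝ᵥ y - d) / (m ⬝ᵥ y - m ⬝ᵥ z) := div_pos (by linarith) p0
  have p3 : (d - m ⬝ᵥ z) / (m ⬝ᵥ y - m ⬝ᵥ z) + (m ⬝ᵥ y - d) / (m ⬝ᵥ y - m ⬝ᵥ z) = 1 := by
    field_simp
    ring
  obtain ⟨s, t, -, -, st, rfl⟩ := he.left_mem_of_mem_openSegment hy hz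
    (mem_side h hP hab he ha hb (hc hy hz p1.le p2.le p3) (by
      rw [dotProduct_add, dotProduct_smul, dotProduct_smul, smul_eq_mul, smul_eq_mul]
      field_simp
      ring)) ⟨_, _, p1, p2, p3, rfl⟩
  rw [dotProduct_add, dotProduct_smul, dotProduct_smul, ha, hb, smul_eq_mul, smul_eq_mul,
    ← add_mul, st, one_mul] at y0
  exact lt_irrefl _ y0

end Pool.Agent.Lib.MP_6f5d92_co
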