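import Pool.Agent.Lib.MP_6f5d92_co.Three

/-! Six affine functions on three-space: no `K_{3,3}` of positive contact points. -/

namespace Pool.Agent.Lib.MP_6f5d92_co.Tri

open Matrix Three

theorem pr {a b α β : ℝ} (hα : 0 < α) (hβ : 0 < β) (h : a * α + b * β ≤ 0) (ha : 0 < a) :
    b < 0 := by
  by_contra hb
  have := mul_pos ha hα
  have := mul_nonneg (not_lt.1 hb) hβ.le
  linarith

theorem tri (k0 k1 k2 : ℝ) (u v : Fin 3 → Fin 3 → ℝ) (hu : ∀ j l, l ≠ j → 0 < u j l)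
    (hv : ∀ j l, l ≠ j → 0 < v j l) (u0 : ∀ j, u j j = 0) (v0 : ∀ j, v j j = 0)
    (h1 : ∀ j, k0 * u j 0 + k1 * u j 1 + k2 * u j 2 ≤ 0)
    (h2 : ∀ j, 0 ≤ k0 * v j 0 + k1 * v j 1 + k2 * v j 2) : k0 ≤ 0 := by
  by_contra h
  have h := not_le.1 h
  have a := h1 2
  have b := h1 1
  have c := h2 0
  rw [u0] at a b
  rw [v0] at c
  have a1 : k1 < 0 := pr (hu 2 0 (by decide)) (hu 2 1 (by decide)) (by linarith) h
  have b1 : k2 < 0 := pr (hu 1 0 (by decide)) (hu 1 2 (by decide)) (by linarith) h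
  have := mul_neg_of_neg_of_pos a1 (hv 0 1 (by decide))
  have := mul_neg_of_neg_of_pos b1 (hv 0 2 (by decide))
  linarith

theorem tri' (k0 k1 k2 : ℝ) (u v : Fin 3 → Fin 3 → ℝ) (hu : ∀ j l, l ≠ j → 0 < u j l)
    (hv : ∀ j l, l ≠ j → 0 < v j l) (u0 : ∀ j, u j j = 0) (v0 : ∀ j, v j j = 0)
    (h1 : ∀ j, k0 * u j 0 + k1 * u j 1 + k2 * u j 2 ≤ 0)
    (h2 : ∀ j, 0 ≤ k0 * v j 0 + k1 * v j 1 + k2 * v j 2) : k0 = 0 ∧ k1 = 0 ∧ k2 = 0 := by
  have a := tri k0 k1 k2 u v hu hv u0 v0 h1 h2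
  have b := tri (-k0) (-k1) (-k2) v u hv hu v0 u0 (fun j => by linarith [h2 j])
    fun j => by linarith [h1 j]
  have k : k0 = 0 := by linarith
  subst k
  have c1 := h1 2
  have c2 := h2 2
  have d1 := h1 1
  have d2 := h2 1
  rw [u0] at c1 d1
  rw [v0] at c2 d2
  have e1 := hu 2 1 (by decide)
  have e2 := hv 2 1 (by decide)
  have e3 := hu 1 2 (by decide)
  have e4 := hv 1 2 (by decide)
  refine ⟨rfl, le_antisymm ?_ ?_, le_antisymm ?_ ?_⟩
  · by_contra h; nlinarith [mul_pos (not_le.1 h) e1]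
  · by_contra h; nlinarith [mul_neg_of_neg_of_pos (not_le.1 h) e2]
  · by_contra h; nlinarith [mul_pos (not_le.1 h) e3]
  · by_contra h; nlinarith [mul_neg_of_neg_of_pos (not_le.1 h) e4]

theorem core (F G : Fin 3 → (Fin 3 → ℝ) × ℝ) (x : Fin 3 → Fin 3 → Fin 3 → ℝ)
    (F0 : ∀ r j, ev (F r) (x r j) = 0) (G0 : ∀ r j, ev (G j) (x r j) = 0)
    (hF : ∀ r q j, q ≠ r → 0 < ev (F q) (x r j)) (hG : ∀ r j l, l ≠ j → 0 < ev (G l) (x r j)) :
    False := by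
  have key0 : ∀ p q : Fin 3, p ≠ q → ∀ a b k0 k1 k2 : ℝ, (∀ y, a * ev (F p) y + b * ev (F q) y +
      (k0 * ev (G 0) y + k1 * ev (G 1) y + k2 * ev (G 2) y) = 0) → 0 ≤ a → b ≤ 0 →
      a = 0 ∧ b = 0 ∧ k0 = 0 ∧ k1 = 0 ∧ k2 = 0 := by
    intro p q pq a b k0 k1 k2 h ha hb
    obtain ⟨rfl, rfl, rfl⟩ := tri' k0 k1 k2 (fun j l => ev (G l) (x q j))
      (fun j l => ev (G l) (x p j)) (hG q) (hG p) (G0 q) (G0 p)
      (fun j => by
        have h1 := h (x q j)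
        rw [F0] at h1
        have := mul_nonneg ha (hF q p j pq).le
        linarith)
      (fun j => by
        have h1 := h (x p j)
        rw [F0] at h1
        have := mul_nonpos_of_nonpos_of_nonneg hb (hF p q j pq.symm).le
        linarith)
    have h1 := h (x q 0)
    have h2 := h (x p 0)
    rw [F0] at h1 h2
    refine ⟨?_, ?_, rfl, rfl, rfl⟩
    · exact (mul_eq_zero.1 (by linarith : a * ev (F p) (x q 0) = 0)).resolve_right
        (hF q p 0 pq).ne'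
    · exact (mul_eq_zero.1 (by linarith : b * ev (F q) (x p 0) = 0)).resolve_right
        (hF p q 0 pq.symm).ne'
  have key : ∀ p q : Fin 3, p ≠ q → ∀ a b k0 k1 k2 : ℝ, (∀ y, a * ev (F p) y + b * ev (F q) y +
      (k0 * ev (G 0) y + k1 * ev (G 1) y + k2 * ev (G 2) y) = 0) → a * b ≤ 0 →
      a = 0 ∧ b = 0 ∧ k0 = 0 ∧ k1 = 0 ∧ k2 = 0 := by
    intro p q pq a b k0 k1 k2 h hab
    rcases mul_nonpos_iff.1 hab with ⟨ha, hb⟩ | ⟨ha, hb⟩
    · exact key0 p q pq a b k0 k1 k2 h ha hb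
    · obtain ⟨e1, e2, e3⟩ := key0 q p pq.symm b a k0 k1 k2 (fun y => by linarith [h y]) hb ha
      exact ⟨e2, e1, e3⟩
  have ex : ∀ p q : Fin 3, p ≠ q → ∃ a b k0 k1 k2 : ℝ, (∀ y, a * ev (F p) y + b * ev (F q) y +
      (k0 * ev (G 0) y + k1 * ev (G 1) y + k2 * ev (G 2) y) = 0) ∧ 0 < a * b := by
    intro p q pq
    have hd : ¬ LinearIndependent ℝ ![F p, F q, G 0, G 1, G 2] := fun h => by
      have := h.fintype_card_le_finrank
      simp at this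
    obtain ⟨g, hg, i, hi⟩ := Fintype.not_linearIndependent_iff.1 hd
    have hy : ∀ y, g 0 * ev (F p) y + g 1 * ev (F q) y +
        (g 2 * ev (G 0) y + g 3 * ev (G 1) y + g 4 * ev (G 2) y) = 0 := fun y => by
      have h1 := congrArg (fun w => ev w y) hg
      simp only [Fin.sum_univ_five, ev_add, ev_smul, ev_zero] at h1
      simp only [Matrix.cons_val] at h1
      linarith
    refine ⟨g 0, g 1, g 2, g 3, g 4, hy, not_le.1 fun h => hi ?_⟩
    obtain ⟨e0, e1, e2, e3, e4⟩ := key p q pq _ _ _ _ _ hy h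
    fin_cases i <;> assumption
  obtain ⟨a1, a2, k0, k1, k2, h1, ha⟩ := ex 1 2 (by decide)
  obtain ⟨b0, b2, m0, m1, m2, h2, hb⟩ := ex 0 2 (by decide)
  obtain ⟨e, -⟩ := key 0 1 (by decide) (-(a2 * b0)) (b2 * a1) (b2 * k0 - a2 * m0)
    (b2 * k1 - a2 * m1) (b2 * k2 - a2 * m2)
    (fun y => by linear_combination b2 * h1 y - a2 * h2 y) (by nlinarith [mul_pos ha hb])
  rcases mul_eq_zero.1 (neg_eq_zero.1 e) with e | e
  · simp [e] at ha
  · simp [e] at hb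

theorem sn_eq {s t : Bool} {e : ℝ} (h1 : 0 < sn s * e) (h2 : 0 < sn t * e) : s = t :=
  (of_pos h1).symm.trans (of_pos h2)

/-- a plane through two different sides contains the set -/
theorem two_sides {Q : Set (Fin 3 → ℝ)} (pQ : Coplanar ℝ Q) {m a b u v : Fin 3 → ℝ} {d : ℝ}
    (hm : m ≠ 0) (ab : a ≠ b) (he : IsExtreme ℝ Q (segment ℝ a b)) (uv : u ≠ v)
    (hf : IsExtreme ℝ Q (segment ℝ u v)) (ne : segment ℝ a b ≠ segment ℝ u v)
    (h1 : ∀ y ∈ segment ℝ a b, m ⬝ᵥ y = d) (h2 : ∀ y ∈ segment ℝ u v, m ⬝ᵥ y = d) :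
    ∀ y ∈ Q, m ⬝ᵥ y = d := by
  obtain ⟨n, c, hn, hc⟩ := exists_plane pQ
  by_contra h
  push Not at h
  obtain ⟨y, hy, h0⟩ := h
  have aQ := he.subset (left_mem_segment ℝ a b)
  exact ne (same_side (cross_ne_zero (a := a) (y := y) hn hm ((hc y hy).trans (hc a aQ).symm)
    (by rwa [h1 a (left_mem_segment ℝ a b)])) hc ab he uv hf h2 (midpoint_mem_openSegment a b)
    (h1 _ (midpoint_mem_segment a b)))

end Pool.Agent.Lib.MP_6f5d92_co.Tri
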